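import Pool.Agent.MP_120ee9_mp.Defs

-- part MP_120ee9_mp.Conj
section

/-! Conjugation of operators by an antiunitary, and the ideal of compact operators. -/

noncomputable section

namespace Pool.Agent.MP_120ee9_mp

open ContinuousLinearMap InnerProductSpace
open scoped ComplexConjugate

variable {H : Type*} [NormedAddCommGroup H] [InnerProductSpace ℂ H]

lemma inner_anti (Θ : H ≃ₗᵢ⋆[ℂ] H) (x y : H) : inner ℂ (Θ x) (Θ y) = inner ℂ y x := by
  have h1 : ‖Θ x + Θ y‖ = ‖y + x‖ := by rw [← map_add, Θ.norm_map, add_comm]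
  have h2 : ‖Θ x - Θ y‖ = ‖y - x‖ := by rw [← map_sub, Θ.norm_map, norm_sub_rev]
  have hI : ∀ z : H, (Complex.I : ℂ) • Θ z = - Θ (Complex.I • z) := by
    intro z; rw [map_smulₛₗ]; simp
  have hn : ∀ (u v : H), ‖u + Complex.I • v‖ = ‖v - Complex.I • u‖ := by
    intro u v
    have : v - Complex.I • u = (-Complex.I) • (u + Complex.I • v) := by
      rw [smul_add, smul_smul]; simp; abel
    rw [this, norm_smul]; simp
  have h3 : ‖Θ x - Complex.I • Θ y‖ = ‖y - Complex.I • x‖ := by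
    rw [hI, sub_neg_eq_add, ← map_add, Θ.norm_map, hn]
  have h4 : ‖Θ x + Complex.I • Θ y‖ = ‖y + Complex.I • x‖ := by
    rw [hI, ← sub_eq_add_neg, ← map_sub, Θ.norm_map, hn y x]
  rw [inner_eq_sum_norm_sq_div_four, inner_eq_sum_norm_sq_div_four]
  simp only [RCLike.I_to_complex]
  rw [h1, h2, h3, h4]

lemma inner_anti_left (Θ : H ≃ₗᵢ⋆[ℂ] H) (x y : H) :
    inner ℂ (Θ x) y = inner ℂ (Θ.symm y) x := by
  conv_lhs => rw [← Θ.apply_symm_apply y]
  exact inner_anti Θ x _

/-- `Θ A Θ⁻¹` -/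
def cj (Θ : H ≃ₗᵢ⋆[ℂ] H) (A : H →L[ℂ] H) : H →L[ℂ] H :=
  (Θ.toContinuousLinearEquiv : H →L⋆[ℂ] H).comp
    (A.comp (Θ.symm.toContinuousLinearEquiv : H →L⋆[ℂ] H))

@[simp] lemma cj_apply (Θ : H ≃ₗᵢ⋆[ℂ] H) (A : H →L[ℂ] H) (x : H) :
    cj Θ A x = Θ (A (Θ.symm x)) := rfl

lemma cj_apply' (Θ : H ≃ₗᵢ⋆[ℂ] H) (A : H →L[ℂ] H) (x : H) :
    cj Θ A (Θ x) = Θ (A x) := by simp

@[simp] lemma cj_mul (Θ : H ≃ₗᵢ⋆[ℂ] H) (A B : H →L[ℂ] H) : cj Θ (A * B) = cj Θ A * cj Θ B := by
  ext; simp

@[simp] lemma cj_add (Θ : H ≃ₗᵢ⋆[ℂ] H) (A B : H →L[ℂ] H) : cj Θ (A + B) = cj Θ A + cj Θ B := by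
  ext; simp

@[simp] lemma cj_sub (Θ : H ≃ₗᵢ⋆[ℂ] H) (A B : H →L[ℂ] H) : cj Θ (A - B) = cj Θ A - cj Θ B := by
  ext; simp

@[simp] lemma cj_one (Θ : H ≃ₗᵢ⋆[ℂ] H) : cj Θ 1 = 1 := by ext; simp

@[simp] lemma cj_zero (Θ : H ≃ₗᵢ⋆[ℂ] H) : cj Θ 0 = 0 := by ext; simp

@[simp] lemma cj_smul (Θ : H ≃ₗᵢ⋆[ℂ] H) (c : ℂ) (A : H →L[ℂ] H) :
    cj Θ (c • A) = conj c • cj Θ A := by
  ext; simp [map_smulₛₗ]

lemma cj_rankOne (Θ : H ≃ₗᵢ⋆[ℂ] H) (a b : H) :
    cj Θ (rankOne ℂ a b) = rankOne ℂ (Θ a) (Θ b) := by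
  ext x
  simp only [cj_apply, rankOne_apply, map_smulₛₗ]
  rw [inner_anti_left Θ b x, inner_conj_symm]

lemma norm_cj_le (Θ : H ≃ₗᵢ⋆[ℂ] H) (A : H →L[ℂ] H) : ‖cj Θ A‖ ≤ ‖A‖ := by
  refine opNorm_le_bound _ (norm_nonneg _) fun x => ?_
  rw [cj_apply, Θ.norm_map]
  simpa using A.le_opNorm (Θ.symm x)

lemma cj_eq_iff (Θ : H ≃ₗᵢ⋆[ℂ] H) (A B : H →L[ℂ] H) :
    cj Θ A = B ↔ ∀ x, B (Θ x) = Θ (A x) := by
  constructor
  · rintro rfl x; simp
  · intro h; ext x; rw [cj_apply, ← h]; simp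

lemma isCompactOperator_cj (Θ : H ≃ₗᵢ⋆[ℂ] H) {A : H →L[ℂ] H} (hA : IsCompactOperator A) :
    IsCompactOperator (cj Θ A) :=
  (hA.comp_clm (Θ.symm.toContinuousLinearEquiv : H →L⋆[ℂ] H)).clm_comp
    (Θ.toContinuousLinearEquiv : H →L⋆[ℂ] H)

variable [CompleteSpace H]

@[simp] lemma cj_star (Θ : H ≃ₗᵢ⋆[ℂ] H) (A : H →L[ℂ] H) : cj Θ (star A) = star (cj Θ A) := by
  rw [star_eq_adjoint, star_eq_adjoint, eq_adjoint_iff]
  intro x y
  simp only [cj_apply]
  rw [inner_anti_left, adjoint_inner_right, ← inner_conj_symm x, inner_anti_left, inner_conj_symm]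

/-- `cj` as a real star algebra homomorphism -/
def cjHom (Θ : H ≃ₗᵢ⋆[ℂ] H) : (H →L[ℂ] H) →⋆ₐ[ℝ] (H →L[ℂ] H) where
  toFun := cj Θ
  map_one' := cj_one Θ
  map_mul' := cj_mul Θ
  map_zero' := cj_zero Θ
  map_add' := cj_add Θ
  commutes' r := by
    rw [Algebra.algebraMap_eq_smul_one, ← Complex.coe_smul, cj_smul]; simp
  map_star' := cj_star Θ

@[simp] lemma cjHom_apply (Θ : H ≃ₗᵢ⋆[ℂ] H) (A : H →L[ℂ] H) : cjHom Θ A = cj Θ A := rfl

omit [CompleteSpace H] in
lemma continuous_cj (Θ : H ≃ₗᵢ⋆[ℂ] H) : Continuous (cj Θ) := by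
  have : LipschitzWith 1 (cj Θ) := LipschitzWith.of_dist_le_mul fun A B => by
    rw [dist_eq_norm, dist_eq_norm, ← cj_sub]; simpa using norm_cj_le Θ (A - B)
  exact this.continuous

lemma cj_cfc (Θ : H ≃ₗᵢ⋆[ℂ] H) (f : ℝ → ℝ) (A : H →L[ℂ] H) (hA : IsSelfAdjoint A)
    (hf : ContinuousOn f (spectrum ℝ A)) : cj Θ (cfc f A) = cfc f (cj Θ A) :=
  StarAlgHomClass.map_cfc (R := ℝ) (S := ℝ) (cjHom Θ) f A hf (continuous_cj Θ) hA
    (by rw [IsSelfAdjoint, cjHom_apply, ← cj_star, hA.star_eq])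

lemma cj_exp (Θ : H ≃ₗᵢ⋆[ℂ] H) (A : H →L[ℂ] H) :
    cj Θ (NormedSpace.exp A) = NormedSpace.exp (cj Θ A) :=
  let +nondep : NormedAlgebra ℚ (H →L[ℂ] H) := .restrictScalars ℚ ℂ _
  NormedSpace.map_exp (cjHom Θ) (continuous_cj Θ) A

/-- The two-sided ideal of operators that are compact together with their adjoint. -/
def cptIdeal (H : Type*) [NormedAddCommGroup H] [InnerProductSpace ℂ H] [CompleteSpace H] :
    TwoSidedIdeal (H →L[ℂ] H) :=
  TwoSidedIdeal.mk' {T | IsCompactOperator T ∧ IsCompactOperator (star T : H →L[ℂ] H)}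
    ⟨isCompactOperator_zero, by rw [star_zero]; exact isCompactOperator_zero⟩
    (fun ha hb => ⟨ha.1.add hb.1, by rw [star_add]; exact ha.2.add hb.2⟩)
    (fun ha => ⟨ha.1.neg, by rw [star_neg]; exact ha.2.neg⟩)
    (fun {x y} hy => ⟨hy.1.clm_comp x, by rw [star_mul]; exact hy.2.comp_clm (star x)⟩)
    (fun {x y} hx => ⟨hx.1.comp_clm y, by rw [star_mul]; exact hx.2.clm_comp (star y)⟩)

lemma mem_cptIdeal {T : H →L[ℂ] H} :
    T ∈ cptIdeal H ↔ IsCompactOperator T ∧ IsCompactOperator (star T : H →L[ℂ] H) :=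
  TwoSidedIdeal.mem_mk' ..

lemma isClosed_cptIdeal : IsClosed {T : H →L[ℂ] H | T ∈ cptIdeal H} := by
  simp only [mem_cptIdeal]
  exact isClosed_setOfPred_isCompactOperator.inter
    (isClosed_setOfPred_isCompactOperator.preimage (f := fun T : H →L[ℂ] H => star T)
      continuous_star)

lemma star_mem_cptIdeal {T : H →L[ℂ] H} (h : T ∈ cptIdeal H) : star T ∈ cptIdeal H := by
  rw [mem_cptIdeal] at h ⊢
  exact ⟨h.2, by rw [star_star]; exact h.1⟩

lemma cj_mem_cptIdeal (Θ : H ≃ₗᵢ⋆[ℂ] H) {T : H →L[ℂ] H} (h : T ∈ cptIdeal H) :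
    cj Θ T ∈ cptIdeal H := by
  rw [mem_cptIdeal] at h ⊢
  exact ⟨isCompactOperator_cj Θ h.1, by rw [← cj_star]; exact isCompactOperator_cj Θ h.2⟩

lemma smul_mem_cptIdeal (c : ℂ) {T : H →L[ℂ] H} (h : T ∈ cptIdeal H) : c • T ∈ cptIdeal H := by
  have : c • T = (c • (1 : H →L[ℂ] H)) * T := by simp
  rw [this]; exact (cptIdeal H).mul_mem_left _ _ h

omit [CompleteSpace H] in
lemma isCompactOperator_rankOne (a b : H) : IsCompactOperator (rankOne ℂ a b) := by
  rw [rankOne_def']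
  exact (isCompactOperator_of_locallyCompactSpace_dom (innerSL ℂ b)).clm_comp
    (toSpanSingleton ℂ a)

lemma rankOne_mem_cptIdeal (a b : H) : rankOne ℂ a b ∈ cptIdeal H := by
  rw [mem_cptIdeal, star_eq_adjoint, adjoint_rankOne]
  exact ⟨isCompactOperator_rankOne a b, isCompactOperator_rankOne b a⟩

end Pool.Agent.MP_120ee9_mp

end
end

-- part MP_120ee9_mp.Z2
section

/-! The `ℤ₂` index of `Θ`-odd operators that are unitary modulo compacts. -/

noncomputable section

namespace Pool.Agent.MP_120ee9_mp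

open ContinuousLinearMap InnerProductSpace Module
open scoped ComplexConjugate

lemma even_of_skew {V : Type*} [AddCommGroup V] [Module ℂ V] [FiniteDimensional ℂ V]
    (B : LinearMap.BilinForm ℂ V) (hs : ∀ x y, B x y = - B y x)
    (hn : ∀ y, (∀ x, B x y = 0) → y = 0) : Even (finrank ℂ V) := by
  classical
  have hnd : B.Nondegenerate := LinearMap.BilinForm.Nondegenerate.ofSeparatingRight hn
  let b := Module.finBasis ℂ V
  have hdet := (LinearMap.BilinForm.nondegenerate_iff_det_ne_zero b).1 hnd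
  by_contra hodd
  rw [Nat.not_even_iff_odd] at hodd
  set A := LinearMap.BilinForm.toMatrix b B with hA
  have hT : A.transpose = -A := by
    ext i j
    simp only [hA, Matrix.transpose_apply, Matrix.neg_apply, LinearMap.BilinForm.toMatrix_apply]
    exact hs _ _
  have h1 : A.det = -A.det := by
    conv_lhs => rw [← Matrix.det_transpose, hT, Matrix.det_neg]
    rw [Fintype.card_fin, hodd.neg_one_pow]; ring
  exact hdet (by linear_combination (1 / 2 : ℂ) * h1)

variable {H : Type*} [NormedAddCommGroup H] [InnerProductSpace ℂ H] [CompleteSpace H]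

/-- `Θ`-odd and unitary modulo compacts -/
structure Adm (Θ : H ≃ₗᵢ⋆[ℂ] H) (F : H →L[ℂ] H) : Prop where
  odd : cj Θ F = star F
  cpt : 1 - star F * F ∈ cptIdeal H

lemma Adm.cpt' {Θ : H ≃ₗᵢ⋆[ℂ] H} {F : H →L[ℂ] H} (h : Adm Θ F) :
    1 - F * star F ∈ cptIdeal H := by
  have := cj_mem_cptIdeal Θ h.cpt
  simpa [h.odd] using this

lemma Adm.star {Θ : H ≃ₗᵢ⋆[ℂ] H} {F : H →L[ℂ] H} (h : Adm Θ F) : Adm Θ (star F) :=
  ⟨by rw [cj_star, h.odd], by rw [star_star]; exact h.cpt'⟩

lemma star_apply_anti {Θ : H ≃ₗᵢ⋆[ℂ] H} {F : H →L[ℂ] H} (h : cj Θ F = star F) (x : H) :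
    (star F) (Θ x) = Θ (F x) := by rw [← h, cj_apply']

lemma apply_anti {Θ : H ≃ₗᵢ⋆[ℂ] H} {F : H →L[ℂ] H} (h : cj Θ F = star F) (x : H) :
    F (Θ x) = Θ ((star F) x) := by
  have : cj Θ (star F) = F := by rw [cj_star, h, star_star]
  conv_lhs => rw [← this]
  rw [cj_apply']

lemma inner_star_right (F : H →L[ℂ] H) (x y : H) : inner ℂ x ((star F) y) = inner ℂ (F x) y := by
  rw [star_eq_adjoint, adjoint_inner_right]

lemma inner_star_left (F : H →L[ℂ] H) (x y : H) : inner ℂ ((star F) x) y = inner ℂ x (F y) := by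
  rw [star_eq_adjoint, adjoint_inner_left]

lemma skew_of_odd {Θ : H ≃ₗᵢ⋆[ℂ] H} (hΘ : ∀ x, Θ (Θ x) = -x) {G : H →L[ℂ] H}
    (h : cj Θ G = star G) (x y : H) : inner ℂ (Θ x) (G y) = - inner ℂ (Θ y) (G x) := by
  rw [← inner_star_left, star_apply_anti h, ← inner_anti Θ y, hΘ, ← inner_neg_right]

lemma finiteDimensional_ker {F : H →L[ℂ] H} (h : 1 - star F * F ∈ cptIdeal H) :
    FiniteDimensional ℂ F.ker := by
  have hK : IsCompactOperator ((1 - star F * F : H →L[ℂ] H) : H →ₗ[ℂ] H) := (mem_cptIdeal.1 h).1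
  have hV : ∀ v ∈ F.ker, ((1 - star F * F : H →L[ℂ] H) : H →ₗ[ℂ] H) v ∈ F.ker := by
    intro v hv
    have hv' : F v = 0 := hv
    simp [hv']
  have := hK.restrict hV F.isClosed_ker
  apply FiniteDimensional.of_isCompactOperator_id (𝕜 := ℂ)
  have e : ⇑(((1 - star F * F : H →L[ℂ] H) : H →ₗ[ℂ] H).restrict hV) = id := by
    ext ⟨v, hv⟩
    have hv' : F v = 0 := hv
    simp [hv']
  rwa [e] at this

lemma starProjection_mem_cptIdeal (N : Submodule ℂ H) [FiniteDimensional ℂ N] :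
    N.starProjection ∈ cptIdeal H := by
  have h : IsCompactOperator N.starProjection :=
    (isCompactOperator_of_locallyCompactSpace_dom N.orthogonalProjectionOnto).clm_comp N.subtypeL
  rw [mem_cptIdeal, (isSelfAdjoint_starProjection N).star_eq]
  exact ⟨h, h⟩

lemma isUnit_of_cpt {K : H →L[ℂ] H} (hK : K ∈ cptIdeal H) (h : ∀ x, (1 - K) x = 0 → x = 0) :
    IsUnit (1 - K) := by
  rcases (mem_cptIdeal.1 hK).1.hasEigenvalue_or_mem_resolventSet (μ := 1) one_ne_zero with h1 | h1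
  · exfalso
    obtain ⟨x, hx⟩ := h1.exists_hasEigenvector
    have h2 : K x = x := by simpa using hx.apply_eq_smul
    exact hx.2 (h x (by simp [h2]))
  · simpa [resolventSet] using h1

lemma isUnit_gram {F : H →L[ℂ] H} (h : 1 - star F * F ∈ cptIdeal H) [FiniteDimensional ℂ F.ker] :
    IsUnit (star F * F + F.ker.starProjection) := by
  have hK : (1 - star F * F) - F.ker.starProjection ∈ cptIdeal H :=
    (cptIdeal H).sub_mem h (starProjection_mem_cptIdeal _)
  have e : star F * F + F.ker.starProjection = 1 - ((1 - star F * F) - F.ker.starProjection) := by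
    abel
  rw [e]
  apply isUnit_of_cpt hK
  intro x hx
  rw [← e] at hx
  have h1 : inner ℂ x ((star F * F + F.ker.starProjection) x) = 0 := by rw [hx, inner_zero_right]
  have h2 : inner ℂ x (F.ker.starProjection x) =
      inner ℂ (F.ker.starProjection x) (F.ker.starProjection x) := by
    rw [Submodule.inner_starProjection_left_eq_right]
    rw [Submodule.starProjection_eq_self_iff.2 (Submodule.starProjection_apply_mem _ _)]
  rw [add_apply, inner_add_right, mul_apply_eq_comp, inner_star_right, h2, inner_self_eq_norm_sq_to_K,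
    inner_self_eq_norm_sq_to_K] at h1
  have h3 : ‖F x‖ ^ 2 + ‖F.ker.starProjection x‖ ^ 2 = 0 := by
    have h1' : ((‖F x‖ ^ 2 + ‖F.ker.starProjection x‖ ^ 2 : ℝ) : ℂ) = 0 := by
      push_cast; exact h1
    exact Complex.ofReal_eq_zero.1 h1'
  have h4 : F x = 0 := by
    have : ‖F x‖ ^ 2 = 0 := by nlinarith [sq_nonneg ‖F x‖, sq_nonneg ‖F.ker.starProjection x‖]
    simpa using this
  have h5 : F.ker.starProjection x = 0 := by
    have : ‖F.ker.starProjection x‖ ^ 2 = 0 := by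
      nlinarith [sq_nonneg ‖F x‖, sq_nonneg ‖F.ker.starProjection x‖]
    simpa using this
  rw [← h5, eq_comm, Submodule.starProjection_eq_self_iff]
  exact h4

lemma finrank_ker_star {Θ : H ≃ₗᵢ⋆[ℂ] H} {F : H →L[ℂ] H} (h : cj Θ F = star F) :
    finrank ℂ (star F).ker = finrank ℂ F.ker := by
  let j : F.ker ≃+ (star F).ker :=
    { toFun := fun x => ⟨Θ x, by
        have hx : F x = 0 := x.2
        change (star F) (Θ x) = 0
        rw [star_apply_anti h, hx, map_zero]⟩
      invFun := fun y => ⟨Θ.symm y, by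
        have hy : (star F) y = 0 := y.2
        change F (Θ.symm y) = 0
        apply Θ.injective
        rw [← star_apply_anti h, Θ.apply_symm_apply, hy, map_zero]⟩
      left_inv := fun x => by simp
      right_inv := fun x => by simp
      map_add' := fun x y => by ext; simp }
  have := rank_eq_of_equiv_equiv (R := ℂ) (R' := ℂ) (fun c : ℂ => conj c) j
    (star_involutive (R := ℂ)).bijective (fun c x => by
      ext; simp [j, map_smulₛₗ])
  unfold finrank
  rw [this]

lemma ind2_star {Θ : H ≃ₗᵢ⋆[ℂ] H} {F : H →L[ℂ] H} (h : cj Θ F = star F) :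
    ind2 (star F) = ind2 F := by
  unfold ind2
  rw [finrank_ker_star h]

lemma parity_of_compl {Θ : H ≃ₗᵢ⋆[ℂ] H} (hΘ : ∀ x, Θ (Θ x) = -x) {G : H →L[ℂ] H}
    (h : cj Θ G = star G) (M L : Submodule ℂ H) [FiniteDimensional ℂ L]
    (hML : ∀ m ∈ M, ∀ y ∈ L, inner ℂ (Θ m) (G y) = 0) (hker : G.ker ≤ L) (hsup : M ⊔ L = ⊤) :
    (finrank ℂ G.ker : ZMod 2) = finrank ℂ L := by
  let K : Submodule ℂ L := G.ker.comap L.subtype
  obtain ⟨L', hc⟩ := K.exists_isCompl
  let B : LinearMap.BilinForm ℂ L' := LinearMap.mk₂ ℂ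
    (fun x y => inner ℂ (Θ ((x : L) : H)) (G ((y : L) : H)))
    (fun x y z => by simp)
    (fun c x y => by simp [map_smulₛₗ, mul_comm])
    (fun x y z => by simp)
    (fun c x y => by simp)
  have hev : Even (finrank ℂ L') := by
    apply even_of_skew B (fun x y => skew_of_odd hΘ h _ _)
    intro y hy
    have h1 : ∀ x : L, inner ℂ (Θ (x : H)) (G ((y : L) : H)) = 0 := by
      intro x
      have hx : x ∈ K ⊔ L' := by rw [hc.sup_eq_top]; trivial
      obtain ⟨k, hk, l, hl, rfl⟩ := Submodule.mem_sup.1 hx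
      have hk' : G (k : H) = 0 := hk
      have h2 := hy ⟨l, hl⟩
      simp only [B, LinearMap.mk₂_apply] at h2
      rw [Submodule.coe_add, map_add, inner_add_left, h2, skew_of_odd hΘ h, hk']
      simp
    have h2 : ∀ x : H, inner ℂ (Θ x) (G ((y : L) : H)) = 0 := by
      intro x
      have hx : x ∈ M ⊔ L := by rw [hsup]; trivial
      obtain ⟨m, hm, l, hl, rfl⟩ := Submodule.mem_sup.1 hx
      rw [map_add, inner_add_left, hML m hm _ (y : L).2, h1 ⟨l, hl⟩, add_zero]
    have h3 : G ((y : L) : H) = 0 := by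
      have := h2 (Θ.symm (G ((y : L) : H)))
      rwa [Θ.apply_symm_apply, inner_self_eq_zero] at this
    have h4 : (y : L) ∈ K ⊓ L' := ⟨h3, y.2⟩
    rw [hc.inf_eq_bot] at h4
    exact Subtype.ext h4
  have h1 := Submodule.finrank_add_eq_of_isCompl hc
  have h2 : finrank ℂ K = finrank ℂ G.ker := (Submodule.comapSubtypeEquivOfLe hker).finrank_eq
  rw [← h1, h2, Nat.cast_add, (ZMod.natCast_eq_zero_iff_even).2 hev, add_zero]

lemma inner_apply_eq_zero_of_mem_ker_star {F : H →L[ℂ] H} {z : H} (hz : z ∈ (star F).ker)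
    (x : H) : inner ℂ (F x) z = 0 := by
  have hz' : (star F) z = 0 := hz
  rw [← inner_star_right, hz', inner_zero_right]

lemma exists_bound_orth {F : H →L[ℂ] H} (h : 1 - star F * F ∈ cptIdeal H) :
    ∃ c > 0, ∀ x ∈ F.kerᗮ, c * ‖x‖ ≤ ‖F x‖ := by
  have := finiteDimensional_ker h
  obtain ⟨u, hu⟩ := isUnit_gram h
  refine ⟨(‖(↑u⁻¹ : H →L[ℂ] H)‖ * ‖star F‖ + 1)⁻¹, by positivity, fun x hx => ?_⟩
  have h0 : F.ker.starProjection x = 0 := (Submodule.starProjection_apply_eq_zero_iff _).2 hx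
  have h1 : x = (↑u⁻¹ : H →L[ℂ] H) ((star F) (F x)) := by
    have : (↑u⁻¹ * (u : H →L[ℂ] H)) x = x := by simp
    rw [hu, mul_apply_eq_comp, add_apply, h0, add_zero] at this
    exact this.symm
  have h2 : ‖x‖ ≤ (‖(↑u⁻¹ : H →L[ℂ] H)‖ * ‖star F‖ + 1) * ‖F x‖ := by
    calc ‖x‖ = ‖(↑u⁻¹ : H →L[ℂ] H) ((star F) (F x))‖ := by rw [← h1]
      _ ≤ ‖(↑u⁻¹ : H →L[ℂ] H)‖ * (‖star F‖ * ‖F x‖) :=
        (le_opNorm _ _).trans (mul_le_mul_of_nonneg_left (le_opNorm _ _) (norm_nonneg _))
      _ ≤ _ := by nlinarith [norm_nonneg (F x)]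
  rw [inv_mul_le_iff₀ (by positivity)]
  exact h2

/-- Local constancy of the index. -/
lemma eventually_ind2_eq {Θ : H ≃ₗᵢ⋆[ℂ] H} (hΘ : ∀ x, Θ (Θ x) = -x) {F : H →L[ℂ] H}
    (hF : Adm Θ F) : ∀ᶠ G in nhds F, cj Θ G = star G → ind2 G = ind2 F := by
  have := finiteDimensional_ker hF.cpt
  have := finiteDimensional_ker hF.star.cpt
  set N := F.ker with hN
  set N' := (star F).ker with hN'
  have hdim : finrank ℂ N' = finrank ℂ N := finrank_ker_star hF.odd
  let e : N ≃L[ℂ] N' := (LinearEquiv.ofFinrankEq _ _ hdim.symm).toContinuousLinearEquiv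
  let J : H →L[ℂ] H := N'.subtypeL ∘L (e : N →L[ℂ] N') ∘L N.orthogonalProjectionOnto
  have hJ : ∀ x, J x ∈ N' := fun x => (e _).2
  have hunit : IsUnit (F + J) := by
    rw [ContinuousLinearMap.isUnit_iff_bijective]
    constructor
    · rw [injective_iff_map_eq_zero]
      intro x hx
      rw [add_apply] at hx
      have h1 : F x = 0 := by
        have h2 : F x = - J x := eq_neg_of_add_eq_zero_left hx
        have h3 := inner_apply_eq_zero_of_mem_ker_star (N'.neg_mem (hJ x)) x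
        rwa [← h2, inner_self_eq_zero] at h3
      have h2 : J x = 0 := by simpa [h1] using hx
      have h3 : e (N.orthogonalProjectionOnto x) = 0 := Subtype.ext h2
      have h4 : N.orthogonalProjectionOnto x = 0 := by simpa using h3
      have h5 : N.starProjection x = 0 := by
        rw [Submodule.starProjection_apply, h4]; rfl
      rw [← h5, eq_comm, Submodule.starProjection_eq_self_iff]
      exact h1
    · intro y
      obtain ⟨z, hz⟩ := (ContinuousLinearMap.isUnit_iff_bijective.1 (isUnit_gram hF.star.cpt)).2 y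
      rw [star_star, add_apply, mul_apply_eq_comp] at hz
      let n : N := e.symm (N'.orthogonalProjectionOnto z)
      have hn : F n = 0 := n.2
      have h1 : (star F) z ∈ Nᗮ := by
        rw [Submodule.mem_orthogonal]
        intro u hu
        have hu' : F u = 0 := hu
        rw [inner_star_right, hu', inner_zero_left]
      have h2 : N.orthogonalProjectionOnto ((star F) z) = 0 :=
        Submodule.orthogonalProjectionOnto_apply_of_mem_orthogonal h1
      refine ⟨(star F) z + n, ?_⟩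
      rw [← hz, add_apply, map_add, hn, add_zero]
      congr 1
      simp [J, h2, n]
      rfl
  obtain ⟨c, hc, hcF⟩ := exists_bound_orth hF.cpt
  have ev1 : ∀ᶠ G in nhds F, IsUnit (G + J) := by
    have : ContinuousAt (fun G : H →L[ℂ] H => G + J) F := by fun_prop
    exact this.eventually (Units.isOpen.mem_nhds hunit)
  have ev2 : ∀ᶠ G in nhds F, ‖G - F‖ < c := by
    filter_upwards [Metric.ball_mem_nhds F hc] with G hG
    rwa [Metric.mem_ball, dist_eq_norm] at hG
  filter_upwards [ev1, ev2] with G hG1 hG2 hG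
  let T : H ≃ₗ[ℂ] H := LinearEquiv.ofBijective ((G + J : H →L[ℂ] H) : H →ₗ[ℂ] H)
    (ContinuousLinearMap.isUnit_iff_bijective.1 hG1)
  let L : Submodule ℂ H := N'.map (T.symm : H →ₗ[ℂ] H)
  have hLdim : finrank ℂ L = finrank ℂ N' := LinearEquiv.finrank_map_eq T.symm N'
  have hL : ∀ y, y ∈ L ↔ G y ∈ N' := by
    intro y
    have h1 : y ∈ L ↔ T y ∈ N' := by
      simp only [L, Submodule.mem_map_equiv, LinearEquiv.symm_symm]
    have h2 : T y = G y + J y := rfl
    rw [h1, h2]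
    exact N'.add_mem_iff_left (hJ y)
  have hLM : ∀ x ∈ L, x ∈ Nᗮ → x = 0 := by
    intro x hx hx'
    have h1 := inner_apply_eq_zero_of_mem_ker_star ((hL x).1 hx) x
    have h2 : ‖F x‖ ^ 2 ≤ ‖F x‖ * (‖G - F‖ * ‖x‖) := by
      have h3 : inner ℂ (F x) ((G - F) x) = - inner ℂ (F x) (F x) := by
        rw [sub_apply, inner_sub_right, h1, zero_sub]
      have h4 := norm_inner_le_norm (𝕜 := ℂ) (F x) ((G - F) x)
      rw [h3, norm_neg, inner_self_eq_norm_sq_to_K] at h4
      have h5 : ‖F x‖ ^ 2 ≤ ‖F x‖ * ‖(G - F) x‖ := by simpa using h4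
      exact h5.trans (mul_le_mul_of_nonneg_left (le_opNorm _ _) (norm_nonneg _))
    have h3 := hcF x hx'
    by_contra hx0
    have hxp : 0 < ‖x‖ := norm_pos_iff.2 hx0
    have h4 : 0 < ‖F x‖ := lt_of_lt_of_le (mul_pos hc hxp) h3
    have h5 : ‖F x‖ ≤ ‖G - F‖ * ‖x‖ := by nlinarith
    nlinarith
  have hsup : Nᗮ ⊔ L = ⊤ := by
    let p : L →ₗ[ℂ] N := (N.orthogonalProjectionOnto : H →ₗ[ℂ] N) ∘ₗ L.subtype
    have hinj : Function.Injective p := by
      rw [injective_iff_map_eq_zero]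
      intro x hx
      exact Subtype.ext (hLM x x.2 (Submodule.orthogonalProjectionOnto_eq_zero_iff.1 hx))
    have hsurj : Function.Surjective p :=
      (LinearMap.injective_iff_surjective_of_finrank_eq_finrank (hLdim.trans hdim)).1 hinj
    rw [eq_top_iff]
    intro x _
    obtain ⟨l, hl⟩ := hsurj (N.orthogonalProjectionOnto x)
    refine Submodule.mem_sup.2 ⟨x - l, ?_, l, l.2, by abel⟩
    rw [← Submodule.orthogonalProjectionOnto_eq_zero_iff, map_sub, ← hl]
    exact sub_self _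
  have := parity_of_compl hΘ hG Nᗮ L (fun m hm y hy => by
      have h1 : (star F) (G y) = 0 := (hL y).1 hy
      have h2 : Θ.symm (G y) ∈ N := by
        change F (Θ.symm (G y)) = 0
        apply Θ.injective
        rw [← star_apply_anti hF.odd, Θ.apply_symm_apply, h1, map_zero]
      rw [inner_anti_left]
      exact (Submodule.mem_orthogonal _ _).1 hm _ h2)
    (fun y hy => (hL y).2 (by
      have hy' : G y = 0 := hy
      rw [hy']; exact N'.zero_mem)) hsup
  unfold ind2
  rw [this, hLdim, hdim]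

/-- Homotopy invariance. -/
lemma ind2_eq_of_path {Θ : H ≃ₗᵢ⋆[ℂ] H} (hΘ : ∀ x, Θ (Θ x) = -x) (γ : ℝ → H →L[ℂ] H)
    (hγ : Continuous γ) (hadm : ∀ t ∈ Set.Icc (0 : ℝ) 1, Adm Θ (γ t)) :
    ind2 (γ 0) = ind2 (γ 1) := by
  have hlc : IsLocallyConstant (fun t : Set.Icc (0 : ℝ) 1 => ind2 (γ t)) := by
    rw [IsLocallyConstant.iff_eventually_eq]
    intro t
    have h1 : ContinuousAt (fun s : Set.Icc (0 : ℝ) 1 => γ s) t :=
      (hγ.comp continuous_subtype_val).continuousAt
    filter_upwards [h1.eventually (eventually_ind2_eq hΘ (hadm t t.2))] with s hs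
    exact hs (hadm s s.2).odd
  exact hlc.apply_eq_of_preconnectedSpace ⟨0, by simp⟩ ⟨1, by simp⟩

/-- Invariance under compact perturbations. -/
lemma ind2_eq_of_sub_mem {Θ : H ≃ₗᵢ⋆[ℂ] H} (hΘ : ∀ x, Θ (Θ x) = -x) {F G : H →L[ℂ] H}
    (hF : Adm Θ F) (hG : cj Θ G = star G) (h : G - F ∈ cptIdeal H) : ind2 G = ind2 F := by
  have := ind2_eq_of_path hΘ (fun t : ℝ => F + (t : ℂ) • (G - F)) (by fun_prop) (fun t _ => ⟨by
      rw [cj_add, cj_smul, cj_sub, hF.odd, hG, star_add, star_smul, star_sub]; rfl, by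
      have hK := smul_mem_cptIdeal (t : ℂ) h
      set K := (t : ℂ) • (G - F)
      have e : 1 - star (F + K) * (F + K) =
          (1 - star F * F) - star F * K - star K * (F + K) := by
        rw [star_add]; noncomm_ring
      rw [e]
      exact (cptIdeal H).sub_mem ((cptIdeal H).sub_mem hF.cpt ((cptIdeal H).mul_mem_left _ _ hK))
        ((cptIdeal H).mul_mem_right _ _ (star_mem_cptIdeal hK))⟩)
  simpa using this.symm

omit [CompleteSpace H] in
/-- Additivity for block operators. -/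
lemma ind2_block {Q S T : H →L[ℂ] H} (hQ : Q * Q = Q) (hS1 : Q * S = S) (hS2 : S * Q = S)
    (hT1 : Q * T = 0) (hT2 : T * Q = 0) [FiniteDimensional ℂ (1 + S).ker]
    [FiniteDimensional ℂ (1 + T).ker] :
    ind2 (1 + S + T) = ind2 (1 + S) + ind2 (1 + T) := by
  have aQ : ∀ x, Q (Q x) = Q x := fun x => congr($hQ x)
  have aS1 : ∀ x, Q (S x) = S x := fun x => congr($hS1 x)
  have aS2 : ∀ x, S (Q x) = S x := fun x => congr($hS2 x)
  have aT1 : ∀ x, Q (T x) = 0 := fun x => congr($hT1 x)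
  have aT2 : ∀ x, T (Q x) = 0 := fun x => congr($hT2 x)
  have m1 : ∀ x, x ∈ (1 + S).ker ↔ x + S x = 0 := fun x => Iff.rfl
  have m2 : ∀ x, x ∈ (1 + T).ker ↔ x + T x = 0 := fun x => Iff.rfl
  have m3 : ∀ x, x ∈ (1 + S + T).ker ↔ x + S x + T x = 0 := fun x => Iff.rfl
  have q1 : ∀ x, x + S x = 0 → Q x = x := by
    intro x hx
    have : x = - S x := eq_neg_of_add_eq_zero_left hx
    rw [this, map_neg, aS1]
  have q2 : ∀ x, x + T x = 0 → Q x = 0 := by
    intro x hx
    have : x = - T x := eq_neg_of_add_eq_zero_left hx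
    rw [this, map_neg, aT1, neg_zero]
  have hinf : (1 + S).ker ⊓ (1 + T).ker = ⊥ := by
    rw [eq_bot_iff]
    rintro x ⟨h1, h2⟩
    rw [Submodule.mem_bot, ← q1 x h1, q2 x h2]
  have hsup : (1 + S).ker ⊔ (1 + T).ker = (1 + S + T).ker := by
    apply le_antisymm
    · apply sup_le
      · intro x hx
        rw [m1] at hx
        rw [m3, hx, ← q1 x hx, aT2, add_zero]
      · intro x hx
        rw [m2] at hx
        rw [m3, ← aS2, q2 x hx, map_zero, add_zero, hx]
    · intro x hx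
      rw [m3] at hx
      have h1 : Q x + S x = 0 := by
        have := congrArg Q hx
        rwa [map_add, map_add, aS1, aT1, add_zero, map_zero] at this
      refine Submodule.mem_sup.2 ⟨Q x, ?_, x - Q x, ?_, by abel⟩
      · rw [m1, aS2, h1]
      · rw [m2, map_sub, aT2, sub_zero]
        have : x - Q x + T x = (x + S x + T x) - (Q x + S x) := by abel
        rw [this, hx, h1, sub_zero]
  have := Submodule.finrank_sup_add_finrank_inf_eq (1 + S).ker (1 + T).ker
  rw [hinf, hsup, finrank_bot, add_zero] at this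
  unfold ind2
  rw [this, Nat.cast_add]

end Pool.Agent.MP_120ee9_mp

end
end

-- part MP_120ee9_mp.Nuclear
section

/-! Nuclear (trace class) operators and the trace. -/

noncomputable section

namespace Pool.Agent.MP_120ee9_mp

open ContinuousLinearMap InnerProductSpace

variable {H : Type*} [NormedAddCommGroup H] [InnerProductSpace ℂ H]

/-- `T = ∑ |a k⟩⟨b k|` with `∑ ‖a k‖ ‖b k‖ < ∞` and `τ = ∑ ⟨b k, a k⟩`. -/
def HasTrace (T : H →L[ℂ] H) (τ : ℂ) : Prop :=
  ∃ (ι : Type) (_ : Countable ι) (a b : ι → H), Summable (fun k => ‖a k‖ * ‖b k‖) ∧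
    HasSum (fun k => rankOne ℂ (a k) (b k)) T ∧ HasSum (fun k => inner ℂ (b k) (a k)) τ

/-- nuclear operators -/
def Nuclear (T : H →L[ℂ] H) : Prop := ∃ τ, HasTrace T τ

lemma summable_inner_of {ι : Type*} {a b : ι → H} (h : Summable (fun k => ‖a k‖ * ‖b k‖)) :
    Summable (fun k => inner ℂ (b k) (a k)) :=
  Summable.of_norm_bounded h fun k => by
    rw [mul_comm]; exact norm_inner_le_norm _ _

lemma nuclear_of_hasSum {ι : Type} [Countable ι] {a b : ι → H} {T : H →L[ℂ] H}
    (h : Summable (fun k => ‖a k‖ * ‖b k‖)) (hT : HasSum (fun k => rankOne ℂ (a k) (b k)) T) :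
    Nuclear T :=
  ⟨_, ι, inferInstance, a, b, h, hT, (summable_inner_of h).hasSum⟩

lemma HasTrace.hasSum_basis {T : H →L[ℂ] H} {τ : ℂ} (h : HasTrace T τ) {w : Type*}
    (e : HilbertBasis w ℂ H) : HasSum (fun i => inner ℂ (e i) (T (e i))) τ := by
  obtain ⟨ι, _, a, b, hs, hT, hτ⟩ := h
  let f : ι × w → ℂ := fun p => inner ℂ (b p.1) (e p.2) * inner ℂ (e p.2) (a p.1)
  have key : ∀ k, Summable (fun i => ‖f (k, i)‖) ∧ ∑' i, ‖f (k, i)‖ ≤ ‖a k‖ * ‖b k‖ := by
    intro k
    have h1 := lp.tsum_mul_le_mul_norm (p := 2) (q := 2)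
      (by simpa using Real.HolderConjugate.two_two) (e.repr (a k)) (e.repr (b k))
    have e1 : (fun i => ‖f (k, i)‖) = fun i => ‖e.repr (a k) i‖ * ‖e.repr (b k) i‖ := by
      ext i
      simp only [f, norm_mul, e.repr_apply_apply]
      rw [norm_inner_symm (b k), mul_comm]
    rw [e1]
    simpa using h1
  have hf : Summable f := by
    apply Summable.of_norm
    rw [summable_prod_of_nonneg (fun _ => norm_nonneg _)]
    exact ⟨fun k => (key k).1, Summable.of_nonneg_of_le
      (fun k => tsum_nonneg fun _ => norm_nonneg _) (fun k => (key k).2) hs⟩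
  have h1 : HasSum (fun k => inner ℂ (b k) (a k)) (∑' p, f p) :=
    hf.hasSum.prod_fiberwise fun k => e.hasSum_inner_mul_inner (b k) (a k)
  have h2 : HasSum (fun p : w × ι => f p.swap) (∑' p, f p) :=
    (Equiv.prodComm w ι).hasSum_iff.2 hf.hasSum
  rw [hτ.unique h1]
  refine h2.prod_fiberwise fun i => ?_
  let L : (H →L[ℂ] H) →L[ℂ] ℂ := (innerSL ℂ (e i)).comp (ContinuousLinearMap.apply ℂ H (e i))
  have := L.hasSum hT
  simpa [L, f, inner_smul_right] using this

lemma HasTrace.add {S T : H →L[ℂ] H} {σ τ : ℂ} (hS : HasTrace S σ) (hT : HasTrace T τ) :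
    HasTrace (S + T) (σ + τ) := by
  obtain ⟨ι, _, a, b, h1, h2, h3⟩ := hS
  obtain ⟨ι', _, a', b', h1', h2', h3'⟩ := hT
  refine ⟨ι ⊕ ι', inferInstance, Sum.elim a a', Sum.elim b b', ?_, ?_, ?_⟩
  · exact (HasSum.sum (f := fun k => ‖Sum.elim a a' k‖ * ‖Sum.elim b b' k‖)
      h1.hasSum h1'.hasSum).summable
  · exact HasSum.sum h2 h2'
  · exact HasSum.sum h3 h3'

lemma HasTrace.smul {T : H →L[ℂ] H} {τ : ℂ} (hT : HasTrace T τ) (c : ℂ) :
    HasTrace (c • T) (c * τ) := by
  obtain ⟨ι, _, a, b, h1, h2, h3⟩ := hT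
  refine ⟨ι, inferInstance, fun k => c • a k, b, ?_, ?_, ?_⟩
  · simpa [norm_smul, mul_assoc] using h1.mul_left ‖c‖
  · simpa using h2.const_smul c
  · simpa [inner_smul_right] using h3.mul_left c

lemma hasTrace_rankOne (a b : H) : HasTrace (rankOne ℂ a b) (inner ℂ b a) :=
  ⟨Unit, inferInstance, fun _ => a, fun _ => b, Summable.of_finite, by simp,
    by simp⟩

variable [CompleteSpace H]

lemma HasTrace.unique {T : H →L[ℂ] H} {σ τ : ℂ} (h1 : HasTrace T σ) (h2 : HasTrace T τ) :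
    σ = τ := by
  obtain ⟨w, e, -⟩ := exists_hilbertBasis ℂ H
  exact (h1.hasSum_basis e).unique (h2.hasSum_basis e)

omit [CompleteSpace H] in
lemma mul_rankOne (B : H →L[ℂ] H) (a b : H) : B * rankOne ℂ a b = rankOne ℂ (B a) b :=
  comp_rankOne _ _ _

lemma rankOne_mul (B : H →L[ℂ] H) (a b : H) : rankOne ℂ a b * B = rankOne ℂ a ((star B) b) :=
  rankOne_comp _ _ _

lemma star_rankOne (a b : H) : star (rankOne ℂ a b : H →L[ℂ] H) = rankOne ℂ b a := by
  rw [star_eq_adjoint, adjoint_rankOne]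

lemma Nuclear.cyc {T : H →L[ℂ] H} (hT : Nuclear T) (B : H →L[ℂ] H) :
    ∃ τ, HasTrace (B * T) τ ∧ HasTrace (T * B) τ := by
  obtain ⟨_, ι, _, a, b, h1, h2, -⟩ := hT
  have s1 : Summable fun k => ‖B (a k)‖ * ‖b k‖ :=
    Summable.of_nonneg_of_le (fun _ => by positivity)
      (fun k => by
        rw [← mul_assoc]
        exact mul_le_mul_of_nonneg_right (B.le_opNorm _) (norm_nonneg _)) (h1.mul_left ‖B‖)
  have s2 : Summable fun k => ‖a k‖ * ‖(star B) (b k)‖ :=
    Summable.of_nonneg_of_le (fun _ => by positivity)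
      (fun k => by
        rw [mul_left_comm]
        exact mul_le_mul_of_nonneg_left ((star B).le_opNorm _) (norm_nonneg _))
      (h1.mul_left ‖star B‖)
  refine ⟨∑' k, inner ℂ (b k) (B (a k)), ⟨ι, inferInstance, fun k => B (a k), b, s1, ?_,
    (summable_inner_of s1).hasSum⟩, ⟨ι, inferInstance, a, fun k => (star B) (b k), s2, ?_, ?_⟩⟩
  · simpa only [mul_rankOne] using h2.mul_left B
  · simpa only [rankOne_mul] using h2.mul_right B
  · simpa only [inner_star_left] using (summable_inner_of s1).hasSum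

lemma Nuclear.mul_left {T : H →L[ℂ] H} (hT : Nuclear T) (B : H →L[ℂ] H) : Nuclear (B * T) :=
  let ⟨τ, h, _⟩ := hT.cyc B; ⟨τ, h⟩

lemma Nuclear.mul_right {T : H →L[ℂ] H} (hT : Nuclear T) (B : H →L[ℂ] H) : Nuclear (T * B) :=
  let ⟨τ, _, h⟩ := hT.cyc B; ⟨τ, h⟩

omit [CompleteSpace H] in
lemma Nuclear.add {S T : H →L[ℂ] H} (hS : Nuclear S) (hT : Nuclear T) : Nuclear (S + T) :=
  let ⟨_, h⟩ := hS; let ⟨_, h'⟩ := hT; ⟨_, h.add h'⟩

omit [CompleteSpace H] in
lemma Nuclear.smul {T : H →L[ℂ] H} (hT : Nuclear T) (c : ℂ) : Nuclear (c • T) :=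
  let ⟨_, h⟩ := hT; ⟨_, h.smul c⟩

omit [CompleteSpace H] in
lemma Nuclear.neg {T : H →L[ℂ] H} (hT : Nuclear T) : Nuclear (-T) := by
  simpa using hT.smul (-1)

omit [CompleteSpace H] in
lemma Nuclear.sub {S T : H →L[ℂ] H} (hS : Nuclear S) (hT : Nuclear T) : Nuclear (S - T) := by
  rw [sub_eq_add_neg]; exact hS.add hT.neg

omit [CompleteSpace H] in
lemma nuclear_rankOne (a b : H) : Nuclear (rankOne ℂ a b) := ⟨_, hasTrace_rankOne a b⟩

omit [CompleteSpace H] in
lemma nuclear_zero : Nuclear (0 : H →L[ℂ] H) := by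
  simpa using nuclear_rankOne (0 : H) (0 : H)

omit [CompleteSpace H] in
lemma nuclear_sum {κ : Type*} (s : Finset κ) (f : κ → H →L[ℂ] H) (h : ∀ k ∈ s, Nuclear (f k)) :
    Nuclear (∑ k ∈ s, f k) :=
  Finset.sum_induction f Nuclear (fun _ _ => Nuclear.add) nuclear_zero h

lemma Nuclear.star {T : H →L[ℂ] H} (hT : Nuclear T) : Nuclear (star T) := by
  obtain ⟨_, ι, _, a, b, h1, h2, -⟩ := hT
  refine nuclear_of_hasSum (a := b) (b := a) (by simpa only [mul_comm] using h1) ?_
  simpa only [star_rankOne] using h2.star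

lemma Nuclear.mem_cptIdeal {T : H →L[ℂ] H} (hT : Nuclear T) : T ∈ cptIdeal H := by
  obtain ⟨_, ι, _, a, b, -, h2, -⟩ := hT
  refine isClosed_cptIdeal.mem_of_tendsto h2 (Filter.Eventually.of_forall fun s => ?_)
  exact sum_mem fun k _ => rankOne_mem_cptIdeal _ _

open Classical in
/-- the trace of a nuclear operator -/
def tr (T : H →L[ℂ] H) : ℂ := if h : Nuclear T then h.choose else 0

omit [CompleteSpace H] in
lemma Nuclear.hasTrace {T : H →L[ℂ] H} (hT : Nuclear T) : HasTrace T (tr T) := by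
  rw [tr, dif_pos hT]; exact hT.choose_spec

lemma HasTrace.tr_eq {T : H →L[ℂ] H} {τ : ℂ} (h : HasTrace T τ) : tr T = τ :=
  (Nuclear.hasTrace ⟨τ, h⟩).unique h

lemma tr_add {S T : H →L[ℂ] H} (hS : Nuclear S) (hT : Nuclear T) : tr (S + T) = tr S + tr T :=
  (hS.hasTrace.add hT.hasTrace).tr_eq

lemma tr_smul {T : H →L[ℂ] H} (hT : Nuclear T) (c : ℂ) : tr (c • T) = c * tr T :=
  (hT.hasTrace.smul c).tr_eq

lemma tr_neg {T : H →L[ℂ] H} (hT : Nuclear T) : tr (-T) = - tr T := by
  simpa using tr_smul hT (-1)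

lemma tr_sub {S T : H →L[ℂ] H} (hS : Nuclear S) (hT : Nuclear T) : tr (S - T) = tr S - tr T := by
  rw [sub_eq_add_neg, tr_add hS hT.neg, tr_neg hT, sub_eq_add_neg]

lemma tr_comm {T : H →L[ℂ] H} (hT : Nuclear T) (B : H →L[ℂ] H) : tr (B * T) = tr (T * B) := by
  obtain ⟨τ, h1, h2⟩ := hT.cyc B
  rw [h1.tr_eq, h2.tr_eq]

lemma tr_rankOne (a b : H) : tr (rankOne ℂ a b) = inner ℂ b a := (hasTrace_rankOne a b).tr_eq

lemma tr_zero : tr (0 : H →L[ℂ] H) = 0 := by simpa using tr_rankOne (0 : H) (0 : H)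

lemma tr_sum {κ : Type*} (s : Finset κ) (f : κ → H →L[ℂ] H) (h : ∀ k ∈ s, Nuclear (f k)) :
    tr (∑ k ∈ s, f k) = ∑ k ∈ s, tr (f k) := by
  classical
  induction s using Finset.induction_on with
  | empty => simpa using tr_zero
  | insert a s ha ih =>
    rw [Finset.sum_insert ha, Finset.sum_insert ha,
      tr_add (h a (Finset.mem_insert_self _ _))
        (nuclear_sum _ _ fun k hk => h k (Finset.mem_insert_of_mem hk)),
      ih fun k hk => h k (Finset.mem_insert_of_mem hk)]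

/-- the commutator with an idempotent has trace zero -/
lemma tr_commutator {L B : H →L[ℂ] H} (hL : L * L = L) (h : Nuclear (L * B - B * L)) :
    tr (L * B - B * L) = 0 := by
  set C := L * B - B * L with hC
  have e : C = L * (C * (1 - L)) + (1 - L) * (C * L) := by
    have h1 : L * (C * (1 - L)) + (1 - L) * (C * L) = L * C + C * L - 2 * (L * C * L) := by
      noncomm_ring
    have h2 : L * C * L = 0 := by
      rw [hC, mul_sub, sub_mul, ← mul_assoc, hL, mul_assoc L (B * L), mul_assoc B, hL, ← mul_assoc,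
        sub_self]
    have h3 : L * C + C * L = C := by
      rw [hC, mul_sub, sub_mul, ← mul_assoc, hL, mul_assoc B, hL, ← mul_assoc]; abel
    rw [h1, h2, h3]; simp
  have h4 : (1 - L) * L = 0 := by rw [sub_mul, hL, one_mul, sub_self]
  have h5 : L * (1 - L) = 0 := by rw [mul_sub, hL, mul_one, sub_self]
  rw [e, tr_add ((h.mul_right _).mul_left _) ((h.mul_right _).mul_left _),
    tr_comm (h.mul_right _), tr_comm (h.mul_right _), mul_assoc, mul_assoc, h4, h5]
  simp [tr_zero]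

lemma tr_mul_eq_tsum {ι : Type} [Countable ι] {a b : ι → H} {T : H →L[ℂ] H}
    (h : Summable (fun k => ‖a k‖ * ‖b k‖)) (hT : HasSum (fun k => rankOne ℂ (a k) (b k)) T)
    (B : H →L[ℂ] H) : tr (B * T) = ∑' k, inner ℂ (b k) (B (a k)) := by
  have s1 : Summable fun k => ‖B (a k)‖ * ‖b k‖ :=
    Summable.of_nonneg_of_le (fun _ => by positivity)
      (fun k => by
        rw [← mul_assoc]
        exact mul_le_mul_of_nonneg_right (B.le_opNorm _) (norm_nonneg _)) (h.mul_left ‖B‖)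
  refine HasTrace.tr_eq ⟨ι, inferInstance, fun k => B (a k), b, s1, ?_,
    (summable_inner_of s1).hasSum⟩
  simpa only [mul_rankOne] using hT.mul_left B

omit [CompleteSpace H] in
lemma nuclear_starProjection (N : Submodule ℂ H) [FiniteDimensional ℂ N] :
    Nuclear N.starProjection := by
  let e := stdOrthonormalBasis ℂ N
  have : N.starProjection = ∑ i, rankOne ℂ (e i : H) (e i : H) :=
    e.starProjection_eq_sum_rankOne
  rw [this]
  exact nuclear_sum _ _ fun _ _ => nuclear_rankOne _ _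

end Pool.Agent.MP_120ee9_mp

end
end

-- part MP_120ee9_mp.Approx
section

/-! Closure (induction) principles for the functional calculus and the exponential. -/

noncomputable section

namespace Pool.Agent.MP_120ee9_mp

open Polynomial

variable {H : Type*} [NormedAddCommGroup H] [InnerProductSpace ℂ H] [CompleteSpace H]

lemma exists_poly_near {K : Set ℝ} (hK : IsCompact K) {f : ℝ → ℝ} (hf : ContinuousOn f K)
    {ε : ℝ} (hε : 0 < ε) : ∃ p : ℝ[X], ∀ x ∈ K, |f x - p.eval x| ≤ ε := by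
  have : CompactSpace K := isCompact_iff_compactSpace.1 hK
  let F : C(K, ℝ) := ⟨K.domRestrict f, hf.domRestrict⟩
  have h1 : F ∈ (polynomialFunctions K).topologicalClosure := by
    rw [polynomialFunctions.topologicalClosure]; trivial
  have h2 : F ∈ closure (polynomialFunctions K : Set C(K, ℝ)) := h1
  rw [Metric.mem_closure_iff] at h2
  obtain ⟨q, hq, hd⟩ := h2 ε hε
  rw [polynomialFunctions_coe] at hq
  obtain ⟨p, rfl⟩ := hq
  refine ⟨p, fun x hx => ?_⟩
  have := (ContinuousMap.dist_apply_le_dist (f := F)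
    (g := Polynomial.toContinuousMapOnAlgHom K p) ⟨x, hx⟩).trans hd.le
  rw [Real.dist_eq] at this
  exact this

lemma norm_cfc_sub_aeval_le {a : H →L[ℂ] H} (ha : IsSelfAdjoint a) {f : ℝ → ℝ}
    (hf : ContinuousOn f (spectrum ℝ a)) {ε : ℝ} (hε : 0 < ε) (p : ℝ[X])
    (hp : ∀ x ∈ spectrum ℝ a, |f x - p.eval x| ≤ ε) : ‖cfc f a - aeval a p‖ ≤ ε := by
  rw [← cfc_polynomial p a, ← cfc_sub f p.eval a]
  exact norm_cfc_le hε.le hp

lemma cfc_pair_induction {a b : H →L[ℂ] H} (ha : IsSelfAdjoint a) (hb : IsSelfAdjoint b)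
    (S : (H →L[ℂ] H) → (H →L[ℂ] H) → Prop) (hS : IsClosed {p : (H →L[ℂ] H) × (H →L[ℂ] H) | S p.1 p.2})
    (h1 : S 1 1) (hadd : ∀ x y x' y', S x y → S x' y' → S (x + x') (y + y'))
    (hsmul : ∀ (r : ℝ) x y, S x y → S ((r : ℂ) • x) ((r : ℂ) • y))
    (hmul : ∀ x y, S x y → S (a * x) (b * y)) {f : ℝ → ℝ}
    (hfa : ContinuousOn f (spectrum ℝ a)) (hfb : ContinuousOn f (spectrum ℝ b)) :
    S (cfc f a) (cfc f b) := by
  have hpow : ∀ n : ℕ, S (a ^ n) (b ^ n) := by
    intro n
    induction n with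
    | zero => simpa using h1
    | succ n ih => rw [pow_succ', pow_succ']; exact hmul _ _ ih
  have hpoly : ∀ p : ℝ[X], S (aeval a p) (aeval b p) := by
    intro p
    induction p using Polynomial.induction_on' with
    | add p q hp hq => rw [map_add, map_add]; exact hadd _ _ _ _ hp hq
    | monomial n r =>
      rw [aeval_monomial, aeval_monomial, ← Algebra.smul_def, ← Algebra.smul_def,
        ← Complex.coe_smul, ← Complex.coe_smul]
      exact hsmul r _ _ (hpow n)
  have hKa : IsCompact (spectrum ℝ a) := ContinuousFunctionalCalculus.isCompact_spectrum a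
  have hKb : IsCompact (spectrum ℝ b) := ContinuousFunctionalCalculus.isCompact_spectrum b
  have hf : ContinuousOn f (spectrum ℝ a ∪ spectrum ℝ b) :=
    hfa.union_of_isClosed hfb hKa.isClosed hKb.isClosed
  have : (cfc f a, cfc f b) ∈ closure {p : (H →L[ℂ] H) × (H →L[ℂ] H) | S p.1 p.2} := by
    rw [Metric.mem_closure_iff]
    intro ε hε
    obtain ⟨p, hp⟩ := exists_poly_near (hKa.union hKb) hf (half_pos hε)
    refine ⟨(aeval a p, aeval b p), hpoly p, ?_⟩
    rw [Prod.dist_eq, dist_eq_norm, dist_eq_norm, max_lt_iff]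
    exact ⟨(norm_cfc_sub_aeval_le ha hfa (half_pos hε) p fun x hx => hp x (Or.inl hx)).trans_lt
        (half_lt_self hε),
      (norm_cfc_sub_aeval_le hb hfb (half_pos hε) p fun x hx => hp x (Or.inr hx)).trans_lt
        (half_lt_self hε)⟩
  rwa [hS.closure_eq] at this

lemma mul_cfc_eq_cfc_mul {a b T : H →L[ℂ] H} (ha : IsSelfAdjoint a) (hb : IsSelfAdjoint b)
    (h : T * a = b * T) {f : ℝ → ℝ}
    (hfa : ContinuousOn f (spectrum ℝ a)) (hfb : ContinuousOn f (spectrum ℝ b)) :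
    T * cfc f a = cfc f b * T := by
  refine cfc_pair_induction ha hb (fun x y => T * x = y * T)
    (isClosed_eq (by fun_prop) (by fun_prop)) (by simp) ?_ ?_ ?_ hfa hfb
  · intro x y x' y' h1 h2; rw [mul_add, add_mul, h1, h2]
  · intro r x y h1; rw [mul_smul_comm, smul_mul_assoc, h1]
  · intro x y h1; rw [← mul_assoc, h, mul_assoc, h1, mul_assoc]

lemma mul_cfc_eq_self {a T : H →L[ℂ] H} (ha : IsSelfAdjoint a) (h : T * a = T) {f : ℝ → ℝ}
    (hfa : ContinuousOn f (spectrum ℝ a)) (hf1 : f 1 = 1) : T * cfc f a = T := by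
  have := mul_cfc_eq_cfc_mul (b := 1) (T := T) ha (IsSelfAdjoint.one _) (by simpa using h) hfa
    (by
      apply Set.Subsingleton.continuousOn
      have := CFC.spectrum_algebraMap_subset (A := H →L[ℂ] H) (p := IsSelfAdjoint) (1 : ℝ)
      rw [map_one] at this
      exact Set.subsingleton_singleton.anti this)
  simpa [hf1] using this

lemma exp_pair_induction {a b : H →L[ℂ] H}
    (S : (H →L[ℂ] H) → (H →L[ℂ] H) → Prop) (hS : IsClosed {p : (H →L[ℂ] H) × (H →L[ℂ] H) | S p.1 p.2})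
    (h0 : S 0 0) (hadd : ∀ x y x' y', S x y → S x' y' → S (x + x') (y + y'))
    (hsmul : ∀ (r : ℂ) x y, S x y → S (r • x) (r • y))
    (hpow : ∀ n : ℕ, S (a ^ n) (b ^ n)) : S (NormedSpace.exp a) (NormedSpace.exp b) := by
  have h1 := (NormedSpace.exp_series_hasSum_exp' (𝕂 := ℂ) a).prodMk
    (NormedSpace.exp_series_hasSum_exp' (𝕂 := ℂ) b)
  refine hS.mem_of_tendsto h1 (Filter.Eventually.of_forall fun s => ?_)
  refine Finset.sum_induction _ (fun p : (H →L[ℂ] H) × (H →L[ℂ] H) => S p.1 p.2)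
    (fun p q hp hq => hadd _ _ _ _ hp hq) h0 fun n _ => hsmul _ _ _ (hpow n)

end Pool.Agent.MP_120ee9_mp

end
end

-- part MP_120ee9_mp.Wold
section

/-! From an odd-dimensional kernel to a projection with trace-class commutator and index one. -/

noncomputable section

namespace Pool.Agent.MP_120ee9_mp

open ContinuousLinearMap InnerProductSpace Module
open scoped ComplexConjugate

variable {H : Type*} [NormedAddCommGroup H] [InnerProductSpace ℂ H] [CompleteSpace H]

lemma spectrum_pos {G : H →L[ℂ] H} (hG : 0 ≤ G) (hu : IsUnit G) :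
    ∀ t ∈ spectrum ℝ G, 0 < t := by
  intro t ht
  refine lt_of_le_of_ne (spectrum_nonneg_of_nonneg hG ht) ?_
  rintro rfl
  exact (spectrum.zero_notMem_iff ℝ).2 hu ht

/-- polar part -/
lemma exists_polar {Θ : H ≃ₗᵢ⋆[ℂ] H} {F Q : H →L[ℂ] H} (hF : cj Θ F = star F)
    (hn : Nuclear (1 - star F * F)) (hQ : cj Θ Q = Q) (hQF : Q * F = Q)
    [FiniteDimensional ℂ F.ker] :
    ∃ V : H →L[ℂ] H, cj Θ V = star V ∧ star V * V = 1 - F.ker.starProjection ∧
      Nuclear (V - F) ∧ Q * V = Q := by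
  set P := F.ker.starProjection with hP
  have hPs : star P = P := (isSelfAdjoint_starProjection _).star_eq
  have hPP : P * P = P := F.ker.isIdempotentElem_starProjection
  have hFP : F * P = 0 := by
    ext x
    exact Submodule.starProjection_apply_mem F.ker x
  have hPF : P * star F = 0 := by rw [← hPs, ← star_mul, hFP, star_zero]
  have hQF' : Q * star F = Q := by
    have := congrArg (cj Θ) hQF
    rwa [cj_mul, hQ, hF] at this
  have hQP : Q * P = 0 := by rw [← hQF, mul_assoc, hFP, mul_zero]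
  set G := star F * F + P with hG
  have hGu : IsUnit G := isUnit_gram hn.mem_cptIdeal
  have hG0 : 0 ≤ G := add_nonneg (star_mul_self_nonneg F) (by
    rw [← hPP]; nth_rewrite 1 [← hPs]; exact star_mul_self_nonneg P)
  have hGs : IsSelfAdjoint G := IsSelfAdjoint.of_nonneg hG0
  have hpos := spectrum_pos hG0 hGu
  set G' := cj Θ G with hG'
  have hG'e : G' = F * star F + cj Θ P := by
    rw [hG', hG, cj_add, cj_mul, cj_star, hF, star_star]
  have hG's : IsSelfAdjoint G' := by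
    rw [IsSelfAdjoint, hG', ← cj_star, hGs.star_eq]
  have hspec : spectrum ℝ G' ⊆ spectrum ℝ G := AlgHom.spectrum_apply_subset (cjHom Θ) G
  have hP'F : cj Θ P * F = 0 := by
    have := congrArg (cj Θ) hPF
    rwa [cj_mul, cj_star, hF, star_star, cj_zero] at this
  let g : ℝ → ℝ := fun t => (Real.sqrt t)⁻¹
  have hgc : ContinuousOn g (spectrum ℝ G) :=
    Real.continuous_sqrt.continuousOn.inv₀ fun t ht => (Real.sqrt_pos.2 (hpos t ht)).ne'
  have hg1 : g 1 = 1 := by simp [g]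
  set R := cfc g G with hR
  have hRs : star R = R := (cfc_predicate g G : IsSelfAdjoint R).star_eq
  have h1 : F * R = cfc g G' * F := by
    refine mul_cfc_eq_cfc_mul hGs hG's ?_ hgc (hgc.mono hspec)
    rw [hG'e, hG, mul_add, add_mul, hFP, hP'F, mul_assoc]
  have hPR : P * R = P := by
    refine mul_cfc_eq_self hGs ?_ hgc hg1
    rw [hG, mul_add, ← mul_assoc, hPF, zero_mul, zero_add, hPP]
  have hRP : R * P = P := by
    have := congrArg star hPR
    rwa [star_mul, hRs, hPs] at this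
  have hQR : Q * R = Q := by
    refine mul_cfc_eq_self hGs ?_ hgc hg1
    rw [hG, mul_add, ← mul_assoc, hQF', hQF, hQP, add_zero]
  have hRGR : R * G * R = 1 := by
    have e1 : R * G * R = cfc (fun t => g t * t * g t) G := by
      rw [cfc_mul (fun t => g t * t) g G (hgc.mul continuousOn_id) hgc,
        cfc_mul g (fun t => t) G hgc continuousOn_id, cfc_id' ℝ G]
    rw [e1, ← cfc_const_one ℝ G]
    refine cfc_congr fun t ht => ?_
    have := hpos t ht
    have h2 := Real.sqrt_pos.2 this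
    simp only [g]
    field_simp
    rw [Real.sq_sqrt this.le]
  refine ⟨F * R, ?_, ?_, ?_, ?_⟩
  · rw [cj_mul, hF, hR, cj_cfc Θ g G hGs hgc, ← hG', h1, star_mul]
    congr 1
    exact ((cfc_predicate g G' : IsSelfAdjoint (cfc g G')).star_eq).symm
  · have : star F * F = G - P := by rw [hG]; abel
    rw [star_mul, hRs, mul_assoc, ← mul_assoc (star F), this, ← mul_assoc, mul_sub, sub_mul,
      hRGR, hRP, hPR]
  · let k : ℝ → ℝ := fun t => -(Real.sqrt t * (1 + Real.sqrt t))⁻¹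
    have hkc : ContinuousOn k (spectrum ℝ G) := by
      refine (ContinuousOn.inv₀ (by fun_prop) fun t ht => ?_).neg
      have := Real.sqrt_pos.2 (hpos t ht)
      positivity
    have e1 : R - 1 = (G - 1) * cfc k G := by
      have e2 : (G - 1) * cfc k G = cfc (fun t => (t - 1) * k t) G := by
        rw [cfc_mul _ _ G (by fun_prop) hkc, cfc_sub _ _ G, cfc_id' ℝ G, cfc_const_one ℝ G]
      rw [e2, hR, ← cfc_const_one ℝ G, ← cfc_sub _ _ G hgc]
      refine cfc_congr fun t ht => ?_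
      have := hpos t ht
      have h2 := Real.sqrt_pos.2 this
      have h3 := Real.sq_sqrt this.le
      simp only [g, k]
      field_simp
      linear_combination (-1 : ℝ) * h3
    have e3 : G - 1 = P - (1 - star F * F) := by rw [hG]; abel
    have e4 : F * R - F = F * ((P - (1 - star F * F)) * cfc k G) := by
      rw [← e3, ← e1, mul_sub, mul_one]
    rw [e4]
    exact (((nuclear_starProjection _).sub hn).mul_right _).mul_left _
  · rw [← mul_assoc, hQF, hQR]

/-- pairing off all but one kernel vector -/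
lemma exists_pairing {Θ : H ≃ₗᵢ⋆[ℂ] H} (hΘ : ∀ x, Θ (Θ x) = -x) {V Q : H →L[ℂ] H}
    (N : Submodule ℂ H) [FiniteDimensional ℂ N] (hodd : Odd (finrank ℂ N))
    (hV : cj Θ V = star V) (hVV : star V * V = 1 - N.starProjection) (hQ : cj Θ Q = Q)
    (hQV : Q * V = Q) :
    ∃ (X : H →L[ℂ] H) (e : H), ‖e‖ = 1 ∧ cj Θ X = star X ∧ star X * X = 1 - rankOne ℂ e e ∧
      Nuclear (X - V) ∧ Q * X = Q := by
  classical
  obtain ⟨r, hr⟩ := hodd
  let ι := Option (Fin r ⊕ Fin r)
  let b : OrthonormalBasis ι ℂ N := (stdOrthonormalBasis ℂ N).reindex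
    (Fintype.equivOfCardEq (by simp [ι, hr]; ring))
  let e : ι → H := fun i => b i
  have he : ∀ i j, inner ℂ (e i) (e j) = if i = j then 1 else 0 := by
    intro i j
    have := orthonormal_iff_ite.1 b.orthonormal i j
    rwa [Submodule.coe_inner] at this
  let s : ι ≃ ι := Equiv.optionCongr (Equiv.sumComm _ _)
  let c : ι → ℝ := fun i => Option.elim i 0 (Sum.elim (fun _ => 1) (fun _ => -1))
  have hss : ∀ i, s (s i) = i := by rintro (_ | _ | _) <;> rfl
  have hcs : ∀ i, c (s i) = - c i := by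
    rintro (_ | _ | _)
    · exact neg_zero.symm
    · rfl
    · exact (neg_neg _).symm
  have hVe : ∀ i, V (e i) = 0 := by
    intro i
    have h1 : inner ℂ (V (e i)) (V (e i)) = 0 := by
      rw [← inner_star_right, ← mul_apply_eq_comp, hVV, sub_apply,
        Submodule.starProjection_eq_self_iff.2 (b i).2]
      simp [e]
    exact inner_self_eq_zero.1 h1
  let J : H →L[ℂ] H := ∑ i, (c i : ℂ) • rankOne ℂ (Θ (e (s i))) (e i)
  have hJs : star J = ∑ i, (c i : ℂ) • rankOne ℂ (e i) (Θ (e (s i))) := by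
    simp only [J, star_sum, star_smul, star_rankOne, Complex.star_def, Complex.conj_ofReal]
  have hJodd : cj Θ J = star J := by
    rw [hJs, ← Equiv.sum_comp s]
    change cjHom Θ J = _
    simp only [J, map_sum, cjHom_apply, cj_smul, cj_rankOne, hΘ, hss, hcs, Complex.conj_ofReal]
    refine Finset.sum_congr rfl fun i _ => ?_
    simp
  have hVJ : star V * J = 0 := by
    simp only [J, Finset.mul_sum, mul_smul_comm, mul_rankOne, star_apply_anti hV, hVe]
    simp
  have hJV : star J * V = 0 := by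
    have := congrArg star hVJ
    rwa [star_mul, star_star, star_zero] at this
  have hJJ : star J * J = ∑ i, ((c i : ℂ) * c i) • rankOne ℂ (e i) (e i) := by
    rw [hJs, Finset.sum_mul]
    refine Finset.sum_congr rfl fun i _ => ?_
    simp only [J, Finset.mul_sum, mul_smul_comm, smul_mul_assoc, mul_rankOne, rankOne_apply,
      inner_anti, he, EmbeddingLike.apply_eq_iff_eq]
    rw [Finset.sum_eq_single i]
    · rw [if_pos rfl, one_smul, smul_smul]
    · intro j _ hj; simp [hj]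
    · simp
  have hP : N.starProjection = ∑ i, rankOne ℂ (e i) (e i) := b.starProjection_eq_sum_rankOne
  refine ⟨V + J, e none, ?_, ?_, ?_, ?_, ?_⟩
  · exact b.orthonormal.1 none
  · rw [cj_add, star_add, hV, hJodd]
  · rw [star_add, add_mul, mul_add, mul_add, hVV, hVJ, hJV, hJJ, hP, Fintype.sum_option,
      Fintype.sum_option]
    have : ∀ i : Fin r ⊕ Fin r, ((c (some i) : ℂ) * c (some i)) = 1 := by
      rintro (_ | _) <;> simp [c]
    simp only [this, one_smul]
    simp [c]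
    abel
  · rw [add_sub_cancel_left]
    exact nuclear_sum _ _ fun i _ => (nuclear_rankOne _ _).smul _
  · have hQe : ∀ i, Q (Θ (e i)) = 0 := by
      intro i
      rw [← hQ, cj_apply', ← hQV, mul_apply_eq_comp, hVe]
      simp
    rw [mul_add, hQV]
    simp only [J, Finset.mul_sum, mul_smul_comm, mul_rankOne, hQe]
    simp

/-- the shift orbit -/
lemma exists_orbit {Θ : H ≃ₗᵢ⋆[ℂ] H} (hΘ : ∀ x, Θ (Θ x) = -x) {X Q : H →L[ℂ] H} {e : H}
    (he : ‖e‖ = 1) (hX : cj Θ X = star X) (hXX : star X * X = 1 - rankOne ℂ e e)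
    (hQ : cj Θ Q = Q) (hQX : Q * X = Q) :
    ∃ P : H →L[ℂ] H, P * P = P ∧ star P = P ∧ P * X = X * P ∧ Q * P = 0 ∧
      rankOne ℂ e e * P = 0 ∧ P (Θ e) = Θ e := by
  set f := Θ e with hf
  have hee : inner ℂ e e = 1 := by rw [inner_self_eq_norm_sq_to_K, he]; simp
  have hXe : X e = 0 := by
    have h1 : inner ℂ (X e) (X e) = 0 := by
      rw [← inner_star_right, ← mul_apply_eq_comp, hXX]
      rw [sub_apply, rankOne_apply, hee]
      simp
    exact inner_self_eq_zero.1 h1
  have hXf : (star X) f = 0 := by rw [hf, star_apply_anti hX, hXe, map_zero]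
  have hkr : ∀ n : ℕ, inner ℂ e ((X ^ n) f) = 0 := by
    intro n
    have h1 : cj Θ (X ^ n) = star (X ^ n) := by
      change cjHom Θ (X ^ n) = _
      rw [map_pow, cjHom_apply, hX, star_pow]
    have h2 := skew_of_odd hΘ h1 f f
    have h3 : inner ℂ (Θ f) ((X ^ n) f) = 0 := by linear_combination (1 / 2 : ℂ) * h2
    rw [hf, hΘ, inner_neg_left, neg_eq_zero] at h3
    exact h3
  have hQX' : Q * star X = Q := by
    have := congrArg (cj Θ) hQX
    rwa [cj_mul, hQ, hX] at this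
  let L0 : Submodule ℂ H := Submodule.span ℂ (Set.range fun n : ℕ => (X ^ n) f)
  let L : Submodule ℂ H := L0.topologicalClosure
  have hgen : ∀ n : ℕ, (X ^ n) f ∈ L := fun n =>
    L0.le_topologicalClosure (Submodule.subset_span ⟨n, rfl⟩)
  have hle : ∀ M : Submodule ℂ H, IsClosed (M : Set H) → (∀ n : ℕ, (X ^ n) f ∈ M) → L ≤ M := by
    intro M hM h
    refine Submodule.topologicalClosure_minimal _ (Submodule.span_le.2 ?_) hM
    rintro _ ⟨n, rfl⟩
    exact h n
  have hLc : IsClosed (L : Set H) := L0.isClosed_topologicalClosure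
  have h1 : L ≤ L.comap (X : H →ₗ[ℂ] H) := hle _ (hLc.preimage X.continuous) fun n => by
    have := hgen (n + 1)
    rwa [pow_succ'] at this
  have h2 : L ≤ L.comap ((star X : H →L[ℂ] H) : H →ₗ[ℂ] H) :=
    hle _ (hLc.preimage (star X).continuous) fun n => by
      change (star X) ((X ^ n) f) ∈ L
      cases n with
      | zero => simp [hXf]
      | succ n =>
        rw [pow_succ', mul_apply_eq_comp, ← mul_apply_eq_comp (star X), hXX]
        rw [sub_apply, rankOne_apply, hkr n, zero_smul, sub_zero]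
        exact hgen n
  have h3 : L ≤ (rankOne ℂ e e).ker := hle _ (rankOne ℂ e e).isClosed_ker fun n => by
    change rankOne ℂ e e ((X ^ n) f) = 0
    rw [rankOne_apply, hkr n, zero_smul]
  have h4 : L ≤ Q.ker := hle _ Q.isClosed_ker fun n => by
    change Q ((X ^ n) f) = 0
    induction n with
    | zero => rw [← hQX', mul_apply_eq_comp]; simp [hXf]
    | succ n ih => rw [pow_succ', mul_apply_eq_comp, ← mul_apply_eq_comp Q, hQX, ih]
  refine ⟨L.starProjection, L.isIdempotentElem_starProjection,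
    (isSelfAdjoint_starProjection _).star_eq, ?_, ?_, ?_, ?_⟩
  · ext x
    rw [mul_apply_eq_comp, mul_apply_eq_comp]
    refine Submodule.eq_starProjection_of_mem_orthogonal
      (h1 (Submodule.starProjection_apply_mem _ _)) ?_
    rw [← map_sub, Submodule.mem_orthogonal]
    intro u hu
    rw [← inner_star_left]
    exact (Submodule.mem_orthogonal _ _).1 (L.sub_starProjection_mem_orthogonal x) _ (h2 hu)
  · ext x
    exact h4 (Submodule.starProjection_apply_mem _ _)
  · ext x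
    exact h3 (Submodule.starProjection_apply_mem _ _)
  · rw [Submodule.starProjection_eq_self_iff]
    simpa using hgen 0

theorem exists_index_one {Θ : H ≃ₗᵢ⋆[ℂ] H} (hΘ : ∀ x, Θ (Θ x) = -x) {W L : H →L[ℂ] H}
    (hW1 : star W * W = 1) (hW2 : W * star W = 1) (hW : cj Θ W = star W)
    (hLL : L * L = L) (hLs : star L = L) (hL : cj Θ L = L) (hn : Nuclear (L * W - W * L))
    (hind : ind2 (compress L W) ≠ 0) :
    ∃ P : H →L[ℂ] H, P * P = P ∧ Nuclear (P * W - W * P) ∧ tr (star W * (P * W - W * P)) = 1 := by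
  set F := compress L W with hF
  have hFe : F = L * W * L + (1 - L) := rfl
  set C := L * W - W * L with hC
  have hFs : star F = L * star W * L + (1 - L) := by
    rw [hFe, star_add, star_sub, star_mul, star_mul, star_one, hLs, mul_assoc]
  have hFodd : cj Θ F = star F := by
    rw [hFs, hFe]; simp [hL, hW]
  have hL1 : L * (1 - L) = 0 := by rw [mul_sub, hLL, mul_one, sub_self]
  have hL2 : (1 - L) * L = 0 := by rw [sub_mul, hLL, one_mul, sub_self]
  have hL3 : (1 - L) * (1 - L) = 1 - L := by rw [mul_sub, hL2, mul_one, sub_zero]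
  have hLL' : ∀ Y, L * (L * Y) = L * Y := fun Y => by rw [← mul_assoc, hLL]
  have hW1' : ∀ Y, star W * (W * Y) = Y := fun Y => by rw [← mul_assoc, hW1, one_mul]
  have hFn : Nuclear (1 - star F * F) := by
    have : 1 - star F * F = -(L * star W * C * L) := by
      rw [hFs, hFe, hC]
      simp only [mul_add, add_mul, mul_sub, sub_mul, mul_assoc, hLL', hLL, hW1', mul_one, one_mul]
      abel
    rw [this]
    exact ((hn.mul_left _).mul_right _).neg
  have := finiteDimensional_ker hFn.mem_cptIdeal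
  have hodd : Odd (finrank ℂ F.ker) := by
    rw [← Nat.not_even_iff_odd, ← ZMod.natCast_eq_zero_iff_even]
    exact hind
  have hQ : cj Θ (1 - L) = 1 - L := by simp [hL]
  have hQF : (1 - L) * F = 1 - L := by
    rw [hFe, mul_add, hL3, ← mul_assoc, ← mul_assoc, hL2]; simp
  obtain ⟨V, hV1, hV2, hV3, hV4⟩ := exists_polar hFodd hFn hQ hQF
  obtain ⟨X, e, he, hX1, hX2, hX3, hX4⟩ := exists_pairing hΘ F.ker hodd hV1 hV2 hQ hV4
  obtain ⟨P, hP1, hP2, hP3, hP4, hP5, hP6⟩ := exists_orbit hΘ he hX1 hX2 hQ hX4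
  have hXF : Nuclear (X - F) := by
    have : X - F = (X - V) + (V - F) := by abel
    rw [this]; exact hX3.add hV3
  have hLP : L * P = P := by
    rw [sub_mul, one_mul, sub_eq_zero] at hP4
    exact hP4.symm
  have hPL : P * L = P := by
    have := congrArg star hLP
    rwa [star_mul, hP2, hLs] at this
  have hPL' : ∀ Y, P * (L * Y) = P * Y := fun Y => by rw [← mul_assoc, hPL]
  have hX2' : X * star X = 1 - rankOne ℂ (Θ e) (Θ e) := by
    have := congrArg (cj Θ) hX2
    rwa [cj_mul, cj_star, hX1, star_star, cj_sub, cj_one, cj_rankOne] at this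
  set S := P * X with hS
  set C2 := P * W - S with hC2
  have n2 : Nuclear C2 := by
    have : C2 = P * C * (1 - L) - P * (X - F) := by
      rw [hC2, hS, hC, hFe]
      simp only [mul_add, mul_sub, sub_mul, mul_assoc, hLL, hPL', hPL, mul_one]
      abel
    rw [this]
    exact ((hn.mul_left _).mul_right _).sub (hXF.mul_left _)
  have n1 : Nuclear (W * P - S) := by
    have : W * P - S = -((1 - L) * C * P) - (X - F) * P := by
      rw [hP3, hC, hFe]
      simp only [add_mul, mul_sub, sub_mul, mul_assoc, hLL', hLP, one_mul]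
      abel
    rw [this]
    exact ((hn.mul_left _).mul_right _).neg.sub (hXF.mul_right _)
  have hPW : P * W = S + C2 := by rw [hC2]; abel
  have hSS : star S * S = P := by
    have h1 : star S * S = P * (star X * X) * P := by
      rw [hP3, star_mul, hP2]; noncomm_ring
    rw [h1, hX2, mul_assoc, sub_mul, hP5, one_mul, sub_zero, hP1]
  have hSS' : S * star S = P - rankOne ℂ (Θ e) (Θ e) := by
    have h1 : S * star S = P * (X * star X) * P := by
      rw [hS, star_mul, hP2]; noncomm_ring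
    rw [h1, hX2', mul_sub, sub_mul, mul_one, hP1, mul_rankOne, rankOne_mul, hP2, hP6]
  refine ⟨P, hP1, ?_, ?_⟩
  · have : P * W - W * P = C2 - (W * P - S) := by rw [hC2]; abel
    rw [this]; exact n2.sub n1
  · have e1 : star W * (P * W - W * P) = star S * C2 + star C2 * S + star C2 * C2 := by
      have h1 : star W * (P * W - W * P) = star (P * W) * (P * W) - P := by
        rw [star_mul, hP2, mul_sub, hW1', mul_assoc, ← mul_assoc P P, hP1]
      rw [h1, hPW, star_add, add_mul, mul_add, mul_add, hSS]; abel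
    have e2 : C2 * star S + S * star C2 + C2 * star C2 = rankOne ℂ (Θ e) (Θ e) := by
      have h1 : (P * W) * star (P * W) = P := by
        rw [star_mul, hP2, mul_assoc, ← mul_assoc W, hW2, one_mul, hP1]
      rw [hPW, star_add, add_mul, mul_add, mul_add, hSS'] at h1
      rw [← sub_eq_zero] at h1 ⊢
      rw [← h1]; abel
    have e3 := congrArg tr e2
    rw [tr_rankOne, inner_anti, inner_self_eq_norm_sq_to_K, he,
      tr_add ((n2.mul_right _).add (n2.star.mul_left _)) (n2.mul_right _),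
      tr_add (n2.mul_right _) (n2.star.mul_left _), ← tr_comm n2, tr_comm n2.star,
      ← tr_comm n2] at e3
    rw [e1, tr_add ((n2.mul_left _).add (n2.star.mul_right _)) (n2.mul_left _),
      tr_add (n2.mul_left _) (n2.star.mul_right _), e3]
    simp

end Pool.Agent.MP_120ee9_mp

end
end

-- part MP_120ee9_mp.Spectral
section

/-! Spectral measures and absolutely continuous vectors. -/

noncomputable section

namespace Pool.Agent.MP_120ee9_mp

open MeasureTheory Filter Topology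
open scoped BoundedContinuousFunction CompactlySupported

variable {H : Type*} [NormedAddCommGroup H] [InnerProductSpace ℂ H] [CompleteSpace H]

lemma exists_appr {X : Type*} [TopologicalSpace X] [HasOuterApproxClosed X] {K : Set X}
    (hK : IsClosed K) : ∃ f : ℕ → X →ᵇ ℝ, (∀ n x, 0 ≤ f n x ∧ f n x ≤ 1) ∧
      (∀ n, ∀ x ∈ K, f n x = 1) ∧
      ∀ x, Tendsto (fun n => f n x) atTop (𝓝 (K.indicator (fun _ => (1 : ℝ)) x)) := by
  refine ⟨fun n => (hK.apprSeq n).comp NNReal.toReal NNReal.isometry_coe.lipschitz,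
    fun n x => ⟨NNReal.coe_nonneg _, ?_⟩, fun n x hx => ?_, fun x => ?_⟩
  · exact_mod_cast HasOuterApproxClosed.apprSeq_apply_le_one hK n x
  · simp [HasOuterApproxClosed.apprSeq_apply_eq_one hK n hx]
  · have h1 := tendsto_pi_nhds.1 (HasOuterApproxClosed.tendsto_apprSeq hK) x
    have h2 := (NNReal.continuous_coe.tendsto _).comp h1
    have e : K.indicator (fun _ => (1 : ℝ)) x = ((K.indicator (fun _ => (1 : NNReal)) x : NNReal) : ℝ) := by
      by_cases hx : x ∈ K <;> simp [hx]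
    rw [e]
    exact h2

lemma exists_spectralMeasure {A : H →L[ℂ] H} (hA : IsSelfAdjoint A) (ψ : H) :
    ∃ μ, IsSpectralMeasure A ψ μ := by
  let Λ0 : C_c(spectrum ℝ A, ℝ) →ₗ[ℝ] ℝ :=
    { toFun := fun f => (inner ℂ ψ (cfcHom (R := ℝ) hA f.toContinuousMap ψ)).re
      map_add' := fun f g => by
        have : (f + g).toContinuousMap = f.toContinuousMap + g.toContinuousMap := rfl
        simp [this]
      map_smul' := fun c f => by
        have : (c • f).toContinuousMap = c • f.toContinuousMap := rfl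
        rw [this, map_smul, ← Complex.coe_smul]
        simp [-Complex.coe_smul] }
  let Λ : C_c(spectrum ℝ A, ℝ) →ₚ[ℝ] ℝ := PositiveLinearMap.mk₀ Λ0 fun f hf => by
    have h1 : 0 ≤ cfcHom (R := ℝ) hA f.toContinuousMap := (cfcHom_nonneg_iff hA).2 hf
    exact ((ContinuousLinearMap.nonneg_iff_isPositive _).1 h1).re_inner_nonneg_right ψ
  refine ⟨(RealRMK.rieszMeasure Λ).map Subtype.val, inferInstance, fun f => ?_⟩
  rw [integral_map measurable_subtype_coe.aemeasurable f.continuous.aestronglyMeasurable]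
  let g : C_c(spectrum ℝ A, ℝ) :=
    { toFun := fun x => f x
      hasCompactSupport' := HasCompactSupport.of_compactSpace _ }
  have h1 := RealRMK.integral_rieszMeasure Λ g
  have h2 : cfc (f : ℝ → ℝ) A = cfcHom (R := ℝ) hA g.toContinuousMap :=
    cfc_apply (f : ℝ → ℝ) A hA f.continuous.continuousOn
  have h3 : IsSelfAdjoint (cfc (f : ℝ → ℝ) A) := cfc_predicate _ _
  have h4 : (inner ℂ ψ (cfc (f : ℝ → ℝ) A ψ)).im = 0 := by
    have := h3.isSymmetric.im_inner_self_apply ψ
    exact this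
  apply Complex.ext
  · rw [Complex.ofReal_re]
    exact (congrArg (fun T : H →L[ℂ] H => (inner ℂ ψ (T ψ)).re) h2).trans h1.symm
  · rw [h4, Complex.ofReal_im]

lemma IsSpectralMeasure.inner_cfc {A : H →L[ℂ] H} {ψ : H} {μ : Measure ℝ}
    (h : IsSpectralMeasure A ψ μ) (f g k : ℝ →ᵇ ℝ) :
    inner ℂ (cfc (f : ℝ → ℝ) A ψ) (cfc (k : ℝ → ℝ) A (cfc (g : ℝ → ℝ) A ψ)) =
      ((∫ t, f t * k t * g t ∂μ : ℝ) : ℂ) := by
  have h3 : IsSelfAdjoint (cfc (f : ℝ → ℝ) A) := cfc_predicate _ _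
  have := h.2 (f * k * g)
  rw [show ((f * k * g : ℝ →ᵇ ℝ) : ℝ → ℝ) = fun t => f t * k t * g t from rfl,
    cfc_mul (fun t => f t * k t) g A, cfc_mul f k A] at this
  rw [← h3.star_eq, inner_star_left]
  exact this

lemma IsSpectralMeasure.norm_sq_cfc {A : H →L[ℂ] H} (hA : IsSelfAdjoint A) {ψ : H} {μ : Measure ℝ}
    (h : IsSpectralMeasure A ψ μ) (f : ℝ →ᵇ ℝ) :
    ‖cfc (f : ℝ → ℝ) A ψ‖ ^ 2 = ∫ t, f t ^ 2 ∂μ := by
  have := h.inner_cfc f f 1
  rw [show ((1 : ℝ →ᵇ ℝ) : ℝ → ℝ) = 1 from rfl, cfc_one ℝ A] at this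
  simp only [one_apply_eq_self, Pi.one_apply, mul_one, inner_self_eq_norm_sq_to_K] at this
  have h2 : ((‖cfc (f : ℝ → ℝ) A ψ‖ ^ 2 : ℝ) : ℂ) = ((∫ t, f t * f t ∂μ : ℝ) : ℂ) := by
    push_cast; exact this
  rw [Complex.ofReal_inj.1 h2]
  simp only [sq]

lemma IsSpectralMeasure.exists_restrict {A : H →L[ℂ] H} (hA : IsSelfAdjoint A) {ψ : H}
    {μ : Measure ℝ} (h : IsSpectralMeasure A ψ μ) {B : Set ℝ} (hB : IsClosed B) :
    ∃ φ, IsSpectralMeasure A φ (μ.restrict B) := by
  have := h.1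
  obtain ⟨f, hf01, -, hft⟩ := exists_appr hB
  let v : ℕ → H := fun n => cfc (f n : ℝ → ℝ) A ψ
  let χ : ℝ → ℝ := B.indicator fun _ => 1
  have hχ : ∀ t, 0 ≤ χ t ∧ χ t ≤ 1 := fun t => by by_cases ht : t ∈ B <;> simp [χ, ht]
  have hχm : AEStronglyMeasurable χ μ :=
    (measurable_const.indicator hB.measurableSet).aestronglyMeasurable
  let a : ℕ → ℝ := fun n => ∫ t, |f n t - χ t| ∂μ
  have hint : ∀ n, Integrable (fun t => |f n t - χ t|) μ := fun n =>
    (((f n).integrable μ).sub ((integrable_const 1).indicator hB.measurableSet)).abs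
  have ha : Tendsto a atTop (𝓝 0) := by
    have := tendsto_integral_of_dominated_convergence (μ := μ) (F := fun n t => |f n t - χ t|)
      (f := fun _ => (0 : ℝ)) (fun _ => (1 : ℝ)) (fun n => (hint n).aestronglyMeasurable)
      (integrable_const _) (fun n => Eventually.of_forall fun t => by
        rw [Real.norm_eq_abs, abs_abs, abs_le]
        constructor <;> linarith [hf01 n t, hχ t])
      (Eventually.of_forall fun t => by
        have := ((hft t).sub_const (χ t)).abs
        simpa [χ] using this)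
    simpa using this
  have hdist : ∀ n m, dist (v n) (v m) ^ 2 ≤ a n + a m := by
    intro n m
    have e : v n - v m = cfc ((f n - f m : ℝ →ᵇ ℝ) : ℝ → ℝ) A ψ := by
      rw [show ((f n - f m : ℝ →ᵇ ℝ) : ℝ → ℝ) = fun t => f n t - f m t from rfl,
        cfc_sub (f n) (f m) A]
      rfl
    rw [dist_eq_norm, e, h.norm_sq_cfc hA, ← integral_add (hint n) (hint m)]
    refine integral_mono_of_nonneg (Eventually.of_forall fun t => sq_nonneg _)
      ((hint n).add (hint m)) (Eventually.of_forall fun t => ?_)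
    have h1 : |f n t - f m t| ≤ 1 := by
      rw [abs_le]; constructor <;> linarith [hf01 n t, hf01 m t]
    have h2 : |f n t - f m t| ≤ |f n t - χ t| + |f m t - χ t| := by
      rw [abs_sub_comm (f m t)]; exact abs_sub_le _ _ _
    have h3 : (f n t - f m t) ^ 2 = |f n t - f m t| * |f n t - f m t| := by rw [← sq, sq_abs]
    change (f n t - f m t) ^ 2 ≤ |f n t - χ t| + |f m t - χ t|
    nlinarith [abs_nonneg (f n t - f m t)]
  have hc : CauchySeq v := by
    rw [Metric.cauchySeq_iff]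
    intro ε hε
    obtain ⟨N, hN⟩ := eventually_atTop.1 (ha.eventually (gt_mem_nhds (half_pos (pow_pos hε 2))))
    refine ⟨N, fun m hm n hn => ?_⟩
    have h1 := hdist m n
    have h2 : dist (v m) (v n) ^ 2 < ε ^ 2 := by linarith [hN m hm, hN n hn]
    exact lt_of_pow_lt_pow_left₀ 2 hε.le h2
  obtain ⟨φ, hφ⟩ := cauchySeq_tendsto_of_complete hc
  refine ⟨φ, inferInstance, fun k => ?_⟩
  have t1 : Tendsto (fun n => inner ℂ (v n) (cfc (k : ℝ → ℝ) A (v n))) atTop
      (𝓝 (inner ℂ φ (cfc (k : ℝ → ℝ) A φ))) :=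
    hφ.inner (((cfc (k : ℝ → ℝ) A).continuous.tendsto φ).comp hφ)
  have t2 : Tendsto (fun n => ∫ t, f n t * k t * f n t ∂μ) atTop (𝓝 (∫ t, χ t * k t * χ t ∂μ)) := by
    refine tendsto_integral_of_dominated_convergence (fun _ => ‖k‖)
      (fun n => (f n * k * f n).continuous.aestronglyMeasurable) (integrable_const _)
      (fun n => Eventually.of_forall fun t => ?_)
      (Eventually.of_forall fun t => ((hft t).mul_const _).mul (hft t))
    rw [norm_mul, norm_mul, Real.norm_of_nonneg (hf01 n t).1]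
    have := k.norm_coe_le_norm t
    have h0 := hf01 n t
    calc f n t * ‖k t‖ * f n t ≤ 1 * ‖k‖ * 1 := by gcongr <;> tauto
      _ = ‖k‖ := by ring
  have e : ∫ t, χ t * k t * χ t ∂μ = ∫ t, k t ∂(μ.restrict B) := by
    rw [← integral_indicator hB.measurableSet]
    congr 1
    ext t
    by_cases ht : t ∈ B <;> simp [χ, ht]
  rw [e] at t2
  have t3 := (Complex.continuous_ofReal.tendsto _).comp t2
  refine tendsto_nhds_unique t1 ?_
  convert t3 using 2 with n
  exact h.inner_cfc (f n) (f n) k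

lemma IsSpectralMeasure.norm_sq {A : H →L[ℂ] H} (hA : IsSelfAdjoint A) {ψ : H} {μ : Measure ℝ}
    (h : IsSpectralMeasure A ψ μ) : ‖ψ‖ ^ 2 = μ.real Set.univ := by
  have := h.norm_sq_cfc hA 1
  rw [show ((1 : ℝ →ᵇ ℝ) : ℝ → ℝ) = 1 from rfl, cfc_one ℝ A] at this
  simpa using this

lemma IsSpectralMeasure.norm_sub_le {A : H →L[ℂ] H} (hA : IsSelfAdjoint A) {ψ : H} {μ : Measure ℝ}
    (h : IsSpectralMeasure A ψ μ) {E ε : ℝ} (hε : 0 ≤ ε)
    (hμ : ∀ᵐ t ∂μ, t ∈ Set.Icc (E - ε) (E + ε)) : ‖A ψ - (E : ℂ) • ψ‖ ≤ ε * ‖ψ‖ := by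
  have := h.1
  obtain ⟨R, hR⟩ := (ContinuousFunctionalCalculus.isCompact_spectrum (R := ℝ) A).isBounded.subset_closedBall E
  let k : ℝ →ᵇ ℝ := BoundedContinuousFunction.ofNormedAddCommGroup
    (fun t => max (-|R|) (min |R| (t - E))) (by fun_prop) |R| fun t => by
      rw [Real.norm_eq_abs, abs_le]
      exact ⟨le_max_left _ _, max_le (by linarith [abs_nonneg R]) (min_le_left _ _)⟩
  have hk : ∀ t, k t = max (-|R|) (min |R| (t - E)) := fun t => rfl
  have e : cfc (k : ℝ → ℝ) A = A - (E : ℂ) • 1 := by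
    have : cfc (k : ℝ → ℝ) A = cfc (fun t : ℝ => t - E) A := cfc_congr fun t ht => by
      have h1 := hR ht
      rw [Metric.mem_closedBall, Real.dist_eq, abs_le] at h1
      have h2 := le_abs_self R
      rw [hk, min_eq_right (by linarith), max_eq_right (by linarith)]
    rw [this, cfc_sub _ _ A, cfc_id' ℝ A, cfc_const E A, Algebra.algebraMap_eq_smul_one,
      Complex.coe_smul]
  have h1 := h.norm_sq_cfc hA k
  rw [e] at h1
  have h2 : ∫ t, k t ^ 2 ∂μ ≤ ∫ _, ε ^ 2 ∂μ := by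
    refine integral_mono_of_nonneg (Eventually.of_forall fun t => sq_nonneg _)
      (integrable_const _) ?_
    filter_upwards [hμ] with t ht
    refine sq_le_sq' ?_ ?_
    · rw [hk]
      exact le_max_of_le_right (le_min (by linarith [abs_nonneg R]) (by linarith [ht.1]))
    · rw [hk]
      exact max_le (by linarith [abs_nonneg R]) (min_le_of_right_le (by linarith [ht.2]))
  rw [integral_const, smul_eq_mul, ← h.norm_sq hA, ← h1] at h2
  refine le_of_sq_le_sq ?_ (by positivity)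
  simpa [mul_pow, mul_comm] using h2

/-- Either there is an absolutely continuous approximate eigenvector, or all spectral measures are
singular on the interval. -/
lemma exists_null_of_no_ac {A : H →L[ℂ] H} (hA : IsSelfAdjoint A) {E ε : ℝ} (hε : 0 ≤ ε)
    (hno : ∀ φ : H, (∃ μ, IsSpectralMeasure A φ μ ∧ μ ≪ volume) →
      ‖A φ - (E : ℂ) • φ‖ ≤ ε * ‖φ‖ → φ = 0)
    {ψ : H} {μ : Measure ℝ} (h : IsSpectralMeasure A ψ μ) :
    ∃ N : Set ℝ, volume N = 0 ∧ μ (Set.Icc (E - ε) (E + ε) \ N) = 0 := by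
  have := h.1
  obtain ⟨s, hs, hs1, hs2⟩ := μ.mutuallySingular_singularPart volume
  refine ⟨sᶜ, hs2, ?_⟩
  by_contra hne
  have hm : MeasurableSet (Set.Icc (E - ε) (E + ε) \ sᶜ) := measurableSet_Icc.diff hs.compl
  obtain ⟨B, hB1, hB2, hB3⟩ := hm.exists_lt_isCompact (μ := μ) (pos_iff_ne_zero.2 hne)
  obtain ⟨φ, hφ⟩ := h.exists_restrict hA hB2.isClosed
  have hac : μ.restrict B ≪ volume := by
    refine Measure.AbsolutelyContinuous.mk fun t ht ht0 => ?_
    rw [Measure.restrict_apply ht, μ.haveLebesgueDecomposition_add volume, Measure.add_apply,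
      add_eq_zero]
    constructor
    · exact measure_mono_null (fun x hx => by simpa using (hB1 hx.2).2) hs1
    · exact withDensity_absolutelyContinuous _ _ (measure_mono_null Set.inter_subset_left ht0)
  have h0 := hno φ ⟨_, hφ, hac⟩ (hφ.norm_sub_le hA hε (by
    filter_upwards [ae_restrict_mem hB2.isClosed.measurableSet] with t ht
    exact (hB1 ht).1))
  have h1 := hφ.norm_sq hA
  rw [h0, norm_zero, Measure.real, Measure.restrict_apply MeasurableSet.univ, Set.univ_inter] at h1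
  have h2 : (μ B).toReal = 0 := by simpa using h1.symm
  rw [ENNReal.toReal_eq_zero_iff] at h2
  rcases h2 with h2 | h2
  · exact hB3.ne' h2
  · exact measure_ne_top μ B h2

lemma mem_acSpectrum_of_approx {A : H →L[ℂ] H} {E : ℝ}
    (h : ∀ ε > 0, ∃ φ : H, φ ≠ 0 ∧ (∃ μ, IsSpectralMeasure A φ μ ∧ μ ≪ volume) ∧
      ‖A φ - (E : ℂ) • φ‖ ≤ ε * ‖φ‖) : E ∈ acSpectrum A := by
  intro hu
  obtain ⟨u, hu⟩ := hu
  set T := (acSubspace A).orthogonalProjectionOnto ∘L A ∘L (acSubspace A).subtypeL with hT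
  set c := ‖(↑u⁻¹ : acSubspace A →L[ℂ] acSubspace A)‖ with hc
  have hc0 : 0 ≤ c := ContinuousLinearMap.opNorm_nonneg _
  obtain ⟨φ, h0, h1, h2⟩ := h (c + 1)⁻¹ (by positivity)
  have hmem : φ ∈ acSubspace A :=
    Submodule.le_topologicalClosure _ (Submodule.subset_span h1)
  let x : acSubspace A := ⟨φ, hmem⟩
  have e1 : x = (↑u⁻¹ : acSubspace A →L[ℂ] acSubspace A) ((u : acSubspace A →L[ℂ] acSubspace A) x) := by
    rw [← mul_apply_eq_comp, Units.inv_mul, one_apply_eq_self]
  have e2 : (u : acSubspace A →L[ℂ] acSubspace A) x =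
      - (acSubspace A).orthogonalProjectionOnto (A φ - (E : ℂ) • φ) := by
    rw [hu, map_sub, map_smul, neg_sub, sub_apply, Algebra.algebraMap_eq_smul_one, smul_apply,
      one_apply_eq_self]
    have e3 : (acSubspace A).orthogonalProjectionOnto φ = x :=
      Submodule.orthogonalProjectionOnto_mem_subspace_eq_self x
    rw [e3]
    rfl
  have e3 : ‖φ‖ ≤ c * ((c + 1)⁻¹ * ‖φ‖) := by
    calc ‖φ‖ = ‖x‖ := rfl
      _ ≤ c * ‖(u : acSubspace A →L[ℂ] acSubspace A) x‖ := by
        conv_lhs => rw [e1]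
        exact ContinuousLinearMap.le_opNorm _ _
      _ ≤ _ := by
        rw [e2, norm_neg]
        exact mul_le_mul_of_nonneg_left
          ((Submodule.norm_orthogonalProjectionOnto_apply_le _ _).trans h2) hc0
  have h3 : 0 < ‖φ‖ := norm_pos_iff.2 h0
  have h4 : c * (c + 1)⁻¹ < 1 := by
    rw [mul_inv_lt_iff₀ (by positivity)]; linarith
  nlinarith

end Pool.Agent.MP_120ee9_mp

end
end

-- part MP_120ee9_mp.AC
section

/-! A nonzero index with trace-class commutator forces absolutely continuous spectrum. -/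

noncomputable section

namespace Pool.Agent.MP_120ee9_mp

open MeasureTheory Filter Topology InnerProductSpace
open scoped BoundedContinuousFunction Real

variable {H : Type*} [NormedAddCommGroup H] [InnerProductSpace ℂ H] [CompleteSpace H]

lemma tr_pow_eq_zero {U V P : H →L[ℂ] H} (hUV : U * V = 1) (hP : P * P = P)
    (hn : Nuclear (P * U - U * P)) (n : ℕ) (h0 : n ≠ 0) :
    tr (U ^ n * (V * (P * U - U * P))) = 0 := by
  set C := P * U - U * P with hC
  have key : ∀ n : ℕ, Nuclear (P * U ^ n - U ^ n * P) ∧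
      ∀ j : ℕ, tr (U ^ j * (P * U ^ n - U ^ n * P)) = n * tr (U ^ (j + n) * (V * C)) := by
    intro n
    induction n with
    | zero => simp [nuclear_zero, tr_zero]
    | succ n ih =>
      have e : P * U ^ (n + 1) - U ^ (n + 1) * P = (P * U ^ n - U ^ n * P) * U + U ^ n * C := by
        rw [hC, pow_succ]; noncomm_ring
      rw [e]
      refine ⟨(ih.1.mul_right _).add (hn.mul_left _), fun j => ?_⟩
      have e2 : U ^ j * (U ^ n * C) = U ^ (j + (n + 1)) * (V * C) := by
        rw [← add_assoc, pow_succ, mul_assoc, ← mul_assoc U V, hUV, one_mul, pow_add, mul_assoc]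
      rw [mul_add, tr_add ((ih.1.mul_right _).mul_left _) ((hn.mul_left _).mul_left _),
        ← mul_assoc, ← tr_comm (ih.1.mul_left _), ← mul_assoc, ← pow_succ', ih.2, e2,
        show j + 1 + n = j + (n + 1) by ring]
      push_cast; ring
  have hPn : tr (P * U ^ n - U ^ n * P) = 0 := tr_commutator hP (key n).1
  have := (key n).2 0
  rw [pow_zero, one_mul, hPn, zero_add] at this
  exact (mul_eq_zero.1 this.symm).resolve_left (Nat.cast_ne_zero.2 h0)

lemma tr_pow_eq_zero' {U V P : H →L[ℂ] H} (hUV : U * V = 1) (hVU : V * U = 1) (hP : P * P = P)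
    (hn : Nuclear (P * U - U * P)) (n : ℕ) (h0 : n ≠ 0) :
    tr (V ^ n * (V * (P * U - U * P))) = 0 := by
  set C := P * U - U * P with hC
  have e : P * V - V * P = -(V * C * V) := by
    rw [hC, mul_sub, sub_mul, ← mul_assoc V U, hVU, mul_assoc V, mul_assoc P, hUV]; simp
  have h1 := tr_pow_eq_zero hVU hP (by rw [e]; exact ((hn.mul_left _).mul_right _).neg) n h0
  have e2 : V ^ n * (U * (P * V - V * P)) = -((V ^ n * C) * V) := by
    rw [e, mul_neg, mul_neg, mul_assoc V, ← mul_assoc U, hUV, one_mul, mul_assoc]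
  rw [e2, tr_neg ((hn.mul_left _).mul_right _), neg_eq_zero, ← tr_comm (hn.mul_left _),
    ← mul_assoc, ← pow_succ', pow_succ, mul_assoc] at h1
  exact h1

/-- functional calculus by functions on the circle -/
def circleCalc {G : H →L[ℂ] H} (hG : IsSelfAdjoint G) :
    C(AddCircle (1 : ℝ), ℂ) →⋆ₐ[ℂ] (H →L[ℂ] H) :=
  (cfcHom (R := ℂ) hG.isStarNormal).comp (ContinuousMap.compStarAlgHom' ℂ ℂ
    ⟨fun z : spectrum ℂ G => (((z : ℂ).re : ℝ) : AddCircle (1 : ℝ)), by fun_prop⟩)

lemma circleCalc_apply {G : H →L[ℂ] H} (hG : IsSelfAdjoint G) (p : C(AddCircle (1 : ℝ), ℂ)) :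
    circleCalc hG p = cfc (fun z : ℂ => p ((z.re : ℝ) : AddCircle (1 : ℝ))) G := by
  rw [cfc_apply _ G hG.isStarNormal (by fun_prop)]
  rfl

lemma continuous_circleCalc {G : H →L[ℂ] H} (hG : IsSelfAdjoint G) :
    Continuous (circleCalc hG) :=
  (cfcHom_continuous (R := ℂ) hG.isStarNormal).comp (ContinuousMap.continuous_precomp _)

lemma circleCalc_fourier_one {G : H →L[ℂ] H} (hG : IsSelfAdjoint G) :
    circleCalc hG (fourier 1) = NormedSpace.exp ((2 * π * Complex.I : ℂ) • G) := by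
  have := hG.isStarNormal
  rw [circleCalc_apply, ← CFC.complex_exp_eq_normedSpace_exp,
    ← cfc_comp_smul (2 * π * Complex.I : ℂ) Complex.exp G]
  refine cfc_congr fun z hz => ?_
  simp only [fourier_coe_apply]
  rw [← hG.mem_spectrum_eq_re hz]
  simp

lemma circleCalc_fourier_nat {G : H →L[ℂ] H} (hG : IsSelfAdjoint G) (n : ℕ) :
    circleCalc hG (fourier n) = circleCalc hG (fourier 1) ^ n := by
  rw [← map_pow]
  congr 1
  induction n with
  | zero => ext x; simp
  | succ n ih => rw [pow_succ, ← ih]; ext x; push_cast; simp [fourier_add']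

lemma circleCalc_fourier_neg {G : H →L[ℂ] H} (hG : IsSelfAdjoint G) (n : ℤ) :
    circleCalc hG (fourier (-n)) = star (circleCalc hG (fourier n)) := by
  rw [← map_star]
  congr 1
  ext x
  simp [fourier_neg']

lemma circleCalc_real {A : H →L[ℂ] H} (hA : IsSelfAdjoint A) {g : ℝ → ℝ} (hg : Continuous g)
    (q : AddCircle (1 : ℝ) →ᵇ ℝ) :
    circleCalc (cfc_predicate g A : IsSelfAdjoint (cfc g A))
        ⟨fun x => (q x : ℂ), by fun_prop⟩ = cfc (fun t => q (g t : ℝ)) A := by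
  have hG : IsSelfAdjoint (cfc g A) := cfc_predicate g A
  rw [circleCalc_apply, cfc_comp' (fun s : ℝ => q (s : ℝ)) g A, cfc_real_eq_complex _ hG]
  rfl

lemma volume_image_mk_null {Z : Set ℝ} (hZ : volume Z = 0) :
    AddCircle.haarAddCircle (((↑) : ℝ → AddCircle (1 : ℝ)) '' Z) = 0 := by
  let Y : Set ℝ := ⋃ k : ℤ, (fun t => t + k) ⁻¹' toMeasurable volume Z
  have hYm : MeasurableSet Y :=
    MeasurableSet.iUnion fun k => (measurableSet_toMeasurable _ _).preimage (by fun_prop)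
  have hY0 : volume Y = 0 := by
    refine measure_iUnion_null fun k => ?_
    rw [measure_preimage_add_right, measure_toMeasurable, hZ]
  have hper : ∀ (t : ℝ) (k : ℤ), t ∈ Y → t + k ∈ Y := by
    intro t k ht
    obtain ⟨j, hj⟩ := Set.mem_iUnion.1 ht
    refine Set.mem_iUnion.2 ⟨j - k, ?_⟩
    simpa using hj
  have hpre : ((↑) : ℝ → AddCircle (1 : ℝ)) ⁻¹' (((↑) : ℝ → AddCircle (1 : ℝ)) '' Y) = Y := by
    refine le_antisymm ?_ (Set.subset_preimage_image _ _)
    rintro t ⟨s, hs, hst⟩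
    obtain ⟨k, hk⟩ := AddSubgroup.mem_zmultiples_iff.1 (QuotientAddGroup.eq.1 hst)
    have : t = s + k := by simp at hk; linarith
    rw [this]; exact hper s k hs
  have hm : MeasurableSet (((↑) : ℝ → AddCircle (1 : ℝ)) '' Y) := by
    apply measurableSet_quotient.2
    exact hpre.symm ▸ hYm
  have h1 : volume (((↑) : ℝ → AddCircle (1 : ℝ)) '' Y) = 0 := by
    rw [AddCircle.add_projection_respects_measure 1 0 hm]
    exact measure_mono_null (Set.inter_subset_left.trans hpre.le) hY0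
  rw [AddCircle.volume_eq_smul_haarAddCircle] at h1
  simp only [ENNReal.ofReal_one, one_smul] at h1
  refine measure_mono_null (Set.image_mono fun t ht => ?_) h1
  exact Set.mem_iUnion.2 ⟨0, by simpa using subset_toMeasurable _ _ ht⟩

theorem exists_ac_vector {A P : H →L[ℂ] H} (hA : IsSelfAdjoint A) {g : ℝ → ℝ}
    (hg : Differentiable ℝ g) {E ε : ℝ} (hε : 0 ≤ ε)
    (hgI : ∀ t, t ∉ Set.Icc (E - ε) (E + ε) → ((g t : ℝ) : AddCircle (1 : ℝ)) = 0)
    (hP : P * P = P) {W : H →L[ℂ] H}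
    (hW : W = NormedSpace.exp ((2 * π * Complex.I : ℂ) • cfc g A))
    (hn : Nuclear (P * W - W * P)) (htr : tr (star W * (P * W - W * P)) = 1) :
    ∃ φ : H, φ ≠ 0 ∧ (∃ μ, IsSpectralMeasure A φ μ ∧ μ ≪ volume) ∧
      ‖A φ - (E : ℂ) • φ‖ ≤ ε * ‖φ‖ := by
  by_contra hcon
  have hno : ∀ φ : H, (∃ μ, IsSpectralMeasure A φ μ ∧ μ ≪ volume) →
      ‖A φ - (E : ℂ) • φ‖ ≤ ε * ‖φ‖ → φ = 0 := by
    intro φ h1 h2
    by_contra h0
    exact hcon ⟨φ, h0, h1, h2⟩
  have hG : IsSelfAdjoint (cfc g A) := cfc_predicate g A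
  set Φ := circleCalc hG with hΦ
  have hΦ1 : Φ (fourier 1) = W := by rw [hW]; exact circleCalc_fourier_one hG
  have hf1 : star (fourier 1 : C(AddCircle (1 : ℝ), ℂ)) * fourier 1 = 1 := by
    ext x; simp [← Complex.normSq_eq_conj_mul_self]
  have hW1 : star W * W = 1 := by rw [← hΦ1, ← map_star, ← map_mul, hf1, map_one]
  have hW2 : W * star W = 1 := by rw [← hΦ1, ← map_star, ← map_mul, mul_comm, hf1, map_one]
  set C := star W * (P * W - W * P) with hC
  have hCn : Nuclear C := hn.mul_left _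
  obtain ⟨_, ι, _, a, b, hs, hT, -⟩ := id hCn
  -- the functional is Lebesgue measure
  have hcont : Continuous fun p => tr (Φ p * C) := by
    have h1 : Continuous fun B : H →L[ℂ] H => tr (B * C) := by
      simp only [tr_mul_eq_tsum hs hT]
      rw [continuous_iff_continuousAt]
      intro B
      refine tendsto_tsum_of_dominated_convergence (bound := fun k => (‖B‖ + 1) * (‖a k‖ * ‖b k‖))
        (hs.mul_left _) (fun k => ?_) ?_
      · exact (show Continuous fun B : H →L[ℂ] H => inner ℂ (b k) (B (a k)) by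
          fun_prop).continuousAt
      · have : ∀ᶠ B' in 𝓝 B, ‖B'‖ < ‖B‖ + 1 :=
          continuous_norm.continuousAt.eventually (gt_mem_nhds (lt_add_one _))
        filter_upwards [this] with B' hB' k
        calc ‖inner ℂ (b k) (B' (a k))‖ ≤ ‖b k‖ * ‖B' (a k)‖ := norm_inner_le_norm _ _
          _ ≤ ‖b k‖ * ((‖B‖ + 1) * ‖a k‖) := by
            gcongr
            exact (B'.le_opNorm _).trans (by gcongr)
          _ = _ := by ring
    exact h1.comp (continuous_circleCalc hG)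
  have hint : ∀ p : C(AddCircle (1 : ℝ), ℂ), Integrable p AddCircle.haarAddCircle := fun p =>
    (BoundedContinuousFunction.mkOfCompact p).integrable _
  have hν : ∀ p : C(AddCircle (1 : ℝ), ℂ), tr (Φ p * C) = ∫ x, p x ∂AddCircle.haarAddCircle := by
    let S : Submodule ℂ C(AddCircle (1 : ℝ), ℂ) :=
      { carrier := {p | tr (Φ p * C) = ∫ x, p x ∂AddCircle.haarAddCircle}
        add_mem' := fun {p q} hp hq => by
          simp only [Set.mem_ofPred_eq] at hp hq ⊢
          rw [map_add, add_mul, tr_add (hCn.mul_left _) (hCn.mul_left _), hp, hq,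
            ← integral_add (hint p) (hint q)]
          rfl
        zero_mem' := by simp [tr_zero]
        smul_mem' := fun c p hp => by
          simp only [Set.mem_ofPred_eq] at hp ⊢
          rw [map_smul, smul_mul_assoc, tr_smul (hCn.mul_left _), hp, ← integral_const_mul]
          rfl }
    have hSc : IsClosed (S : Set C(AddCircle (1 : ℝ), ℂ)) := by
      refine isClosed_eq hcont ?_
      have : LipschitzWith 1 fun p : C(AddCircle (1 : ℝ), ℂ) =>
          ∫ x, p x ∂AddCircle.haarAddCircle := LipschitzWith.of_dist_le_mul fun p q => by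
        rw [dist_eq_norm, dist_eq_norm, ← integral_sub (hint p) (hint q)]
        have := norm_integral_le_of_norm_le_const (μ := AddCircle.haarAddCircle)
          (f := fun x => p x - q x) (C := ‖p - q‖)
          (Eventually.of_forall fun x => (p - q).norm_coe_le_norm x)
        simpa using this
      exact this.continuous
    have hle : (Submodule.span ℂ (Set.range (fourier (T := 1)))).topologicalClosure ≤ S := by
      refine Submodule.topologicalClosure_minimal _ (Submodule.span_le.2 ?_) hSc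
      rintro _ ⟨n, rfl⟩
      have h1 : ∫ x, fourier n x ∂(AddCircle.haarAddCircle (T := 1)) =
          (Pi.single n 1 : ℤ → ℂ) 0 := by
        rw [← fourierCoeff_fourier (T := 1) n, fourierCoeff]
        simp
      change tr (Φ (fourier n) * C) = ∫ x, fourier n x ∂AddCircle.haarAddCircle
      rw [h1]
      obtain ⟨k, rfl | rfl⟩ := Int.eq_nat_or_neg n
      · rw [hΦ, circleCalc_fourier_nat, ← hΦ, hΦ1]
        rcases eq_or_ne k 0 with rfl | hk
        · simpa using htr
        · rw [tr_pow_eq_zero hW2 hP hn k hk, Pi.single_eq_of_ne (by omega)]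
      · rw [hΦ, circleCalc_fourier_neg, circleCalc_fourier_nat, ← hΦ, hΦ1, star_pow]
        rcases eq_or_ne k 0 with rfl | hk
        · simpa using htr
        · rw [tr_pow_eq_zero' hW2 hW1 hP hn k hk, Pi.single_eq_of_ne (by omega)]
    intro p
    exact hle (by rw [span_fourier_closure_eq_top]; trivial)
  -- the singular supports
  choose μ hμ using fun k => exists_spectralMeasure hA (a k)
  choose N hN0 hN using fun k => exists_null_of_no_ac hA hε hno (hμ k)
  let Z : Set ℝ := insert 0 (g '' ⋃ k, N k)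
  have hZ : volume Z = 0 := by
    refine measure_union_null (s := {0}) (measure_singleton _) ?_
    exact addHaar_image_eq_zero_of_differentiableOn_of_addHaar_eq_zero volume
      hg.differentiableOn (measure_iUnion_null hN0)
  let Z' : Set (AddCircle (1 : ℝ)) :=
    toMeasurable AddCircle.haarAddCircle (((↑) : ℝ → AddCircle (1 : ℝ)) '' Z)
  have hZ'm : MeasurableSet Z' := measurableSet_toMeasurable _ _
  have hZ' : AddCircle.haarAddCircle Z'ᶜ = 1 := by
    rw [prob_compl_eq_one_iff hZ'm, measure_toMeasurable, volume_image_mk_null hZ]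
  obtain ⟨K, hK1, hK2, hK3⟩ := hZ'm.compl.exists_lt_isCompact (μ := AddCircle.haarAddCircle)
    (r := 0) (by rw [hZ']; exact zero_lt_one)
  obtain ⟨q, hq01, hq1, hqt⟩ := exists_appr hK2.isClosed
  let p : ℕ → C(AddCircle (1 : ℝ), ℂ) := fun n => ⟨fun x => (q n x : ℂ), by fun_prop⟩
  have hlim : ∀ k, Tendsto (fun n => Φ (p n) (a k)) atTop (𝓝 0) := by
    intro k
    have := (hμ k).1
    let r : ℕ → ℝ →ᵇ ℝ := fun n => (q n).compContinuous
      ⟨fun t => ((g t : ℝ) : AddCircle (1 : ℝ)), by have := hg.continuous; fun_prop⟩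
    have e : ∀ n, ‖Φ (p n) (a k)‖ ^ 2 = ∫ t, r n t ^ 2 ∂(μ k) := by
      intro n
      rw [← (hμ k).norm_sq_cfc hA (r n), hΦ, circleCalc_real hA hg.continuous]
      rfl
    have t1 : Tendsto (fun n => ∫ t, r n t ^ 2 ∂(μ k)) atTop (𝓝 (∫ _, (0 : ℝ) ∂(μ k))) := by
      refine tendsto_integral_of_dominated_convergence (fun _ => 1)
        (fun n => ((r n).continuous.pow 2).aestronglyMeasurable) (integrable_const _)
        (fun n => Eventually.of_forall fun t => ?_) ?_
      · have := hq01 n ((g t : ℝ) : AddCircle (1 : ℝ))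
        rw [Real.norm_of_nonneg (sq_nonneg _)]
        exact pow_le_one₀ this.1 this.2
      · have h1 : ∀ᵐ t ∂(μ k), t ∉ Set.Icc (E - ε) (E + ε) \ N k :=
          measure_eq_zero_iff_ae_notMem.1 (hN k)
        filter_upwards [h1] with t ht
        have h2 : ((g t : ℝ) : AddCircle (1 : ℝ)) ∉ K := by
          intro h3
          apply hK1 h3
          apply subset_toMeasurable
          by_cases h4 : t ∈ Set.Icc (E - ε) (E + ε)
          · have h5 : t ∈ N k := by
              by_contra h5; exact ht ⟨h4, h5⟩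
            exact ⟨g t, Or.inr ⟨t, Set.mem_iUnion.2 ⟨k, h5⟩, rfl⟩, rfl⟩
          · exact ⟨0, Or.inl rfl, by rw [hgI t h4]; rfl⟩
        have h3 := (hqt ((g t : ℝ) : AddCircle (1 : ℝ))).pow 2
        rw [Set.indicator_of_notMem h2, zero_pow two_ne_zero] at h3
        exact h3
    rw [tendsto_zero_iff_norm_tendsto_zero]
    have t2 := t1.sqrt
    simp only [← e, integral_zero, Real.sqrt_zero, Real.sqrt_sq (norm_nonneg _)] at t2
    exact t2
  have hΦn : ∀ n, ‖Φ (p n)‖ ≤ 1 := by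
    intro n
    rw [hΦ, circleCalc_apply]
    refine norm_cfc_le zero_le_one fun z _ => ?_
    have := hq01 n ((z.re : ℝ) : AddCircle (1 : ℝ))
    simpa [p, abs_of_nonneg this.1] using this.2
  have t1 : Tendsto (fun n => tr (Φ (p n) * C)) atTop (𝓝 (∑' _ : ι, (0 : ℂ))) := by
    simp only [tr_mul_eq_tsum hs hT]
    refine tendsto_tsum_of_dominated_convergence hs (fun k => ?_)
      (Eventually.of_forall fun n k => ?_)
    · simpa using (tendsto_const_nhds (x := b k)).inner (𝕜 := ℂ) (hlim k)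
    · calc ‖inner ℂ (b k) (Φ (p n) (a k))‖ ≤ ‖b k‖ * ‖Φ (p n) (a k)‖ := norm_inner_le_norm _ _
        _ ≤ ‖b k‖ * (1 * ‖a k‖) := by
          gcongr
          exact ((Φ (p n)).le_opNorm _).trans (by gcongr; exact hΦn n)
        _ = _ := by ring
  rw [tsum_zero] at t1
  have t2 : ∀ n, AddCircle.haarAddCircle.real K ≤ (tr (Φ (p n) * C)).re := by
    intro n
    rw [hν]
    change _ ≤ (∫ x, ((q n x : ℝ) : ℂ) ∂AddCircle.haarAddCircle).re
    rw [integral_complex_ofReal, Complex.ofReal_re, ← integral_indicator_one hK2.isClosed.measurableSet]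
    refine integral_mono ((integrable_const 1).indicator hK2.isClosed.measurableSet)
      ((q n).integrable _) fun x => ?_
    by_cases hx : x ∈ K
    · simp [hx, hq1 n x hx]
    · simpa [hx] using (hq01 n x).1
  have t3 := ge_of_tendsto' ((Complex.continuous_re.tendsto _).comp t1) t2
  have t4 : 0 < AddCircle.haarAddCircle.real K :=
    ENNReal.toReal_pos hK3.ne' (measure_ne_top _ _)
  simp only [Complex.zero_re] at t3
  linarith

end Pool.Agent.MP_120ee9_mp

end
end

-- part MP_120ee9_mp.Homotopy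
section

/-! The abstract bulk-interface correspondence for the `ℤ₂` index. -/

noncomputable section

namespace Pool.Agent.MP_120ee9_mp

open NormedSpace
open scoped Real ComplexConjugate

variable {H : Type*} [NormedAddCommGroup H] [InnerProductSpace ℂ H] [CompleteSpace H]

/-- the quotient map modulo compacts -/
def qm : (H →L[ℂ] H) →+* (cptIdeal H).ringCon.Quotient := (cptIdeal H).ringCon.mk'

lemma qm_eq_iff {A B : H →L[ℂ] H} : qm A = qm B ↔ A - B ∈ cptIdeal H :=
  (RingCon.eq _).trans (TwoSidedIdeal.rel_iff _ _ _)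

lemma qm_eq_zero_iff {A : H →L[ℂ] H} : qm A = 0 ↔ A ∈ cptIdeal H := by
  rw [← map_zero (qm (H := H)), qm_eq_iff, sub_zero]

lemma isClosed_qm_eq {X : Type*} [TopologicalSpace X] {f g : X → H →L[ℂ] H} (hf : Continuous f)
    (hg : Continuous g) : IsClosed {x | qm (f x) = qm (g x)} := by
  simp only [qm_eq_iff]
  exact isClosed_cptIdeal.preimage (hf.sub hg)

lemma qm_smul_congr {A B : H →L[ℂ] H} (c : ℂ) (h : qm A = qm B) : qm (c • A) = qm (c • B) := by
  rw [qm_eq_iff] at h ⊢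
  rw [← smul_sub]; exact smul_mem_cptIdeal c h

lemma qm_star_congr {A B : H →L[ℂ] H} (h : qm A = qm B) : qm (star A) = qm (star B) := by
  rw [qm_eq_iff] at h ⊢
  rw [← star_sub]; exact star_mem_cptIdeal h

/-- commutation modulo compacts -/
def Cm (A B : H →L[ℂ] H) : Prop := Commute (qm A) (qm B)

lemma Cm.of_commute {A B : H →L[ℂ] H} (h : Commute A B) : Cm A B := h.map qm

lemma cm_iff {A B : H →L[ℂ] H} : Cm A B ↔ qm (A * B) = qm (B * A) := by
  rw [map_mul, map_mul]; rfl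

lemma Cm.symm {A B : H →L[ℂ] H} (h : Cm A B) : Cm B A := Commute.symm h

lemma Cm.mul_right {A B C : H →L[ℂ] H} (h : Cm A B) (h' : Cm A C) : Cm A (B * C) := by
  unfold Cm at *; rw [map_mul]; exact h.mul_right h'

lemma Cm.add_right {A B C : H →L[ℂ] H} (h : Cm A B) (h' : Cm A C) : Cm A (B + C) := by
  unfold Cm at *; rw [map_add]; exact h.add_right h'

lemma Cm.sub_right {A B C : H →L[ℂ] H} (h : Cm A B) (h' : Cm A C) : Cm A (B - C) := by
  unfold Cm at *; rw [map_sub]; exact h.sub_right h'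

lemma Cm.one_right (A : H →L[ℂ] H) : Cm A 1 := .of_commute (Commute.one_right A)

lemma Cm.smul_right {A B : H →L[ℂ] H} (h : Cm A B) (c : ℂ) : Cm A (c • B) := by
  rw [cm_iff] at h ⊢
  rw [mul_smul_comm, smul_mul_assoc]; exact qm_smul_congr c h

lemma Cm.pow_right {A B : H →L[ℂ] H} (h : Cm A B) (n : ℕ) : Cm A (B ^ n) := by
  unfold Cm at *; rw [map_pow]; exact h.pow_right n

lemma Cm.star_right {A B : H →L[ℂ] H} (hA : star A = A) (h : Cm A B) : Cm A (star B) := by
  rw [cm_iff] at h ⊢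
  have := qm_star_congr h
  rw [star_mul, star_mul, hA] at this
  exact this.symm

lemma Cm.exp_right {A B : H →L[ℂ] H} (h : Cm A B) : Cm A (exp B) := by
  refine exp_pair_induction (b := B) (fun x _ => Cm A x) ?_ (.of_commute (Commute.zero_right A))
    (fun _ _ _ _ h1 h2 => h1.add_right h2) (fun c _ _ h1 => h1.smul_right c) fun n => h.pow_right n
  simp only [cm_iff]
  exact isClosed_qm_eq (by fun_prop) (by fun_prop)

lemma Cm.cfc_right {A B : H →L[ℂ] H} (hB : IsSelfAdjoint B) (h : Cm A B) {f : ℝ → ℝ}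
    (hf : ContinuousOn f (spectrum ℝ B)) : Cm A (cfc f B) := by
  refine cfc_pair_induction hB hB (fun x _ => Cm A x) ?_ (Cm.one_right A)
    (fun _ _ _ _ h1 h2 => h1.add_right h2) (fun c _ _ h1 => h1.smul_right c)
    (fun _ _ h1 => h.mul_right h1) hf hf
  simp only [cm_iff]
  exact isClosed_qm_eq (by fun_prop) (by fun_prop)

lemma qm_mul_pow_congr {χ A B : H →L[ℂ] H} (hc : Cm χ B) (h : qm (χ * A) = qm (χ * B)) (n : ℕ) :
    qm (χ * A ^ n) = qm (χ * B ^ n) := by
  induction n with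
  | zero => simp
  | succ n ih =>
    simp only [map_mul, map_pow] at h ih ⊢
    rw [pow_succ', ← mul_assoc, h, hc.eq, mul_assoc, ih, ← mul_assoc, ← hc.eq, mul_assoc,
      ← pow_succ']

lemma qm_mul_exp_congr {χ A B : H →L[ℂ] H} (c : ℂ)
    (h : ∀ n : ℕ, qm (χ * A ^ n) = qm (χ * B ^ n)) :
    qm (χ * exp (c • A)) = qm (χ * exp (c • B)) := by
  refine exp_pair_induction (fun x y => qm (χ * x) = qm (χ * y))
    (isClosed_qm_eq (by fun_prop) (by fun_prop)) rfl
    (fun _ _ _ _ h1 h2 => by rw [mul_add, mul_add, map_add, map_add, h1, h2])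
    (fun c _ _ h1 => by rw [mul_smul_comm, mul_smul_comm]; exact qm_smul_congr c h1) fun n => ?_
  rw [smul_pow, smul_pow, mul_smul_comm, mul_smul_comm]
  exact qm_smul_congr _ (h n)

lemma qm_mul_cfc_congr {χ A B : H →L[ℂ] H} (hA : IsSelfAdjoint A) (hB : IsSelfAdjoint B)
    (hc : Cm χ B) (h : qm (χ * A) = qm (χ * B)) {f : ℝ → ℝ}
    (hfA : ContinuousOn f (spectrum ℝ A)) (hfB : ContinuousOn f (spectrum ℝ B)) :
    qm (χ * cfc f A) = qm (χ * cfc f B) := by
  refine cfc_pair_induction hA hB (fun x y => qm (χ * x) = qm (χ * y))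
    (isClosed_qm_eq (by fun_prop) (by fun_prop)) rfl
    (fun _ _ _ _ h1 h2 => by rw [mul_add, mul_add, map_add, map_add, h1, h2])
    (fun c _ _ h1 => by rw [mul_smul_comm, mul_smul_comm]; exact qm_smul_congr _ h1)
    (fun x y h1 => ?_) hfA hfB
  simp only [map_mul] at h h1 ⊢
  rw [← mul_assoc, h, hc.eq, mul_assoc, h1, ← mul_assoc, ← hc.eq, mul_assoc]

lemma mul_exp_congr {χ A B : H →L[ℂ] H} (h : ∀ n : ℕ, χ * A ^ n = χ * B ^ n) :
    χ * exp A = χ * exp B :=
  exp_pair_induction (fun x y => χ * x = χ * y)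
    (isClosed_eq (by fun_prop) (by fun_prop)) rfl
    (fun _ _ _ _ h1 h2 => by rw [mul_add, mul_add, h1, h2])
    (fun c _ _ h1 => by rw [mul_smul_comm, mul_smul_comm, h1]) h

lemma mul_exp_of_mul_eq_zero {χ A : H →L[ℂ] H} (h : χ * A = 0) : χ * exp A = χ := by
  rw [mul_exp_congr (B := 0), exp_zero, mul_one]
  rintro (_ | n)
  · simp
  · rw [pow_succ', ← mul_assoc, h]; simp

lemma exp_mul_of_mul_eq_zero {χ A : H →L[ℂ] H} (h : A * χ = 0) : exp A * χ = χ := by
  have := mul_exp_of_mul_eq_zero (χ := star χ) (A := star A) (by rw [← star_mul, h, star_zero])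
  rw [← star_exp, ← star_mul] at this
  exact star_injective this

/-- `exp (2 π i A)` -/
def ex (A : H →L[ℂ] H) : H →L[ℂ] H := exp ((2 * π * Complex.I : ℂ) • A)

lemma exp_smul_one (c : ℂ) : exp (c • (1 : H →L[ℂ] H)) = Complex.exp c • 1 := by
  rw [← Algebra.algebraMap_eq_smul_one, ← algebraMap_exp_comm, Complex.exp_eq_exp_ℂ,
    Algebra.algebraMap_eq_smul_one]

lemma ex_idem {Q : H →L[ℂ] H} (hQ : Q * Q = Q) : ex Q = 1 := by
  have h1 : (1 - Q) * ex Q = 1 - Q :=
    mul_exp_of_mul_eq_zero (by rw [mul_smul_comm, sub_mul, hQ, one_mul, sub_self, smul_zero])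
  have h2 : Q * ex Q = Q * exp ((2 * π * Complex.I : ℂ) • 1) := by
    refine mul_exp_congr fun n => ?_
    rw [smul_pow, smul_pow, mul_smul_comm, mul_smul_comm, one_pow, mul_one, ← pow_succ',
      IsIdempotentElem.pow_succ_eq n hQ]
  rw [exp_smul_one, Complex.exp_two_pi_mul_I, one_smul, mul_one] at h2
  have : ex Q = (1 - Q) * ex Q + Q * ex Q := by noncomm_ring
  rw [this, h1, h2]; abel

lemma star_exp_I_smul {A : H →L[ℂ] H} (hA : IsSelfAdjoint A) (t : ℝ) :
    star (exp ((t * Complex.I : ℂ) • A)) = exp (-((t * Complex.I : ℂ) • A)) := by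
  rw [star_exp, star_smul, hA.star_eq, ← neg_smul]
  congr 2
  simp

lemma exp_mul_exp_neg (A : H →L[ℂ] H) : exp A * exp (-A) = 1 := by
  let +nondep : NormedAlgebra ℚ (H →L[ℂ] H) := .restrictScalars ℚ ℂ _
  rw [← exp_add_of_commute (Commute.refl A).neg_right, add_neg_cancel, exp_zero]

lemma exp_I_unitary {A : H →L[ℂ] H} (hA : IsSelfAdjoint A) (t : ℝ) :
    star (exp ((t * Complex.I : ℂ) • A)) * exp ((t * Complex.I : ℂ) • A) = 1 ∧
      exp ((t * Complex.I : ℂ) • A) * star (exp ((t * Complex.I : ℂ) • A)) = 1 := by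
  rw [star_exp_I_smul hA]
  refine ⟨?_, exp_mul_exp_neg _⟩
  simpa using exp_mul_exp_neg (-((t * Complex.I : ℂ) • A))

lemma cj_exp_I {Θ : H ≃ₗᵢ⋆[ℂ] H} {A : H →L[ℂ] H} (hA : IsSelfAdjoint A) (h : cj Θ A = A) (t : ℝ) :
    cj Θ (exp ((t * Complex.I : ℂ) • A)) = star (exp ((t * Complex.I : ℂ) • A)) := by
  rw [cj_exp, star_exp, cj_smul, star_smul, h, hA.star_eq]; rfl

lemma ex_eq (A : H →L[ℂ] H) : ex A = exp ((((2 * π : ℝ) : ℂ) * Complex.I : ℂ) • A) := by
  rw [ex]; push_cast; rfl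

lemma adm_compress {Θ : H ≃ₗᵢ⋆[ℂ] H} {L W : H →L[ℂ] H} (hLL : L * L = L) (hLs : star L = L)
    (hL : cj Θ L = L) (hW1 : star W * W = 1) (hW : cj Θ W = star W) (hc : Cm L W) :
    Adm Θ (compress L W) := by
  have hFs : star (compress L W) = L * star W * L + (1 - L) := by
    rw [compress, star_add, star_sub, star_mul, star_mul, star_one, hLs, mul_assoc]
  refine ⟨by rw [hFs, compress]; simp [hL, hW], ?_⟩
  have hLL' : ∀ Y, L * (L * Y) = L * Y := fun Y => by rw [← mul_assoc, hLL]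
  have hW1' : ∀ Y, star W * (W * Y) = Y := fun Y => by rw [← mul_assoc, hW1, one_mul]
  have : 1 - star (compress L W) * compress L W = -(L * star W * (L * W - W * L) * L) := by
    rw [hFs, compress]
    simp only [mul_add, add_mul, mul_sub, sub_mul, mul_assoc, hLL', hLL, hW1', mul_one, one_mul]
    abel
  rw [this]
  exact (cptIdeal H).neg_mem ((cptIdeal H).mul_mem_right _ _
    ((cptIdeal H).mul_mem_left _ _ (qm_eq_iff.1 (cm_iff.1 hc))))

/-- a `Θ`-invariant orthogonal projection -/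
structure IsProj (Θ : H ≃ₗᵢ⋆[ℂ] H) (P : H →L[ℂ] H) : Prop where
  idem : P * P = P
  sa : star P = P
  inv : cj Θ P = P

lemma IsProj.one_sub {Θ : H ≃ₗᵢ⋆[ℂ] H} {P : H →L[ℂ] H} (h : IsProj Θ P) : IsProj Θ (1 - P) :=
  ⟨by rw [mul_sub, sub_mul, sub_mul, h.idem]; simp, by rw [star_sub, star_one, h.sa],
    by simp [h.inv]⟩

lemma isProj_zero (Θ : H ≃ₗᵢ⋆[ℂ] H) : IsProj Θ (0 : H →L[ℂ] H) := ⟨by simp, by simp, by simp⟩

/-- the convex class of self-adjoint operators that look like `Qp`, `Qm` near the two rays -/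
structure InS (Θ : H ≃ₗᵢ⋆[ℂ] H) (L χp χm Qp Qm A : H →L[ℂ] H) : Prop where
  sa : IsSelfAdjoint A
  inv : cj Θ A = A
  cp : Cm χp A
  cm : Cm χm A
  cd : Cm (L * (1 - χp - χm)) A
  ep : qm (χp * A) = qm (χp * Qp)
  em : qm (χm * A) = qm (χm * Qm)

section S

variable {Θ : H ≃ₗᵢ⋆[ℂ] H} {L χp χm Qp Qm : H →L[ℂ] H}

lemma InS.adm {A : H →L[ℂ] H} (h : InS Θ L χp χm Qp Qm A) (hL : IsProj Θ L)
    (hLp : Commute L χp) (hLm : Commute L χm) (hQp : Qp * Qp = Qp) (hQm : Qm * Qm = Qm)
    (hp : Cm χp Qp) (hm : Cm χm Qm) : Adm Θ (compress L (ex A)) := by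
  have h1 : qm (χp * ex A) = qm χp := by
    have := qm_mul_exp_congr (2 * π * Complex.I) (qm_mul_pow_congr hp h.ep)
    rwa [show exp ((2 * π * Complex.I : ℂ) • Qp) = 1 from ex_idem hQp, mul_one] at this
  have h2 : qm (χm * ex A) = qm χm := by
    have := qm_mul_exp_congr (2 * π * Complex.I) (qm_mul_pow_congr hm h.em)
    rwa [show exp ((2 * π * Complex.I : ℂ) • Qm) = 1 from ex_idem hQm, mul_one] at this
  have c1 : Cm χp (ex A) := (h.cp.smul_right _).exp_right
  have c2 : Cm χm (ex A) := (h.cm.smul_right _).exp_right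
  have c3 : Cm (L * (1 - χp - χm)) (ex A) := (h.cd.smul_right _).exp_right
  refine adm_compress hL.idem hL.sa hL.inv ?_ ?_ ?_
  · rw [ex_eq]; exact (exp_I_unitary h.sa _).1
  · rw [ex_eq]; exact cj_exp_I h.sa h.inv _
  · have c4 := (Cm.of_commute hLp).eq
    have c5 := (Cm.of_commute hLm).eq
    unfold Cm at c1 c2 c3 ⊢
    simp only [map_mul, map_sub, map_one] at h1 h2 c3
    set w := qm (ex A)
    set l := qm L
    set p := qm χp
    set m := qm χm
    have h1' : w * p = p := by rw [← c1.eq, h1]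
    have h2' : w * m = m := by rw [← c2.eq, h2]
    have e1 : l * (1 - p - m) * w = l * w - l * p - l * m := by
      rw [mul_assoc, sub_mul, sub_mul, h1, h2, one_mul, mul_sub, mul_sub]
    have e2 : w * (l * (1 - p - m)) = w * l - l * p - l * m := by
      simp only [mul_sub, mul_one]
      rw [c4, c5, ← mul_assoc, ← mul_assoc, h1', h2']
    have e3 := c3.eq
    rw [e1, e2] at e3
    exact sub_left_injective (sub_left_injective e3)

lemma InS.affine {A B : H →L[ℂ] H} (hA : InS Θ L χp χm Qp Qm A) (hB : InS Θ L χp χm Qp Qm B)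
    (t : ℝ) : InS Θ L χp χm Qp Qm (A + (t : ℂ) • (B - A)) where
  sa := by
    rw [IsSelfAdjoint, star_add, star_smul, star_sub, hA.sa.star_eq, hB.sa.star_eq]; simp
  inv := by rw [cj_add, cj_smul, cj_sub, hA.inv, hB.inv, Complex.conj_ofReal]
  cp := hA.cp.add_right ((hB.cp.sub_right hA.cp).smul_right _)
  cm := hA.cm.add_right ((hB.cm.sub_right hA.cm).smul_right _)
  cd := hA.cd.add_right ((hB.cd.sub_right hA.cd).smul_right _)
  ep := by
    have : qm (χp * (B - A)) = qm 0 := by rw [mul_sub, map_sub, hA.ep, hB.ep, sub_self, map_zero]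
    rw [mul_add, mul_smul_comm, map_add, qm_smul_congr _ this, hA.ep]; simp
  em := by
    have : qm (χm * (B - A)) = qm 0 := by rw [mul_sub, map_sub, hA.em, hB.em, sub_self, map_zero]
    rw [mul_add, mul_smul_comm, map_add, qm_smul_congr _ this, hA.em]; simp

lemma continuous_ex : Continuous (ex : (H →L[ℂ] H) → H →L[ℂ] H) := by
  let +nondep : NormedAlgebra ℚ (H →L[ℂ] H) := .restrictScalars ℚ ℂ _
  unfold ex
  fun_prop

lemma InS.ind2_eq (hΘ : ∀ x, Θ (Θ x) = -x) {A B : H →L[ℂ] H} (hA : InS Θ L χp χm Qp Qm A)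
    (hB : InS Θ L χp χm Qp Qm B) (hL : IsProj Θ L)
    (hLp : Commute L χp) (hLm : Commute L χm) (hQp : Qp * Qp = Qp) (hQm : Qm * Qm = Qm)
    (hp : Cm χp Qp) (hm : Cm χm Qm) : ind2 (compress L (ex A)) = ind2 (compress L (ex B)) := by
  have := ind2_eq_of_path hΘ (fun t : ℝ => compress L (ex (A + (t : ℂ) • (B - A))))
    (by have := continuous_ex (H := H); unfold compress; fun_prop)
    (fun t _ => (hA.affine hB t).adm hL hLp hLm hQp hQm hp hm)
  simpa using this

end S

omit [CompleteSpace H] in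
lemma compress_eq {L W : H →L[ℂ] H} (hL : L * L = L) : compress L W = 1 + L * (W - 1) * L := by
  rw [compress, mul_sub, sub_mul, mul_one, hL]; abel

lemma ind2_ex_block {Θ : H ≃ₗᵢ⋆[ℂ] H} {L Q A B : H →L[ℂ] H} (hL : L * L = L) (hQ : Q * Q = Q)
    (hLQ : Commute L Q) (hA1 : Q * A = A) (hA2 : A * Q = A) (hB1 : Q * B = 0) (hB2 : B * Q = 0)
    (ha : Adm Θ (compress L (ex A))) (hb : Adm Θ (compress L (ex B))) :
    ind2 (compress L (ex (A + B))) = ind2 (compress L (ex A)) + ind2 (compress L (ex B)) := by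
  let +nondep : NormedAlgebra ℚ (H →L[ℂ] H) := .restrictScalars ℚ ℂ _
  have hAB : A * B = 0 := by rw [← hA2, mul_assoc, hB1, mul_zero]
  have hBA : B * A = 0 := by rw [← hA1, ← mul_assoc, hB2, zero_mul]
  have a1 : (1 - Q) * ex A = 1 - Q :=
    mul_exp_of_mul_eq_zero (by rw [mul_smul_comm, sub_mul, hA1, one_mul, sub_self, smul_zero])
  have a2 : ex A * (1 - Q) = 1 - Q :=
    exp_mul_of_mul_eq_zero (by rw [smul_mul_assoc, mul_sub, hA2, mul_one, sub_self, smul_zero])
  have b1 : Q * ex B = Q := mul_exp_of_mul_eq_zero (by rw [mul_smul_comm, hB1, smul_zero])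
  have b2 : ex B * Q = Q := exp_mul_of_mul_eq_zero (by rw [smul_mul_assoc, hB2, smul_zero])
  have a1' : Q * (ex A - 1) = ex A - 1 := by
    rw [sub_mul, one_mul] at a1
    rw [mul_sub, mul_one, ← sub_eq_zero, ← neg_eq_zero, ← sub_eq_zero.2 a1]; abel
  have a2' : (ex A - 1) * Q = ex A - 1 := by
    rw [mul_sub, mul_one] at a2
    rw [sub_mul, one_mul, ← sub_eq_zero, ← neg_eq_zero, ← sub_eq_zero.2 a2]; abel
  have b1' : Q * (ex B - 1) = 0 := by rw [mul_sub, b1, mul_one, sub_self]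
  have b2' : (ex B - 1) * Q = 0 := by rw [sub_mul, b2, one_mul, sub_self]
  have e : ex (A + B) - 1 = (ex A - 1) + (ex B - 1) := by
    have h1 : ex (A + B) = ex A * ex B := by
      rw [ex, smul_add, exp_add_of_commute]
      · rfl
      · exact (Commute.smul_left (show A * B = B * A by rw [hAB, hBA]) _).smul_right _
    have h2 : (ex A - 1) * (ex B - 1) = 0 := by rw [← a2', mul_assoc, b1', mul_zero]
    rw [h1, ← sub_eq_zero, ← h2]; noncomm_ring
  have f1 := finiteDimensional_ker ha.cpt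
  have f2 := finiteDimensional_ker hb.cpt
  rw [compress_eq hL] at f1 f2
  rw [compress_eq hL, compress_eq hL, compress_eq hL, e, mul_add, add_mul, ← add_assoc]
  refine ind2_block (Q := Q) hQ ?_ ?_ ?_ ?_
  · rw [← mul_assoc, ← mul_assoc, ← hLQ.eq, mul_assoc L Q, a1']
  · rw [mul_assoc, hLQ.eq, ← mul_assoc, mul_assoc L, a2']
  · rw [← mul_assoc, ← mul_assoc, ← hLQ.eq, mul_assoc L Q, b1', mul_zero, zero_mul]
  · rw [mul_assoc, hLQ.eq, ← mul_assoc, mul_assoc L, b2', mul_zero, zero_mul]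

lemma qm_compress_ex {L P k : H →L[ℂ] H} (hL : L * L = L) (hP : P * P = P) (hc : Cm P k)
    (hLk : Commute L k) (hu : Cm P (L * (ex k - 1))) :
    qm (compress L (ex (P * k * P))) = qm (compress P (1 + L * (ex k - 1))) := by
  have h1 : qm (P * ex (P * k * P)) = qm (P * ex k) := by
    refine qm_mul_exp_congr _ (qm_mul_pow_congr hc ?_)
    have := hc.eq
    simp only [map_mul]
    rw [← mul_assoc, ← mul_assoc, ← map_mul, hP, mul_assoc, ← this, ← mul_assoc, ← map_mul, hP]
  have h2 : (1 - P) * ex (P * k * P) = 1 - P :=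
    mul_exp_of_mul_eq_zero (by
      rw [mul_smul_comm, ← mul_assoc, ← mul_assoc, sub_mul, hP, one_mul, sub_self]; simp)
  have h3 : ex (P * k * P) - 1 = P * ex (P * k * P) - P := by
    rw [sub_mul, one_mul] at h2
    rw [← sub_eq_zero, ← sub_eq_zero.2 h2]; abel
  have c1 : Cm P (ex k - 1) := ((hc.smul_right _).exp_right).sub_right (Cm.one_right P)
  have c2 : Commute L (ex k - 1) := ((hLk.smul_right _).exp_right).sub_right (Commute.one_right L)
  have c3 : L * (ex k - 1) * L = L * (ex k - 1) := by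
    rw [mul_assoc, ← c2.eq, ← mul_assoc, hL]
  rw [compress_eq hL, compress_eq hP, h3, add_sub_cancel_left, map_add, map_add, map_mul, map_mul,
    map_sub, h1, ← map_sub, ← mul_sub_one, map_mul, c1.eq, ← mul_assoc, ← map_mul, ← hu.eq,
    mul_assoc, ← map_mul, c3, map_mul qm (P * _), map_mul qm P, mul_assoc, ← hu.eq, ← mul_assoc,
    ← map_mul qm P P, hP]

lemma ind2_compress_phase {Θ : H ≃ₗᵢ⋆[ℂ] H} (hΘ : ∀ x, Θ (Θ x) = -x) {P U η : H →L[ℂ] H}
    (hP : IsProj Θ P) (hU1 : star U * U = 1) (hU : cj Θ U = star U) (hη : IsSelfAdjoint η)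
    (hη' : cj Θ η = η) (hUη : Commute (star U) η) (c1 : Cm P U) (c2 : Cm P η) (s : ℝ) :
    Adm Θ (compress P (U * exp ((s * Complex.I : ℂ) • η))) ∧
    ind2 (compress P (U * exp ((s * Complex.I : ℂ) • η))) = ind2 (compress P U) := by
  let +nondep : NormedAlgebra ℚ (H →L[ℂ] H) := .restrictScalars ℚ ℂ _
  have key : ∀ t : ℝ, Adm Θ (compress P (U * exp ((t * Complex.I : ℂ) • η))) := by
    intro t
    refine adm_compress hP.idem hP.sa hP.inv ?_ ?_ (c1.mul_right (c2.smul_right _).exp_right)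
    · rw [star_mul, mul_assoc, ← mul_assoc (star U), hU1, one_mul, (exp_I_unitary hη t).1]
    · rw [cj_mul, hU, cj_exp_I hη hη', star_mul, star_exp_I_smul hη]
      exact ((hUη.smul_right _).neg_right.exp_right).eq
  refine ⟨key s, ?_⟩
  have := ind2_eq_of_path hΘ (fun t : ℝ => compress P (U * exp (((t * s : ℝ) * Complex.I : ℂ) • η)))
    (by unfold compress; fun_prop) (fun t _ => key _)
  simpa using this.symm

theorem ind2_interface {Θ : H ≃ₗᵢ⋆[ℂ] H} (hΘ : ∀ x, Θ (Θ x) = -x)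
    {L Q Pp Pm χp χm k η U A : H →L[ℂ] H} (hL : IsProj Θ L) (hQ : IsProj Θ Q) (hPp : IsProj Θ Pp)
    (hPm : IsProj Θ Pm) (hA : InS Θ L χp χm Pp Pm A)
    (hLQ : Commute L Q) (hLp : Commute L χp) (hLm : Commute L χm) (hLk : Commute L k)
    (hQp : χp * Q = χp) (hQp' : Q * χp = χp) (hQm : χm * Q = 0) (hQm' : Q * χm = 0)
    (hkp : Commute χp k) (hkm : Commute χm k)
    (hk : IsSelfAdjoint k) (hk' : cj Θ k = k) (hη : IsSelfAdjoint η) (hη' : cj Θ η = η)
    (hU1 : star U * U = 1) (hU2 : U * star U = 1) (hU : cj Θ U = star U) (hUη : Commute U η)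
    (cP : ∀ P, P = Pp ∨ P = Pm → Cm χp P ∧ Cm χm P ∧ Cm (L * (1 - χp - χm)) P ∧ Cm P k ∧
      Cm P η ∧ Cm P U)
    (ek1 : qm (χp * k) = qm χp) (ek2 : qm (χm * k) = 0)
    (eu : 1 + L * (ex k - 1) = star U * exp (((1 : ℝ) * Complex.I : ℂ) • η)) :
    ind2 (compress L (ex A)) = ind2 (compress Pp U) + ind2 (compress Pm U) := by
  obtain ⟨p1, p2, p3, p4, p5, p6⟩ := cP Pp (Or.inl rfl)
  obtain ⟨m1, m2, m3, m4, m5, m6⟩ := cP Pm (Or.inr rfl)
  have hQ' := hQ.one_sub
  have q1 : Commute χp Q := hQp.trans hQp'.symm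
  have q2 : Commute χm Q := hQm.trans hQm'.symm
  have q3 : Commute (L * (1 - χp - χm)) Q :=
    hLQ.mul_left (((Commute.one_left Q).sub_left q1).sub_left q2)
  have k3 : Commute (L * (1 - χp - χm)) k :=
    hLk.mul_left (((Commute.one_left k).sub_left hkp).sub_left hkm)
  have r1 : Commute χp (1 - Q) := (Commute.one_right _).sub_right q1
  have r2 : Commute χm (1 - Q) := (Commute.one_right _).sub_right q2
  have r3 : Commute (L * (1 - χp - χm)) (1 - Q) := (Commute.one_right _).sub_right q3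
  have hRp : χp * (1 - Q) = 0 := by rw [mul_sub, hQp, mul_one, sub_self]
  have hRm : χm * (1 - Q) = χm := by rw [mul_sub, hQm, mul_one, sub_zero]
  have z1 : ∀ X : H →L[ℂ] H, Cm X 0 := fun X => .of_commute (Commute.zero_right X)
  -- general sandwiches
  have sand : ∀ (R P Qp Qm : H →L[ℂ] H), IsSelfAdjoint R → cj Θ R = R → IsSelfAdjoint P →
      cj Θ P = P → Cm χp R → Cm χm R → Cm (L * (1 - χp - χm)) R → Cm χp P → Cm χm P →
      Cm (L * (1 - χp - χm)) P → qm (χp * (R * P * R)) = qm (χp * Qp) →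
      qm (χm * (R * P * R)) = qm (χm * Qm) → InS Θ L χp χm Qp Qm (R * P * R) := by
    intro R P Qp Qm a1 a2 a3 a4 a5 a6 a7 a8 a9 a10 a11 a12
    exact ⟨by rw [IsSelfAdjoint, star_mul, star_mul, a1.star_eq, a3.star_eq, mul_assoc],
      by rw [cj_mul, cj_mul, a2, a4], (a5.mul_right a8).mul_right a5,
      (a6.mul_right a9).mul_right a6, (a7.mul_right a10).mul_right a7, a11, a12⟩
  have fix1 : ∀ (χ R P : H →L[ℂ] H), χ * R = χ → Cm χ P → qm (χ * (R * P * R)) = qm (χ * P) := by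
    intro χ R P a1 a2
    rw [← mul_assoc, ← mul_assoc, a1, map_mul, cm_iff.1 a2, ← map_mul, mul_assoc, a1]
  have fix0 : ∀ (χ R P : H →L[ℂ] H), χ * R = 0 → qm (χ * (R * P * R)) = qm (χ * 0) := by
    intro χ R P a1
    rw [← mul_assoc, ← mul_assoc, a1]; simp
  have fixk : ∀ (χ P κ : H →L[ℂ] H), P * P = P → Cm χ P → qm (χ * κ) = qm χ →
      qm (χ * (P * κ * P)) = qm (χ * P) := by
    intro χ P κ a1 a2 a3
    simp only [map_mul] at a3 ⊢
    rw [← mul_assoc, ← mul_assoc, a2.eq, mul_assoc (qm P), a3, ← a2.eq, mul_assoc, ← map_mul qm P,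
      a1]
  have fixk0 : ∀ (χ P κ : H →L[ℂ] H), Cm χ P → qm (χ * κ) = 0 →
      qm (χ * (P * κ * P)) = qm (χ * 0) := by
    intro χ P κ a2 a3
    simp only [map_mul] at a3 ⊢
    rw [← mul_assoc, ← mul_assoc, a2.eq, mul_assoc (qm P), a3]; simp
  have sBp : InS Θ L χp χm Pp 0 (Q * Pp * Q) :=
    sand Q Pp Pp 0 hQ.sa hQ.inv hPp.sa hPp.inv (.of_commute q1) (.of_commute q2) (.of_commute q3)
      p1 p2 p3 (fix1 _ _ _ hQp p1) (fix0 _ _ _ hQm)
  have sBm : InS Θ L χp χm 0 Pm ((1 - Q) * Pm * (1 - Q)) :=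
    sand (1 - Q) Pm 0 Pm hQ'.sa hQ'.inv hPm.sa hPm.inv (.of_commute r1) (.of_commute r2)
      (.of_commute r3) m1 m2 m3 (fix0 _ _ _ hRp) (fix1 _ _ _ hRm m2)
  have sB : InS Θ L χp χm Pp Pm (Q * Pp * Q + (1 - Q) * Pm * (1 - Q)) :=
    ⟨sBp.sa.add sBm.sa, by rw [cj_add, sBp.inv, sBm.inv], sBp.cp.add_right sBm.cp,
      sBp.cm.add_right sBm.cm, sBp.cd.add_right sBm.cd,
      by rw [mul_add, map_add, sBp.ep, sBm.ep]; simp,
      by rw [mul_add, map_add, sBp.em, sBm.em]; simp⟩
  have sKp : InS Θ L χp χm Pp 0 (Pp * k * Pp) :=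
    sand Pp k Pp 0 hPp.sa hPp.inv hk hk' p1 p2 p3 (.of_commute hkp) (.of_commute hkm)
      (.of_commute k3) (fixk _ _ _ hPp.idem p1 ek1) (fixk0 _ _ _ p2 ek2)
  have sKm : InS Θ L χp χm 0 Pm (Pm * (1 - k) * Pm) :=
    sand Pm (1 - k) 0 Pm hPm.sa hPm.inv ((IsSelfAdjoint.one _).sub hk) (by simp [hk']) m1 m2 m3
      (.of_commute ((Commute.one_right _).sub_right hkp))
      (.of_commute ((Commute.one_right _).sub_right hkm))
      (.of_commute ((Commute.one_right _).sub_right k3))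
      (fixk0 _ _ _ m1 (by rw [mul_sub, map_sub, ek1, mul_one, sub_self]))
      (fixk _ _ _ hPm.idem m2 (by rw [mul_sub, map_sub, ek2, mul_one, sub_zero]))
  have z : (0 : H →L[ℂ] H) * 0 = 0 := mul_zero _
  rw [hA.ind2_eq hΘ sB hL hLp hLm hPp.idem hPm.idem p1 m2,
    ind2_ex_block (Q := Q) hL.idem hQ.idem hLQ
      (by rw [← mul_assoc, ← mul_assoc, hQ.idem]) (by rw [mul_assoc, hQ.idem])
      (by rw [← mul_assoc, ← mul_assoc, mul_sub Q, hQ.idem]; simp)
      (by rw [mul_assoc, sub_mul 1 Q Q, hQ.idem]; simp)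
      (sBp.adm hL hLp hLm hPp.idem z p1 (z1 _)) (sBm.adm hL hLp hLm z hPm.idem (z1 _) m2),
    sBp.ind2_eq hΘ sKp hL hLp hLm hPp.idem z p1 (z1 _),
    sBm.ind2_eq hΘ sKm hL hLp hLm z hPm.idem (z1 _) m2]
  have hUs : cj Θ (star U) = star (star U) := by rw [cj_star, hU]
  have hUη' : Commute (star U) η := by
    have := hUη.star_star
    rwa [hη.star_eq] at this
  -- the plus part
  obtain ⟨ap, ip⟩ := ind2_compress_phase hΘ hPp (U := star U) (by rw [star_star, hU2]) hUs hη hη'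
    (by rwa [star_star]) (p6.star_right hPp.sa) p5 1
  have cu : ∀ P : H →L[ℂ] H, star P = P → Cm P η → Cm P U → Cm P (L * (ex k - 1)) := by
    intro P a1 a2 a3
    rw [← add_sub_cancel_left 1 (L * (ex k - 1)), eu]
    exact ((a3.star_right a1).mul_right (a2.smul_right _).exp_right).sub_right (Cm.one_right P)
  have e1 : ind2 (compress L (ex (Pp * k * Pp))) = ind2 (compress Pp U) := by
    have h1 := qm_compress_ex hL.idem hPp.idem p4 hLk (cu Pp hPp.sa p5 p6)
    rw [eu] at h1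
    rw [ind2_eq_of_sub_mem hΘ ap (sKp.adm hL hLp hLm hPp.idem z p1 (z1 _)).odd (qm_eq_iff.1 h1),
      ip]
    have h2 : compress Pp (star U) = star (compress Pp U) := by
      rw [compress, compress, star_add, star_sub, star_mul, star_mul, star_one, hPp.sa, mul_assoc]
    rw [h2, ind2_star (adm_compress hPp.idem hPp.sa hPp.inv hU1 hU p6).odd]
  -- the minus part
  obtain ⟨am, im⟩ := ind2_compress_phase hΘ hPm hU1 hU hη hη' hUη' m6 m5 (-1)
  have hex : ex (1 - k) = star (ex k) := by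
    let +nondep : NormedAlgebra ℚ (H →L[ℂ] H) := .restrictScalars ℚ ℂ _
    rw [ex_eq k, star_exp_I_smul hk, ex_eq, smul_sub, sub_eq_add_neg,
      exp_add_of_commute (((Commute.one_left k).smul_left _).smul_right _).neg_right, ← ex_eq,
      ex_idem (one_mul 1), one_mul]
  have c2 : Commute L (ex k - 1) := ((hLk.smul_right _).exp_right).sub_right (Commute.one_right L)
  have eu' : L * (ex (1 - k) - 1) = star (L * (ex k - 1)) := by
    rw [c2.eq, star_mul, star_sub, star_one, hL.sa, hex]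
  have eu'' : 1 + L * (ex (1 - k) - 1) = U * exp (((-1 : ℝ) * Complex.I : ℂ) • η) := by
    rw [eu', ← star_one (H →L[ℂ] H), ← star_add, star_one, eu, star_mul, star_star,
      star_exp_I_smul hη, ← (hUη.smul_right _).neg_right.exp_right.eq, ← neg_smul]
    congr 3
    simp
  have e2 : ind2 (compress L (ex (Pm * (1 - k) * Pm))) = ind2 (compress Pm U) := by
    have h1 := qm_compress_ex hL.idem hPm.idem ((Cm.one_right Pm).sub_right m4)
      ((Commute.one_right L).sub_right hLk)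
      (by rw [eu']; exact (cu Pm hPm.sa m5 m6).star_right hPm.sa)
    rw [eu''] at h1
    rw [ind2_eq_of_sub_mem hΘ am (sKm.adm hL hLp hLm z hPm.idem (z1 _) m2).odd (qm_eq_iff.1 h1),
      im]
  rw [e1, e2]

end Pool.Agent.MP_120ee9_mp

end
end

-- part MP_120ee9_mp.Concrete
section

/-! The concrete model `ℓ²(ℤ²; ℂ^m)` used in the proof. -/

noncomputable section

namespace Pool.Agent.MP_120ee9_mp

open scoped BoundedContinuousFunction

/-- The Hilbert space `ℓ²(ℤ²; ℂ^m)`. -/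
abbrev Hilb (m : ℕ) : Type := lp (fun _ : ℤ × ℤ => EuclideanSpace ℂ (Fin m)) 2

/-- The `m × m` block `A_{xy}` of an operator. -/
def entry {m : ℕ} (A : Hilb m →L[ℂ] Hilb m) (x y : ℤ × ℤ) :
    EuclideanSpace ℂ (Fin m) →L[ℂ] EuclideanSpace ℂ (Fin m) :=
  (lp.evalCLM ℂ (fun _ : ℤ × ℤ => EuclideanSpace ℂ (Fin m)) 2 x) ∘L A ∘L
    (lp.singleContinuousLinearMap ℂ (fun _ : ℤ × ℤ => EuclideanSpace ℂ (Fin m)) 2 y)

/-- Locality: exponential off-diagonal decay of the blocks. -/
def IsLocal {m : ℕ} (A : Hilb m →L[ℂ] Hilb m) : Prop :=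
  ∃ ν : ℝ, 0 < ν ∧ ∀ x y, ‖entry A x y‖ ≤ ν⁻¹ * Real.exp (-ν * ‖pt x - pt y‖)

theorem memℓp_mul {m : ℕ} (h : ℤ × ℤ →ᵇ ℂ) (ψ : Hilb m) : Memℓp (fun x => h x • ψ x) 2 :=
  ((lp.memℓp ψ).const_smul (‖h‖ : ℂ)).mono' fun x => by
    simp only [Pi.smul_apply, norm_smul, Complex.norm_real, norm_norm]
    exact mul_le_mul_of_nonneg_right (h.norm_coe_le_norm x) (norm_nonneg _)

/-- Multiplication by a bounded function of the position, `(h ψ)(x) = h(x) ψ(x)`. -/
def mulOp {m : ℕ} (h : ℤ × ℤ →ᵇ ℂ) : Hilb m →L[ℂ] Hilb m :=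
  LinearMap.mkContinuous
    { toFun := fun ψ => ⟨fun x => h x • ψ x, memℓp_mul h ψ⟩
      map_add' := fun ψ φ => lp.ext (funext fun x => smul_add (h x) (ψ x) (φ x))
      map_smul' := fun c ψ => lp.ext (funext fun x => smul_comm (h x) c (ψ x)) }
    ‖h‖ fun ψ => by
      have := lp.norm_mono (p := 2) (by norm_num)
        (x := (⟨fun x => h x • ψ x, memℓp_mul h ψ⟩ : Hilb m)) (y := (‖h‖ : ℂ) • ψ) fun x => by
          simp only [lp.coeFn_smul, Pi.smul_apply, norm_smul, Complex.norm_real, norm_norm]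
          exact mul_le_mul_of_nonneg_right (h.norm_coe_le_norm x) (norm_nonneg _)
      rw [norm_smul, Complex.norm_real, norm_norm] at this
      exact this

/-- `Λ_S`: multiplication by the indicator function of `S ∩ ℤ²`. -/
def Lam {m : ℕ} (S : Set ℂ) : Hilb m →L[ℂ] Hilb m :=
  mulOp (BoundedContinuousFunction.ofNormedAddCommGroupDiscrete
    (fun x => S.indicator (fun _ => (1 : ℂ)) (pt x)) 1 fun x => by
      by_cases h : pt x ∈ S <;> simp [h])

/-- `U = exp (i arg (X₁ + i X₂))`. -/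
def flux {m : ℕ} : Hilb m →L[ℂ] Hilb m :=
  mulOp (BoundedContinuousFunction.ofNormedAddCommGroupDiscrete
    (fun x => Complex.exp (Complex.arg (pt x) * Complex.I)) 1 fun _ =>
      (Complex.norm_exp_ofReal_mul_I _).le)

/-- The Fu-Kane-Mele index of `A` at Fermi energy `E`. -/
def fkm {m : ℕ} (A : Hilb m →L[ℂ] Hilb m) (E : ℝ) : ZMod 2 :=
  ind2 (compress (fermi A E) flux)

/-- The antiunitary `Θ` squares to `-1` and commutes with the position operators `X₁, X₂`
(`Θ X_j ⊆ X_j Θ`: if `φ = X_j ψ` then `Θ φ = X_j Θ ψ`). -/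
def IsTimeReversal {m : ℕ} (Θ : Hilb m ≃ₗᵢ⋆[ℂ] Hilb m) : Prop :=
  (∀ ψ, Θ (Θ ψ) = -ψ) ∧
  (∀ ψ φ : Hilb m, (∀ x, φ x = (x.1 : ℂ) • ψ x) → ∀ x, Θ φ x = (x.1 : ℂ) • Θ ψ x) ∧
  (∀ ψ φ : Hilb m, (∀ x, φ x = (x.2 : ℂ) • ψ x) → ∀ x, Θ φ x = (x.2 : ℂ) • Θ ψ x)

/-- `A` is an interface Hamiltonian compatible with `Hp`, `Hm` and `Ω`. -/
def IsInterface {m : ℕ} (Hp Hm : Hilb m →L[ℂ] Hilb m) (Ω : Set ℂ) (A : Hilb m →L[ℂ] Hilb m) :
    Prop :=
  IsSelfAdjoint A ∧ IsLocal A ∧ ∃ ν : ℝ, 0 < ν ∧ ∀ x y,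
    ‖entry (A - Lam Ω * Hp * Lam Ω - Lam Ωᶜ * Hm * Lam Ωᶜ) x y‖ ≤
      ν⁻¹ * Real.exp (-ν * Metric.infDist (pt x) (frontier Ω))

end Pool.Agent.MP_120ee9_mp

end
end
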