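import Pool.Agent.MP_120ee9_mp.Mg.Concrete

-- part MP_120ee9_mp.Lattice
section

/-! Multiplication operators, kernels, the Schur test, compactness and nuclearity criteria. -/

noncomputable section

namespace Pool.Agent.MP_120ee9_mp

open Filter Topology InnerProductSpace
open scoped BoundedContinuousFunction ComplexConjugate

variable {m : ℕ}

@[simp] lemma mulOp_apply (h : ℤ × ℤ →ᵇ ℂ) (ψ : Hilb m) (x : ℤ × ℤ) :
    mulOp h ψ x = h x • ψ x := rfl

lemma op_ext {A B : Hilb m →L[ℂ] Hilb m} (h : ∀ ψ x, A ψ x = B ψ x) : A = B :=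
  ContinuousLinearMap.ext fun ψ => lp.ext (funext (h ψ))

lemma norm_mulOp_le (h : ℤ × ℤ →ᵇ ℂ) : ‖(mulOp h : Hilb m →L[ℂ] Hilb m)‖ ≤ ‖h‖ :=
  LinearMap.mkContinuous_norm_le _ (norm_nonneg _) _

lemma star_mulOp (h : ℤ × ℤ →ᵇ ℂ) : star (mulOp h : Hilb m →L[ℂ] Hilb m) = mulOp (star h) := by
  rw [ContinuousLinearMap.star_eq_adjoint, eq_comm, ContinuousLinearMap.eq_adjoint_iff]
  intro φ ψ
  rw [lp.inner_eq_tsum, lp.inner_eq_tsum]
  congr 1
  ext x
  simp [inner_smul_left, inner_smul_right]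

/-- multiplication operators as a star algebra homomorphism -/
def mulHom (m : ℕ) : (ℤ × ℤ →ᵇ ℂ) →⋆ₐ[ℂ] (Hilb m →L[ℂ] Hilb m) where
  toFun := mulOp
  map_one' := op_ext fun ψ x => by simp
  map_mul' f g := op_ext fun ψ x => by simp [mul_smul]
  map_zero' := op_ext fun ψ x => by simp
  map_add' f g := op_ext fun ψ x => by simp [add_smul]
  commutes' c := op_ext fun ψ x => by simp [Algebra.algebraMap_eq_smul_one]
  map_star' h := (star_mulOp h).symm

lemma mulOp_mul (f g : ℤ × ℤ →ᵇ ℂ) :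
    (mulOp (f * g) : Hilb m →L[ℂ] Hilb m) = mulOp f * mulOp g := map_mul (mulHom m) f g

lemma mulOp_add (f g : ℤ × ℤ →ᵇ ℂ) :
    (mulOp (f + g) : Hilb m →L[ℂ] Hilb m) = mulOp f + mulOp g := map_add (mulHom m) f g

lemma mulOp_sub (f g : ℤ × ℤ →ᵇ ℂ) :
    (mulOp (f - g) : Hilb m →L[ℂ] Hilb m) = mulOp f - mulOp g := map_sub (mulHom m) f g

lemma mulOp_smul (c : ℂ) (f : ℤ × ℤ →ᵇ ℂ) :
    (mulOp (c • f) : Hilb m →L[ℂ] Hilb m) = c • mulOp f := map_smul (mulHom m) c f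

lemma mulOp_one : (mulOp 1 : Hilb m →L[ℂ] Hilb m) = 1 := map_one (mulHom m)

lemma mulOp_zero : (mulOp 0 : Hilb m →L[ℂ] Hilb m) = 0 := map_zero (mulHom m)

lemma mulOp_commute (f g : ℤ × ℤ →ᵇ ℂ) :
    Commute (mulOp f : Hilb m →L[ℂ] Hilb m) (mulOp g) := (Commute.all f g).map (mulHom m)

lemma continuous_mulOp : Continuous (mulOp : (ℤ × ℤ →ᵇ ℂ) → Hilb m →L[ℂ] Hilb m) := by
  have : LipschitzWith 1 (mulOp : (ℤ × ℤ →ᵇ ℂ) → Hilb m →L[ℂ] Hilb m) :=
    LipschitzWith.of_dist_le_mul fun f g => by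
      rw [dist_eq_norm, dist_eq_norm, ← mulOp_sub]; simpa using norm_mulOp_le (f - g)
  exact this.continuous

lemma exp_bcf_apply (f : ℤ × ℤ →ᵇ ℂ) (x : ℤ × ℤ) : NormedSpace.exp f x = Complex.exp (f x) := by
  let +nondep : NormedAlgebra ℚ (ℤ × ℤ →ᵇ ℂ) := .restrictScalars ℚ ℂ _
  let ev : (ℤ × ℤ →ᵇ ℂ) →+* ℂ :=
    { toFun := fun f => f x, map_one' := rfl, map_mul' := fun _ _ => rfl, map_zero' := rfl,
      map_add' := fun _ _ => rfl }
  rw [Complex.exp_eq_exp_ℂ]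
  exact NormedSpace.map_exp ev (continuous_eval_const x) f

lemma exp_mulOp (f : ℤ × ℤ →ᵇ ℂ) :
    NormedSpace.exp (mulOp f : Hilb m →L[ℂ] Hilb m) = mulOp (NormedSpace.exp f) := by
  let +nondep : NormedAlgebra ℚ (ℤ × ℤ →ᵇ ℂ) := .restrictScalars ℚ ℂ _
  let +nondep : NormedAlgebra ℚ (Hilb m →L[ℂ] Hilb m) := .restrictScalars ℚ ℂ _
  exact (NormedSpace.map_exp (mulHom m) continuous_mulOp f).symm

/-- a bounded function on the lattice -/
def bcf (f : ℤ × ℤ → ℂ) (C : ℝ) (h : ∀ x, ‖f x‖ ≤ C) : ℤ × ℤ →ᵇ ℂ :=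
  BoundedContinuousFunction.ofNormedAddCommGroupDiscrete f C h

@[simp] lemma bcf_apply (f : ℤ × ℤ → ℂ) (C : ℝ) (h : ∀ x, ‖f x‖ ≤ C) (x : ℤ × ℤ) :
    bcf f C h x = f x := rfl

/-- indicator function of a planar set on the lattice -/
def indF (S : Set ℂ) : ℤ × ℤ →ᵇ ℂ :=
  bcf (fun x => S.indicator (fun _ => (1 : ℂ)) (pt x)) 1 fun x => by
    by_cases h : pt x ∈ S <;> simp [h]

lemma Lam_eq (S : Set ℂ) : (Lam S : Hilb m →L[ℂ] Hilb m) = mulOp (indF S) := rfl

lemma indF_of_mem {S : Set ℂ} {x : ℤ × ℤ} (h : pt x ∈ S) : indF S x = 1 := by simp [indF, h]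

lemma indF_of_notMem {S : Set ℂ} {x : ℤ × ℤ} (h : pt x ∉ S) : indF S x = 0 := by simp [indF, h]

lemma norm_indF_le (S : Set ℂ) (x : ℤ × ℤ) : ‖indF S x‖ ≤ 1 := by
  by_cases h : pt x ∈ S
  · simp [indF_of_mem h]
  · simp [indF_of_notMem h]

lemma indF_compl (S : Set ℂ) : indF Sᶜ = 1 - indF S := by
  ext x
  by_cases h : pt x ∈ S <;> simp [indF, h]

lemma entry_apply (A : Hilb m →L[ℂ] Hilb m) (x y : ℤ × ℤ) (v : EuclideanSpace ℂ (Fin m)) :
    entry A x y v = A (lp.single 2 y v) x := rfl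

lemma entry_mulOp_mul (h : ℤ × ℤ →ᵇ ℂ) (A : Hilb m →L[ℂ] Hilb m) (x y : ℤ × ℤ) :
    entry (mulOp h * A) x y = h x • entry A x y := by
  ext1 v; rfl

lemma mulOp_single (h : ℤ × ℤ →ᵇ ℂ) (y : ℤ × ℤ) (v : EuclideanSpace ℂ (Fin m)) :
    mulOp h (lp.single 2 y v : Hilb m) = h y • lp.single 2 y v := by
  refine lp.ext (funext fun x => ?_)
  rw [mulOp_apply, lp.coeFn_smul, Pi.smul_apply]
  rcases eq_or_ne x y with rfl | hxy
  · rfl
  · rw [lp.single_apply_ne _ _ _ hxy, smul_zero, smul_zero]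

lemma entry_mul_mulOp (h : ℤ × ℤ →ᵇ ℂ) (A : Hilb m →L[ℂ] Hilb m) (x y : ℤ × ℤ) :
    entry (A * mulOp h) x y = h y • entry A x y := by
  ext1 v
  rw [entry_apply, mul_apply_eq_comp, mulOp_single, map_smul]; rfl

lemma entry_sub (A B : Hilb m →L[ℂ] Hilb m) (x y : ℤ × ℤ) :
    entry (A - B) x y = entry A x y - entry B x y := by
  ext1 v; rfl

lemma entry_add (A B : Hilb m →L[ℂ] Hilb m) (x y : ℤ × ℤ) :
    entry (A + B) x y = entry A x y + entry B x y := by
  ext1 v; rfl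

lemma hasSum_entry (A : Hilb m →L[ℂ] Hilb m) (ψ : Hilb m) (x : ℤ × ℤ) :
    HasSum (fun y => entry A x y (ψ y)) (A ψ x) :=
  ((lp.evalCLM ℂ (fun _ : ℤ × ℤ => EuclideanSpace ℂ (Fin m)) 2 x).comp A).hasSum
    (lp.hasSum_single (by simp) ψ)

lemma hasSum_norm_sq (ψ : Hilb m) : HasSum (fun y => ‖ψ y‖ ^ 2) (‖ψ‖ ^ 2) := by
  simpa using lp.hasSum_norm (p := 2) (by simp) ψ

/-- the Schur test -/
lemma schur {A : Hilb m →L[ℂ] Hilb m} {k : ℤ × ℤ → ℤ × ℤ → ℝ} {S : ℝ} (hS : 0 < S)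
    (hk : ∀ x y, ‖entry A x y‖ ≤ k x y) (h1 : ∀ x, HasSum (k x) S)
    (h2 : ∀ y, HasSum (fun x => k x y) S) : ‖A‖ ≤ S := by
  have k0 : ∀ x y, 0 ≤ k x y := fun x y => (norm_nonneg _).trans (hk x y)
  have kS : ∀ x y, k x y ≤ S := fun x y => le_hasSum (h1 x) y fun _ _ => k0 _ _
  refine ContinuousLinearMap.opNorm_le_bound _ hS.le fun ψ => ?_
  have hψ := hasSum_norm_sq ψ
  have s2 : ∀ x, Summable fun y => k x y * ‖ψ y‖ ^ 2 := fun x =>
    Summable.of_nonneg_of_le (fun y => mul_nonneg (k0 _ _) (sq_nonneg _))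
      (fun y => mul_le_mul_of_nonneg_right (kS _ _) (sq_nonneg _)) (hψ.summable.mul_left S)
  have s1 : ∀ x, Summable fun y => k x y * ‖ψ y‖ := fun x =>
    Summable.of_nonneg_of_le (fun y => mul_nonneg (k0 _ _) (norm_nonneg _))
      (fun y => mul_le_mul_of_nonneg_left (lp.norm_apply_le_norm (by simp) ψ y) (k0 _ _))
      ((h1 x).summable.mul_right ‖ψ‖)
  have pt1 : ∀ x, ‖A ψ x‖ ^ 2 ≤ S * ∑' y, k x y * ‖ψ y‖ ^ 2 := by
    intro x
    set M := ∑' y, k x y * ‖ψ y‖ with hM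
    have b1 : ‖A ψ x‖ ≤ M := by
      refine (hasSum_entry A ψ x).norm_le_of_bounded (s1 x).hasSum fun y => ?_
      exact ((entry A x y).le_opNorm _).trans (mul_le_mul_of_nonneg_right (hk x y) (norm_nonneg _))
    have b2 : HasSum (fun y => k x y * (S * ‖ψ y‖ - M) ^ 2)
        (S ^ 2 * (∑' y, k x y * ‖ψ y‖ ^ 2) - 2 * S * M * M + M ^ 2 * S) := by
      have e : (fun y => k x y * (S * ‖ψ y‖ - M) ^ 2) = fun y =>
          S ^ 2 * (k x y * ‖ψ y‖ ^ 2) - 2 * S * M * (k x y * ‖ψ y‖) + M ^ 2 * k x y := by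
        ext y; ring
      rw [e]
      exact (((s2 x).hasSum.mul_left (S ^ 2)).sub ((s1 x).hasSum.mul_left (2 * S * M))).add
        ((h1 x).mul_left (M ^ 2))
    have b3 := b2.nonneg fun y => mul_nonneg (k0 _ _) (sq_nonneg _)
    have b4 : M ^ 2 ≤ S * ∑' y, k x y * ‖ψ y‖ ^ 2 := by
      refine le_of_mul_le_mul_left ?_ hS
      nlinarith
    exact (pow_le_pow_left₀ (norm_nonneg _) b1 2).trans b4
  refine lp.norm_le_of_forall_sum_le (p := 2) (by simp) (by positivity) fun s => ?_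
  simp only [ENNReal.toReal_ofNat, Real.rpow_ofNat]
  calc ∑ x ∈ s, ‖A ψ x‖ ^ 2 ≤ ∑ x ∈ s, S * ∑' y, k x y * ‖ψ y‖ ^ 2 :=
        Finset.sum_le_sum fun x _ => pt1 x
    _ = S * ∑' y, ∑ x ∈ s, k x y * ‖ψ y‖ ^ 2 := by
        rw [← Finset.mul_sum, Summable.tsum_finsetSum fun x _ => s2 x]
    _ ≤ S * (S * ‖ψ‖ ^ 2) := by
        refine mul_le_mul_of_nonneg_left ?_ hS.le
        refine hasSum_le (fun y => ?_) (summable_sum fun x _ => s2 x).hasSum (hψ.mul_left S)
        rw [← Finset.sum_mul]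
        exact mul_le_mul_of_nonneg_right (sum_le_hasSum s (fun x _ => k0 _ _) (h2 y)) (sq_nonneg _)
    _ = (S * ‖ψ‖) ^ 2 := by ring

lemma pt_sub (x y : ℤ × ℤ) : pt (x - y) = pt x - pt y := by
  simp only [pt, Prod.fst_sub, Prod.snd_sub]; push_cast; ring

lemma summable_int_inv_sq : Summable fun n : ℤ => 1 / (1 + |(n : ℝ)|) ^ 2 := by
  have h : Summable fun n : ℕ => 1 / (1 + (n : ℝ)) ^ 2 := by
    have := (summable_nat_add_iff 1).2 (Real.summable_one_div_nat_pow.2 one_lt_two)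
    simpa [add_comm] using this
  apply Summable.of_nat_of_neg <;> simpa using h

lemma summable_inv_pow_four : Summable fun x : ℤ × ℤ => 1 / (1 + ‖pt x‖) ^ 4 := by
  have h := summable_mul_of_summable_norm (f := fun n : ℤ => 1 / (1 + |(n : ℝ)|) ^ 2)
    (g := fun n : ℤ => 1 / (1 + |(n : ℝ)|) ^ 2)
    (by simpa using summable_int_inv_sq) (by simpa using summable_int_inv_sq)
  refine Summable.of_nonneg_of_le (fun x => by positivity) (fun x => ?_) h
  have h1 : |(x.1 : ℝ)| ≤ ‖pt x‖ := by simpa [pt] using Complex.abs_re_le_norm (pt x)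
  have h2 : |(x.2 : ℝ)| ≤ ‖pt x‖ := by simpa [pt] using Complex.abs_im_le_norm (pt x)
  rw [one_div_mul_one_div]
  refine one_div_le_one_div_of_le (by positivity) ?_
  calc (1 + |(x.1 : ℝ)|) ^ 2 * (1 + |(x.2 : ℝ)|) ^ 2 ≤ (1 + ‖pt x‖) ^ 2 * (1 + ‖pt x‖) ^ 2 := by
        gcongr
    _ = _ := by ring

lemma exists_pow_le_exp (N : ℕ) {a : ℝ} (ha : 0 < a) :
    ∃ C > 0, ∀ r : ℝ, 0 ≤ r → (1 + r) ^ N ≤ C * Real.exp (a * r) := by
  refine ⟨N.factorial * Real.exp a / a ^ N, by positivity, fun r hr => ?_⟩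
  have h := Real.pow_div_factorial_le_exp (a * (1 + r)) (by positivity) N
  rw [div_le_iff₀ (by positivity), mul_pow, mul_add, Real.exp_add, mul_one] at h
  rw [div_mul_eq_mul_div, le_div_iff₀ (by positivity)]
  linarith

lemma summable_exp_neg {ν : ℝ} (hν : 0 < ν) :
    Summable fun x : ℤ × ℤ => Real.exp (-ν * ‖pt x‖) := by
  obtain ⟨C, hC, h⟩ := exists_pow_le_exp 4 hν
  refine Summable.of_nonneg_of_le (fun x => by positivity) (fun x => ?_)
    (summable_inv_pow_four.mul_left C)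
  rw [mul_one_div, le_div_iff₀ (by positivity), neg_mul, Real.exp_neg,
    inv_mul_le_iff₀ (by positivity), mul_comm]
  exact h _ (norm_nonneg _)

/-- `∑_z exp (-ν |z|)` -/
def Ssum (ν : ℝ) : ℝ := ∑' x : ℤ × ℤ, Real.exp (-ν * ‖pt x‖)

lemma Ssum_pos {ν : ℝ} (hν : 0 < ν) : 0 < Ssum ν :=
  (summable_exp_neg hν).tsum_pos (fun _ => by positivity) 0 (by positivity)

lemma schur_exp {A : Hilb m →L[ℂ] Hilb m} {c ν : ℝ} (hc : 0 < c) (hν : 0 < ν)
    (hk : ∀ x y, ‖entry A x y‖ ≤ c * Real.exp (-ν * ‖pt x - pt y‖)) : ‖A‖ ≤ c * Ssum ν := by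
  refine schur (mul_pos hc (Ssum_pos hν)) hk (fun x => ?_) (fun y => ?_)
  · have := (Equiv.subLeft x).hasSum_iff.2 (summable_exp_neg hν).hasSum
    simpa [Function.comp_def, pt_sub, Ssum] using this.mul_left c
  · have := (Equiv.subRight y).hasSum_iff.2 (summable_exp_neg hν).hasSum
    simpa [Function.comp_def, pt_sub, Ssum] using this.mul_left c

/-- indicator function of a site -/
def siteF (x : ℤ × ℤ) : ℤ × ℤ →ᵇ ℂ :=
  bcf (fun y => if y = x then 1 else 0) 1 fun y => by split_ifs <;> simp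

lemma site_apply (x : ℤ × ℤ) (ψ : Hilb m) : mulOp (siteF x) ψ = lp.single 2 x (ψ x) := by
  refine lp.ext (funext fun y => ?_)
  rcases eq_or_ne y x with rfl | h
  · simp [siteF]
  · simp [siteF, h]

lemma site_eq_sum (x : ℤ × ℤ) : (mulOp (siteF x) : Hilb m →L[ℂ] Hilb m) =
    ∑ i, rankOne ℂ (lp.single 2 x (EuclideanSpace.basisFun (Fin m) ℂ i) : Hilb m)
      (lp.single 2 x (EuclideanSpace.basisFun (Fin m) ℂ i) : Hilb m) := by
  refine ContinuousLinearMap.ext fun ψ => ?_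
  rw [site_apply, sum_apply]
  simp only [rankOne_apply, lp.inner_single_left]
  conv_lhs => rw [← (EuclideanSpace.basisFun (Fin m) ℂ).sum_repr' (ψ x)]
  change lp.singleContinuousLinearMap ℂ (fun _ : ℤ × ℤ => EuclideanSpace ℂ (Fin m)) 2 x _ = _
  rw [map_sum]
  simp only [map_smul, lp.singleContinuousLinearMap_apply]

lemma site_mem_cptIdeal (x : ℤ × ℤ) :
    (mulOp (siteF x) : Hilb m →L[ℂ] Hilb m) ∈ cptIdeal (Hilb m) := by
  rw [site_eq_sum]
  exact sum_mem fun i _ => rankOne_mem_cptIdeal _ _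

/-- compactness criterion -/
lemma mem_cptIdeal_of_entry {T : Hilb m →L[ℂ] Hilb m} {ν : ℝ} (hν : 0 < ν)
    (h : ∀ ε > 0, ∀ᶠ x in cofinite, ∀ y, ‖entry T x y‖ ≤ ε * Real.exp (-ν * ‖pt x - pt y‖)) :
    T ∈ cptIdeal (Hilb m) := by
  classical
  have : T ∈ closure {T : Hilb m →L[ℂ] Hilb m | T ∈ cptIdeal (Hilb m)} := by
    rw [Metric.mem_closure_iff]
    intro ε hε
    have hS := Ssum_pos hν
    have hfin := h (ε / (2 * Ssum ν)) (by positivity)
    rw [eventually_cofinite] at hfin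
    let F := hfin.toFinset
    let χ : ℤ × ℤ →ᵇ ℂ := ∑ x ∈ F, siteF x
    have hχ : ∀ y, χ y = if y ∈ F then 1 else 0 := by
      intro y
      simp [χ, siteF]
    refine ⟨mulOp χ * T, (cptIdeal _).mul_mem_right _ _ ?_, ?_⟩
    · change mulHom m χ ∈ _
      rw [map_sum]
      exact sum_mem fun x _ => site_mem_cptIdeal x
    · rw [dist_eq_norm]
      refine (schur_exp (c := ε / (2 * Ssum ν)) (by positivity) hν fun x y => ?_).trans_lt ?_
      · rw [entry_sub, entry_mulOp_mul, hχ]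
        split_ifs with hx
        · simp; positivity
        · have : ∀ y, ‖entry T x y‖ ≤ ε / (2 * Ssum ν) * Real.exp (-ν * ‖pt x - pt y‖) := by
            by_contra hc
            exact hx (hfin.mem_toFinset.2 hc)
          have e : entry T x y - (0 : ℂ) • entry T x y = entry T x y := by
            ext1 v; simp
          rw [e]
          exact this y
      · rw [div_mul_eq_mul_div, div_lt_iff₀ (by positivity)]
        nlinarith
  rwa [isClosed_cptIdeal.closure_eq] at this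

lemma norm_entry_one_le (x y : ℤ × ℤ) :
    ‖entry (1 : Hilb m →L[ℂ] Hilb m) x y‖ ≤ Real.exp (-1 * ‖pt x - pt y‖) := by
  refine ContinuousLinearMap.opNorm_le_bound _ (by positivity) fun v => ?_
  rw [entry_apply, one_apply_eq_self]
  rcases eq_or_ne x y with rfl | h
  · simp
  · rw [lp.single_apply_ne _ _ _ h, norm_zero]; positivity

lemma mulOp_mem_cptIdeal {h : ℤ × ℤ →ᵇ ℂ} (hh : Tendsto h cofinite (𝓝 0)) :
    (mulOp h : Hilb m →L[ℂ] Hilb m) ∈ cptIdeal (Hilb m) := by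
  refine mem_cptIdeal_of_entry one_pos fun ε hε => ?_
  filter_upwards [hh.norm.eventually (ge_mem_nhds (show ‖(0 : ℂ)‖ < ε by simpa using hε))]
    with x hx y
  rw [← mul_one (mulOp h), entry_mulOp_mul, norm_smul]
  exact mul_le_mul hx (norm_entry_one_le x y) (norm_nonneg _) hε.le

/-- nuclearity criterion -/
lemma nuclear_of_summable {T : Hilb m →L[ℂ] Hilb m}
    (h : Summable fun x => ‖mulOp (siteF x) * T‖) : Nuclear T := by
  let a : (ℤ × ℤ) × Fin m → Hilb m := fun p =>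
    lp.single 2 p.1 (EuclideanSpace.basisFun (Fin m) ℂ p.2)
  let b : (ℤ × ℤ) × Fin m → Hilb m := fun p => (star T) (a p)
  have ha : ∀ p, ‖a p‖ = 1 := fun p => by
    simp only [a]
    rw [lp.norm_single (by simp)]
    exact (EuclideanSpace.basisFun (Fin m) ℂ).orthonormal.1 _
  have hb : ∀ p, ‖b p‖ ≤ ‖mulOp (siteF p.1) * T‖ := by
    intro p
    have e : b p = (star (mulOp (siteF p.1) * T : Hilb m →L[ℂ] Hilb m)) (a p) := by
      rw [star_mul, star_mulOp, mul_apply_eq_comp, mulOp_single]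
      simp [siteF, a, b]
    rw [e]
    refine (ContinuousLinearMap.le_opNorm _ _).trans ?_
    rw [ha, mul_one]
    exact (norm_star (mulOp (siteF p.1) * T : Hilb m →L[ℂ] Hilb m)).le
  have hs : Summable fun p => ‖a p‖ * ‖b p‖ := by
    rw [summable_prod_of_nonneg fun _ => by positivity]
    refine ⟨fun _ => Summable.of_finite, Summable.of_nonneg_of_le
      (fun x => tsum_nonneg fun _ => by positivity) (fun x => ?_) (h.mul_left (m : ℝ))⟩
    rw [tsum_fintype]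
    calc ∑ i, ‖a (x, i)‖ * ‖b (x, i)‖ ≤ ∑ _ : Fin m, ‖mulOp (siteF x) * T‖ :=
          Finset.sum_le_sum fun i _ => by rw [ha, one_mul]; exact hb (x, i)
      _ = _ := by simp
  have hs' : Summable fun p => rankOne ℂ (a p) (b p) :=
    Summable.of_norm (by simpa only [norm_rankOne] using hs)
  refine nuclear_of_hasSum hs ?_
  have h1 : HasSum (fun x => mulOp (siteF x) * T) (∑' p, rankOne ℂ (a p) (b p)) := by
    refine hs'.hasSum.prod_fiberwise fun x => ?_
    rw [site_eq_sum, Finset.sum_mul]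
    simp only [rankOne_mul]
    exact hasSum_fintype _
  have h2 : ∑' p, rankOne ℂ (a p) (b p) = T := by
    refine ContinuousLinearMap.ext fun ψ => ?_
    have h3 := (ContinuousLinearMap.apply ℂ (Hilb m) ψ).hasSum h1
    simp only [ContinuousLinearMap.apply_apply, mul_apply_eq_comp, site_apply] at h3
    exact h3.unique (lp.hasSum_single (by simp) (T ψ))
  rw [← h2]
  exact hs'.hasSum

lemma IsTimeReversal.single_apply_ne {Θ : Hilb m ≃ₗᵢ⋆[ℂ] Hilb m} (hΘ : IsTimeReversal Θ)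
    {x y : ℤ × ℤ} (h : x ≠ y) (v : EuclideanSpace ℂ (Fin m)) : Θ (lp.single 2 y v) x = 0 := by
  have key : ∀ c : ℤ × ℤ → ℤ,
      (∀ ψ φ : Hilb m, (∀ x, φ x = (c x : ℂ) • ψ x) → ∀ x, Θ φ x = (c x : ℂ) • Θ ψ x) →
      c x ≠ c y → Θ (lp.single 2 y v) x = 0 := by
    intro c hc hne
    have h1 := hc (lp.single 2 y v) ((c y : ℂ) • lp.single 2 y v) (fun z => by
      rw [lp.coeFn_smul, Pi.smul_apply]
      rcases eq_or_ne z y with rfl | hz
      · rfl
      · rw [lp.single_apply_ne _ _ _ hz, smul_zero, smul_zero]) x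
    rw [map_smulₛₗ, lp.coeFn_smul, Pi.smul_apply, map_intCast, ← sub_eq_zero, ← sub_smul,
      smul_eq_zero] at h1
    refine h1.resolve_left ?_
    rw [sub_eq_zero]
    exact_mod_cast hne.symm
  by_cases h1 : x.1 = y.1
  · exact key Prod.snd hΘ.2.2 fun h2 => h (Prod.ext h1 h2)
  · exact key Prod.fst hΘ.2.1 h1

lemma IsTimeReversal.apply_eq {Θ : Hilb m ≃ₗᵢ⋆[ℂ] Hilb m} (hΘ : IsTimeReversal Θ) (ψ : Hilb m)
    (x : ℤ × ℤ) : Θ ψ x = Θ (lp.single 2 x (ψ x)) x := by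
  have h1 := ((lp.evalCLM ℂ (fun _ : ℤ × ℤ => EuclideanSpace ℂ (Fin m)) 2 x).comp
    (Θ.toContinuousLinearEquiv : Hilb m →L⋆[ℂ] Hilb m)).hasSum (lp.hasSum_single (by simp) ψ)
  exact h1.unique (hasSum_single x fun y hy => hΘ.single_apply_ne hy.symm _)

lemma IsTimeReversal.cj_mulOp {Θ : Hilb m ≃ₗᵢ⋆[ℂ] Hilb m} (hΘ : IsTimeReversal Θ)
    (h : ℤ × ℤ →ᵇ ℂ) : cj Θ (mulOp h) = star (mulOp h) := by
  rw [cj_eq_iff, star_mulOp]
  intro ψ
  refine lp.ext (funext fun x => ?_)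
  rw [mulOp_apply, hΘ.apply_eq ψ, hΘ.apply_eq (mulOp h ψ), mulOp_apply, lp.single_smul,
    map_smulₛₗ]
  rfl

/-- slowly oscillating functions -/
def SO (h : ℤ × ℤ → ℂ) : Prop :=
  ∀ R : ℝ, ∀ ε > 0, ∀ᶠ x in cofinite, ∀ y, ‖pt x - pt y‖ ≤ R → ‖h x - h y‖ ≤ ε

lemma IsLocal.cm {A : Hilb m →L[ℂ] Hilb m} (hA : IsLocal A) {h : ℤ × ℤ →ᵇ ℂ} (hh : SO h) :
    Cm (mulOp h) A := by
  obtain ⟨ν, hν, hA⟩ := hA
  rw [cm_iff, qm_eq_iff]
  refine mem_cptIdeal_of_entry (half_pos hν) fun ε hε => ?_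
  obtain ⟨R, hR⟩ : ∃ R : ℝ, 2 * ‖h‖ * Real.exp (-(ν / 2) * R) ≤ ε * ν := by
    have : Tendsto (fun R : ℝ => 2 * ‖h‖ * Real.exp (-(ν / 2) * R)) atTop (𝓝 (2 * ‖h‖ * 0)) := by
      refine tendsto_const_nhds.mul (Real.tendsto_exp_atBot.comp ?_)
      exact tendsto_id.const_mul_atTop_of_neg (by linarith)
    rw [mul_zero] at this
    exact (this.eventually (ge_mem_nhds (mul_pos hε hν))).exists
  filter_upwards [hh R (ε * ν) (mul_pos hε hν)] with x hx y
  have e0 : h x • entry A x y - h y • entry A x y = (h x - h y) • entry A x y :=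
    (sub_smul _ _ _).symm
  rw [entry_sub, entry_mulOp_mul, entry_mul_mulOp, e0, norm_smul]
  set r := ‖pt x - pt y‖ with hr
  have hr0 : 0 ≤ r := norm_nonneg _
  have e : Real.exp (-ν * r) = Real.exp (-(ν / 2) * r) * Real.exp (-(ν / 2) * r) := by
    rw [← Real.exp_add]; congr 1; ring
  have key : ‖h x - h y‖ * Real.exp (-(ν / 2) * r) ≤ ε * ν := by
    rcases le_or_gt r R with h1 | h1
    · calc ‖h x - h y‖ * Real.exp (-(ν / 2) * r) ≤ (ε * ν) * 1 := by
            gcongr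
            · exact hx y h1
            · rw [Real.exp_le_one_iff]; nlinarith
        _ = _ := mul_one _
    · refine le_trans ?_ hR
      refine mul_le_mul ?_ (Real.exp_le_exp.2 ?_) (by positivity) (by positivity)
      · calc ‖h x - h y‖ ≤ ‖h x‖ + ‖h y‖ := norm_sub_le _ _
          _ ≤ _ := by linarith [h.norm_coe_le_norm x, h.norm_coe_le_norm y]
      · nlinarith
  calc ‖h x - h y‖ * ‖entry A x y‖ ≤ ‖h x - h y‖ * (ν⁻¹ * Real.exp (-ν * r)) := by
        gcongr; exact hA x y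
    _ = ν⁻¹ * (‖h x - h y‖ * Real.exp (-(ν / 2) * r)) * Real.exp (-(ν / 2) * r) := by
        rw [e]; ring
    _ ≤ ν⁻¹ * (ε * ν) * Real.exp (-(ν / 2) * r) := by gcongr
    _ = _ := by field_simp

end Pool.Agent.MP_120ee9_mp

end
end

-- part MP_120ee9_mp.FourierBound
section

/-! From finite propagation bounds for `exp (i t A)` to polynomial bounds for `f(A)`. -/

noncomputable section

namespace Pool.Agent.MP_120ee9_mp

open MeasureTheory Filter Topology NormedSpace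
open scoped SchwartzMap FourierTransform Real

variable {H : Type*} [NormedAddCommGroup H] [InnerProductSpace ℂ H] [CompleteSpace H]

/-- complex-valued function of a self-adjoint operator -/
def cfcC (f : ℝ → ℂ) (A : H →L[ℂ] H) : H →L[ℂ] H := cfc (fun z : ℂ => f z.re) A

lemma norm_exp_I_le {A : H →L[ℂ] H} (hA : IsSelfAdjoint A) (t : ℝ) :
    ‖exp ((t * Complex.I : ℂ) • A)‖ ≤ 1 := by
  have h := CStarRing.norm_star_mul_self (x := exp ((t * Complex.I : ℂ) • A))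
  rw [(exp_I_unitary hA t).1] at h
  have h1 : ‖(1 : H →L[ℂ] H)‖ ≤ 1 := ContinuousLinearMap.norm_id_le
  nlinarith [norm_nonneg (exp ((t * Complex.I : ℂ) • A))]

lemma continuous_exp_I (A : H →L[ℂ] H) :
    Continuous fun t : ℝ => exp ((((2 * π * t : ℝ) : ℂ) * Complex.I : ℂ) • A) := by
  let +nondep : NormedAlgebra ℚ (H →L[ℂ] H) := .restrictScalars ℚ ℂ _
  fun_prop

lemma integrable_fourier_smul_exp (f : 𝓢(ℝ, ℂ)) {A : H →L[ℂ] H} (hA : IsSelfAdjoint A) :
    Integrable fun t : ℝ => (𝓕 f) t • exp ((((2 * π * t : ℝ) : ℂ) * Complex.I : ℂ) • A) := by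
  refine Integrable.mono' (𝓕 f).integrable.norm
    ((𝓕 f).continuous.smul (continuous_exp_I A)).aestronglyMeasurable
    (Eventually.of_forall fun t => ?_)
  rw [norm_smul]
  exact mul_le_of_le_one_right (norm_nonneg _) (norm_exp_I_le hA _)

lemma cfcC_eq_integral (f : 𝓢(ℝ, ℂ)) {A : H →L[ℂ] H} (hA : IsSelfAdjoint A) :
    cfcC f A = ∫ t : ℝ, (𝓕 f) t • exp ((((2 * π * t : ℝ) : ℂ) * Complex.I : ℂ) • A) := by
  have hn := hA.isStarNormal
  let F : ℝ → ℂ → ℂ := fun t z =>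
    (𝓕 f) t * Complex.exp ((((2 * π * t : ℝ) : ℂ) * Complex.I : ℂ) * z)
  have h1 := cfc_integral (μ := volume) F (fun t => ‖(𝓕 f) t‖) A
    (by
      have := (𝓕 f).continuous
      apply Continuous.continuousOn
      simp only [F, Function.uncurry_def]
      fun_prop)
    (Eventually.of_forall fun t z hz => by
      simp only [F]
      rw [norm_mul, hA.mem_spectrum_eq_re hz, mul_right_comm, ← Complex.ofReal_mul,
        Complex.norm_exp_ofReal_mul_I, mul_one])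
    (𝓕 f).integrable.norm.hasFiniteIntegral
  have h2 : cfcC f A = cfc (fun r => ∫ t, F t r) A := by
    refine cfc_congr fun z hz => ?_
    have h3 : f z.re = (𝓕⁻ (𝓕 f) : 𝓢(ℝ, ℂ)) z.re := by rw [FourierTransform.fourierInv_fourier_eq]
    rw [h3, SchwartzMap.fourierInv_coe, Real.fourierInv_eq']
    congr 1
    ext t
    simp only [F, smul_eq_mul]
    rw [mul_comm]
    congr 2
    conv_rhs => rw [hA.mem_spectrum_eq_re hz]
    simp only [RCLike.inner_apply, conj_trivial]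
    push_cast
    ring
  rw [h2, h1]
  congr 1
  ext1 t
  rw [← CFC.complex_exp_eq_normedSpace_exp, ← cfc_comp_smul _ Complex.exp A]
  exact cfc_const_mul ((𝓕 f) t)
    (fun z : ℂ => Complex.exp ((((2 * π * t : ℝ) : ℂ) * Complex.I : ℂ) * z)) A

lemma exists_weight_bound {K s : ℝ} (hK : 0 < K) (hs : 0 < s) (N : ℕ) :
    ∃ C > 0, ∀ R t g : ℝ, 0 ≤ R → 0 ≤ g → g ≤ 2 → g ≤ Real.exp (K * |t| - s * R) →
      g * (1 + R) ^ N ≤ C * (1 + |t|) ^ N := by
  obtain ⟨C, hC, h⟩ := exists_pow_le_exp N (half_pos hs)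
  refine ⟨C + 2 * (1 + 2 * K / s) ^ N, by positivity, fun R t g hR hg h2 h3 => ?_⟩
  have ht := abs_nonneg t
  have h1 : 1 ≤ (1 + |t|) ^ N := one_le_pow₀ (by linarith)
  rcases le_or_gt (s * R / 2) (K * |t|) with h4 | h4
  · have h5 : 1 + R ≤ (1 + 2 * K / s) * (1 + |t|) := by
      have : R ≤ 2 * K / s * |t| := by
        rw [div_mul_eq_mul_div, le_div_iff₀ hs]; linarith
      have : 0 ≤ 2 * K / s := by positivity
      nlinarith
    calc g * (1 + R) ^ N ≤ 2 * ((1 + 2 * K / s) * (1 + |t|)) ^ N := by gcongr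
      _ = 2 * (1 + 2 * K / s) ^ N * (1 + |t|) ^ N := by rw [mul_pow]; ring
      _ ≤ _ := by gcongr; linarith
  · calc g * (1 + R) ^ N ≤ Real.exp (-(s / 2 * R)) * (C * Real.exp (s / 2 * R)) := by
          gcongr
          · exact h3.trans (Real.exp_le_exp.2 (by linarith))
          · exact h R hR
      _ = C * 1 := by rw [mul_left_comm, ← Real.exp_add]; simp
      _ ≤ _ := by
          gcongr
          linarith [show 0 ≤ 2 * (1 + 2 * K / s) ^ N by positivity]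

lemma integrable_weight (f : 𝓢(ℝ, ℂ)) (N : ℕ) :
    Integrable fun t : ℝ => ‖f t‖ * (1 + |t|) ^ N := by
  have h := ((f.integrable_pow_mul volume 0).add (f.integrable_pow_mul volume N)).const_mul
    (2 ^ (N - 1))
  refine h.mono' (by have := f.continuous; fun_prop) (Eventually.of_forall fun t => ?_)
  have := add_pow_le (zero_le_one' ℝ) (abs_nonneg t) N
  rw [Real.norm_of_nonneg (by positivity)]
  simp only [Pi.add_apply, pow_zero, one_mul, Real.norm_eq_abs, one_pow] at this ⊢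
  nlinarith [norm_nonneg (f t)]

lemma exists_cfcC_bound (f : 𝓢(ℝ, ℂ)) {K s : ℝ} (hK : 0 < K) (hs : 0 < s) (N : ℕ) :
    ∃ C > 0, ∀ (A B a b : H →L[ℂ] H) (R : ℝ), IsSelfAdjoint A → IsSelfAdjoint B → ‖a‖ ≤ 1 →
      ‖b‖ ≤ 1 → 0 ≤ R →
      (∀ t : ℝ, ‖a * (exp ((t * Complex.I : ℂ) • A) - exp ((t * Complex.I : ℂ) • B)) * b‖ ≤
        Real.exp (K * |t| - s * R)) →
      ‖a * (cfcC f A - cfcC f B) * b‖ ≤ C / (1 + R) ^ N := by
  obtain ⟨C, hC, h⟩ := exists_weight_bound (K := 2 * π * K) (by positivity) hs N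
  have hI : 0 ≤ ∫ t : ℝ, ‖(𝓕 f) t‖ * (1 + |t|) ^ N := integral_nonneg fun t => by positivity
  refine ⟨C * (∫ t : ℝ, ‖(𝓕 f) t‖ * (1 + |t|) ^ N) + 1, by positivity,
    fun A B a b R hA hB ha hb hR hbd => ?_⟩
  let L : (H →L[ℂ] H) →L[ℂ] (H →L[ℂ] H) := ContinuousLinearMap.mulLeftRight ℂ _ a b
  have hL : ∀ T, L T = a * T * b := fun T => rfl
  have hi : Integrable fun t : ℝ =>
      (𝓕 f) t • exp ((((2 * π * t : ℝ) : ℂ) * Complex.I : ℂ) • A) -
        (𝓕 f) t • exp ((((2 * π * t : ℝ) : ℂ) * Complex.I : ℂ) • B) :=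
    (integrable_fourier_smul_exp f hA).sub (integrable_fourier_smul_exp f hB)
  rw [cfcC_eq_integral f hA, cfcC_eq_integral f hB,
    ← integral_sub (integrable_fourier_smul_exp f hA) (integrable_fourier_smul_exp f hB), ← hL,
    ← L.integral_comp_comm hi]
  refine (norm_integral_le_of_norm_le
    ((integrable_weight (𝓕 f) N).const_mul (C / (1 + R) ^ N)) (Eventually.of_forall fun t => ?_)).trans ?_
  · rw [← smul_sub, map_smul, norm_smul, hL]
    set g := ‖a * (exp ((((2 * π * t : ℝ) : ℂ) * Complex.I : ℂ) • A) -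
      exp ((((2 * π * t : ℝ) : ℂ) * Complex.I : ℂ) • B)) * b‖ with hg
    have h1 : g ≤ 2 := by
      have e1 := norm_exp_I_le hA (2 * π * t)
      have e2 := norm_exp_I_le hB (2 * π * t)
      calc g ≤ ‖a‖ * ‖exp ((((2 * π * t : ℝ) : ℂ) * Complex.I : ℂ) • A) -
          exp ((((2 * π * t : ℝ) : ℂ) * Complex.I : ℂ) • B)‖ * ‖b‖ :=
            (norm_mul_le _ _).trans (by gcongr; exact norm_mul_le _ _)
        _ ≤ 1 * (1 + 1) * 1 := by
            gcongr
            exact (norm_sub_le _ _).trans (add_le_add e1 e2)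
        _ = 2 := by norm_num
    have h2 : g ≤ Real.exp (2 * π * K * |t| - s * R) := by
      have := hbd (2 * π * t)
      rw [abs_mul, abs_of_pos (by positivity : 0 < 2 * π)] at this
      convert this using 3
      ring
    have h3 := h R t g hR (norm_nonneg _) h1 h2
    rw [← le_div_iff₀ (by positivity)] at h3
    calc ‖(𝓕 f) t‖ * g ≤ ‖(𝓕 f) t‖ * (C * (1 + |t|) ^ N / (1 + R) ^ N) := by gcongr
      _ = _ := by ring
  · rw [integral_const_mul, div_mul_eq_mul_div]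
    gcongr
    linarith

omit [CompleteSpace H] in
lemma norm_pow_le_of_le {A : H →L[ℂ] H} {K : ℝ} (h : ‖A‖ ≤ K) (n : ℕ) : ‖A ^ n‖ ≤ K ^ n := by
  have hK : 0 ≤ K := (norm_nonneg _).trans h
  induction n with
  | zero => rw [pow_zero, pow_zero]; exact ContinuousLinearMap.norm_id_le
  | succ n ih =>
    rw [pow_succ, pow_succ]
    exact (norm_mul_le _ _).trans (by gcongr)

lemma norm_le_exp_of_pow {A B a b : H →L[ℂ] H} {K : ℝ} (z : ℂ)
    (h : ∀ n : ℕ, ‖a * (A ^ n - B ^ n) * b‖ ≤ K ^ n) :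
    ‖a * (exp (z • A) - exp (z • B)) * b‖ ≤ Real.exp (K * ‖z‖) := by
  have h1 := (((exp_series_hasSum_exp' (𝕂 := ℂ) (z • A)).sub
    (exp_series_hasSum_exp' (𝕂 := ℂ) (z • B))).mul_left a).mul_right b
  have h2 : HasSum (fun n : ℕ => (K * ‖z‖) ^ n / n.factorial) (Real.exp (K * ‖z‖)) := by
    rw [Real.exp_eq_exp_ℝ]
    exact expSeries_div_hasSum_exp _
  refine h1.norm_le_of_bounded h2 fun n => ?_
  rw [smul_pow, smul_pow, ← smul_sub, ← smul_sub, mul_smul_comm, mul_smul_comm, smul_mul_assoc,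
    smul_mul_assoc, norm_smul, norm_smul, norm_pow, norm_inv, Complex.norm_natCast, mul_pow,
    div_eq_inv_mul, mul_comm (K ^ n)]
  gcongr
  exact h n

omit [CompleteSpace H] in
lemma norm_weight_pow_sub {A B D D' : H →L[ℂ] H} {K : ℝ} (hD : D' * D = 1)
    (h1 : ‖D * A * D'‖ ≤ K) (h2 : ‖B‖ ≤ K) (h3 : ‖D * (A - B)‖ ≤ K) (n : ℕ) :
    ‖D * (A ^ n - B ^ n)‖ ≤ (2 * K) ^ n := by
  have hK : 0 ≤ K := (norm_nonneg _).trans h2
  induction n with
  | zero => simp
  | succ n ih =>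
    have e : D * (A ^ (n + 1) - B ^ (n + 1)) =
        (D * A * D') * (D * (A ^ n - B ^ n)) + (D * (A - B)) * B ^ n := by
      rw [mul_assoc (D * A), ← mul_assoc D', hD, one_mul, pow_succ', pow_succ']
      noncomm_ring
    rw [e]
    have h4 : K ^ n ≤ (2 * K) ^ n := by gcongr; linarith
    calc _ ≤ K * (2 * K) ^ n + K * K ^ n := by
          refine (norm_add_le _ _).trans (add_le_add ?_ ?_)
          · exact (norm_mul_le _ _).trans (by gcongr)
          · exact (norm_mul_le _ _).trans (by gcongr; exact norm_pow_le_of_le h2 n)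
      _ ≤ _ := by rw [pow_succ]; nlinarith

omit [CompleteSpace H] in
lemma weight_pow {A D D' : H →L[ℂ] H} (hD : D' * D = 1) (hD' : D * D' = 1) (n : ℕ) :
    D * A ^ n * D' = (D * A * D') ^ n := by
  induction n with
  | zero => simpa using hD'
  | succ n ih =>
    rw [pow_succ, pow_succ, ← ih, mul_assoc (D * A ^ n) D', ← mul_assoc D', ← mul_assoc D', hD]
    noncomm_ring

lemma ex_cfc_sub_one {A : H →L[ℂ] H} (hA : IsSelfAdjoint A) {g : ℝ → ℝ} (hg : Continuous g) :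
    ex (cfc g A) - 1 = cfcC (fun t => Complex.exp (2 * π * Complex.I * g t) - 1) A := by
  have hn := hA.isStarNormal
  have hG : IsStarNormal (cfc g A) := (cfc_predicate g A : IsSelfAdjoint (cfc g A)).isStarNormal
  rw [ex, ← CFC.complex_exp_eq_normedSpace_exp,
    ← cfc_comp_smul (2 * π * Complex.I : ℂ) Complex.exp (cfc g A), cfc_real_eq_complex g hA,
    ← cfc_comp' _ _ A, cfcC, cfc_sub _ _ A, cfc_const_one ℂ A]
  rfl

lemma cfcC_eq_zero {A : H →L[ℂ] H} (hA : IsSelfAdjoint A) {f : ℝ → ℂ}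
    (hf : ∀ t : ℝ, (t : ℂ) ∈ spectrum ℂ A → f t = 0) : cfcC f A = 0 := by
  rw [cfcC, ← cfc_const_zero ℂ A]
  refine cfc_congr fun z hz => hf _ ?_
  rwa [← hA.mem_spectrum_eq_re hz]

lemma mul_cfcC_zero_mul {a b : H →L[ℂ] H} (h : a * b = 0) (f : ℝ → ℂ) : a * cfcC f 0 * b = 0 := by
  rw [cfcC, cfc_apply_zero, Algebra.algebraMap_eq_smul_one, mul_smul_comm, smul_mul_assoc, mul_one,
    h, smul_zero]

end Pool.Agent.MP_120ee9_mp

end
end

-- part MP_120ee9_mp.Propagation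
section

/-! Exponential weights: propagation bounds and decay of `f(A)` on the lattice. -/

noncomputable section

namespace Pool.Agent.MP_120ee9_mp

open Filter Topology NormedSpace
open scoped BoundedContinuousFunction SchwartzMap

variable {m : ℕ}

/-- the exponential weight centred at `x₀` -/
def wt (x₀ : ℤ × ℤ) (R s : ℝ) : ℤ × ℤ →ᵇ ℂ :=
  bcf (fun y => ((Real.exp (s * max 0 (R - ‖pt x₀ - pt y‖)) : ℝ) : ℂ)) (Real.exp (|s| * |R|))
    fun y => by
      rw [Complex.norm_real, Real.norm_of_nonneg (Real.exp_pos _).le, Real.exp_le_exp]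
      refine (le_abs_self _).trans ?_
      rw [abs_mul]
      refine mul_le_mul_of_nonneg_left ?_ (abs_nonneg _)
      rw [abs_of_nonneg (le_max_left _ _)]
      exact max_le (abs_nonneg _) (by linarith [le_abs_self R, norm_nonneg (pt x₀ - pt y)])

lemma wt_apply (x₀ : ℤ × ℤ) (R s : ℝ) (y : ℤ × ℤ) :
    wt x₀ R s y = ((Real.exp (s * max 0 (R - ‖pt x₀ - pt y‖)) : ℝ) : ℂ) := rfl

lemma norm_wt_apply (x₀ : ℤ × ℤ) (R s : ℝ) (y : ℤ × ℤ) :
    ‖wt x₀ R s y‖ = Real.exp (s * max 0 (R - ‖pt x₀ - pt y‖)) := by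
  rw [wt_apply, Complex.norm_real, Real.norm_of_nonneg (Real.exp_pos _).le]

lemma wt_mul_neg (x₀ : ℤ × ℤ) (R s : ℝ) : wt x₀ R s * wt x₀ R (-s) = 1 := by
  ext y
  rw [BoundedContinuousFunction.mul_apply, wt_apply, wt_apply, ← Complex.ofReal_mul,
    ← Real.exp_add]
  simp

lemma mulOp_wt_mul_neg (x₀ : ℤ × ℤ) (R s : ℝ) :
    (mulOp (wt x₀ R s) * mulOp (wt x₀ R (-s)) : Hilb m →L[ℂ] Hilb m) = 1 := by
  rw [← mulOp_mul, wt_mul_neg, mulOp_one]

lemma mulOp_wt_neg_mul (x₀ : ℤ × ℤ) (R s : ℝ) :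
    (mulOp (wt x₀ R (-s)) * mulOp (wt x₀ R s) : Hilb m →L[ℂ] Hilb m) = 1 := by
  rw [← mulOp_mul, mul_comm, wt_mul_neg, mulOp_one]

lemma wt_lip (x₀ x y : ℤ × ℤ) (R : ℝ) :
    max 0 (R - ‖pt x₀ - pt x‖) - max 0 (R - ‖pt x₀ - pt y‖) ≤ ‖pt x - pt y‖ := by
  have h1 : ‖pt x₀ - pt y‖ ≤ ‖pt x₀ - pt x‖ + ‖pt x - pt y‖ := norm_sub_le_norm_sub_add_norm_sub ..
  have h2 := norm_nonneg (pt x - pt y)
  have h3 := le_max_left 0 (R - ‖pt x₀ - pt y‖)
  have h4 := le_max_right 0 (R - ‖pt x₀ - pt y‖)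
  rw [sub_le_iff_le_add, max_le_iff]
  constructor <;> linarith

lemma norm_wt_conj {A : Hilb m →L[ℂ] Hilb m} {C s : ℝ} (hC : 0 < C) (hs : 0 < s)
    (hA : ∀ x y, ‖entry A x y‖ ≤ C * Real.exp (-(2 * s) * ‖pt x - pt y‖)) (x₀ : ℤ × ℤ) (R : ℝ) :
    ‖mulOp (wt x₀ R s) * A * mulOp (wt x₀ R (-s))‖ ≤ C * Ssum s := by
  refine schur_exp hC hs fun x y => ?_
  rw [entry_mul_mulOp, entry_mulOp_mul, norm_smul, norm_smul, norm_wt_apply, norm_wt_apply,
    ← mul_assoc, ← Real.exp_add]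
  have h1 := wt_lip x₀ x y R
  calc _ ≤ Real.exp (s * ‖pt x - pt y‖) * (C * Real.exp (-(2 * s) * ‖pt x - pt y‖)) := by
        gcongr
        · nlinarith
        · exact hA x y
    _ = _ := by
        rw [mul_left_comm, ← Real.exp_add]
        congr 2
        ring

lemma site_eq_wt (x₀ : ℤ × ℤ) {R : ℝ} (hR : 0 ≤ R) (s : ℝ) :
    siteF x₀ = ((Real.exp (-(s * R)) : ℝ) : ℂ) • (siteF x₀ * wt x₀ R s) := by
  ext y
  rw [BoundedContinuousFunction.smul_apply, BoundedContinuousFunction.mul_apply, wt_apply]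
  rcases eq_or_ne y x₀ with rfl | h
  · simp only [siteF, bcf_apply, if_true, sub_self, norm_zero, sub_zero, max_eq_right hR, one_mul,
      smul_eq_mul]
    rw [← Complex.ofReal_mul, ← Real.exp_add]
    simp
  · simp [siteF, h]

lemma norm_site_le (x : ℤ × ℤ) : ‖(mulOp (siteF x) : Hilb m →L[ℂ] Hilb m)‖ ≤ 1 :=
  (norm_mulOp_le _).trans ((BoundedContinuousFunction.norm_le zero_le_one).2 fun y => by
    simp only [siteF, bcf_apply]
    split_ifs <;> simp)

lemma norm_site_mul_le (x₀ : ℤ × ℤ) {R : ℝ} (hR : 0 ≤ R) (s : ℝ) (T : Hilb m →L[ℂ] Hilb m) :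
    ‖mulOp (siteF x₀) * T‖ ≤ Real.exp (-(s * R)) * ‖mulOp (wt x₀ R s) * T‖ := by
  have e : mulOp (siteF x₀) * T =
      ((Real.exp (-(s * R)) : ℝ) : ℂ) • (mulOp (siteF x₀) * (mulOp (wt x₀ R s) * T)) := by
    conv_lhs => rw [site_eq_wt x₀ hR s, mulOp_smul, mulOp_mul]
    exact (smul_mul_assoc _ _ _).trans (by rw [mul_assoc])
  rw [e]
  refine (norm_smul_le ((Real.exp (-(s * R)) : ℝ) : ℂ)
    (mulOp (siteF x₀) * (mulOp (wt x₀ R s) * T) : Hilb m →L[ℂ] Hilb m)).trans ?_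
  rw [Complex.norm_real, Real.norm_of_nonneg (Real.exp_pos _).le]
  gcongr
  refine (norm_mul_le _ _).trans ?_
  exact mul_le_of_le_one_left (norm_nonneg _) (norm_site_le x₀)

lemma IsLocal.exists_bound {A : Hilb m →L[ℂ] Hilb m} (hA : IsLocal A) :
    ∃ C > 0, ∃ ν > 0, ∀ s, s ≤ ν → ∀ x y,
      ‖entry A x y‖ ≤ C * Real.exp (-s * ‖pt x - pt y‖) := by
  obtain ⟨ν, hν, h⟩ := hA
  refine ⟨ν⁻¹, by positivity, ν, hν, fun s hs x y => (h x y).trans ?_⟩
  gcongr

lemma norm_t_mul_I (t : ℝ) : ‖(t * Complex.I : ℂ)‖ = |t| := by simp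

/-- off-diagonal decay of `f(A)` -/
lemma decay_one (f : 𝓢(ℝ, ℂ)) {A : Hilb m →L[ℂ] Hilb m} (hA : IsSelfAdjoint A) (hl : IsLocal A)
    (N : ℕ) : ∃ C > 0, ∀ (x : ℤ × ℤ) (h : ℤ × ℤ →ᵇ ℂ) (R : ℝ), ‖h‖ ≤ 1 → 0 ≤ R → h x = 0 →
      (∀ y, h y ≠ 0 → R ≤ ‖pt x - pt y‖) →
      ‖mulOp (siteF x) * cfcC f A * mulOp h‖ ≤ C / (1 + R) ^ N := by
  obtain ⟨C₀, hC₀, ν, hν, hb⟩ := hl.exists_bound
  have hs : 0 < ν / 2 := half_pos hν
  have hK : 0 < C₀ * Ssum (ν / 2) := mul_pos hC₀ (Ssum_pos hs)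
  obtain ⟨C, hC, hbd⟩ := exists_cfcC_bound (H := Hilb m) f hK hs N
  refine ⟨C, hC, fun x h R hh hR hx hy => ?_⟩
  have h0 : (mulOp (siteF x) * mulOp h : Hilb m →L[ℂ] Hilb m) = 0 := by
    rw [← mulOp_mul, ← mulOp_zero]
    congr 1
    ext y
    rcases eq_or_ne y x with rfl | hne
    · simp [hx]
    · simp [siteF, hne]
  have := hbd A 0 (mulOp (siteF x)) (mulOp h) R hA (IsSelfAdjoint.zero _) (norm_site_le x)
    ((norm_mulOp_le h).trans hh) hR fun t => ?_
  · rwa [mul_sub, sub_mul, mul_cfcC_zero_mul h0, sub_zero] at this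
  · have e : (mulOp h : Hilb m →L[ℂ] Hilb m) = mulOp (wt x R (-(ν / 2))) * mulOp h := by
      rw [← mulOp_mul]
      congr 1
      ext y
      rw [BoundedContinuousFunction.mul_apply]
      by_cases h1 : h y = 0
      · rw [h1, mul_zero]
      · rw [wt_apply, max_eq_left (by linarith [hy y h1])]
        simp
    have h2 := norm_le_exp_of_pow (A := A) (B := 0) (a := mulOp (wt x R (ν / 2)))
      (b := mulOp (wt x R (-(ν / 2)))) (K := C₀ * Ssum (ν / 2)) (t * Complex.I) fun n => by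
        rcases n with _ | n
        · simp
        · rw [zero_pow (Nat.succ_ne_zero n), sub_zero,
            weight_pow (mulOp_wt_neg_mul x R _) (mulOp_wt_mul_neg x R _)]
          exact norm_pow_le_of_le (norm_wt_conj hC₀ hs (hb _ (by linarith)) x R) _
    rw [norm_t_mul_I] at h2
    rw [e, mul_assoc]
    refine (norm_site_mul_le x hR (ν / 2) _).trans ?_
    rw [← mul_assoc, ← mul_assoc, sub_eq_add_neg (_ * |t|), Real.exp_add, mul_comm (Real.exp _)]
    gcongr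
    refine (norm_mul_le _ _).trans ?_
    exact (mul_le_of_le_one_right (norm_nonneg _) ((norm_mulOp_le h).trans hh)).trans h2

/-- `A` and `B` agree up to an error exponentially small in `δ` -/
def Close (A B : Hilb m →L[ℂ] Hilb m) (δ : ℤ × ℤ → ℝ) : Prop :=
  ∃ C > 0, ∃ ν > 0, ∀ x y,
    ‖entry (A - B) x y‖ ≤ C * Real.exp (-ν * δ x) * Real.exp (-ν * ‖pt x - pt y‖)

/-- comparison of `f(A)` and `f(B)` -/
lemma decay_two (f : 𝓢(ℝ, ℂ)) {A B : Hilb m →L[ℂ] Hilb m} (hA : IsSelfAdjoint A)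
    (hB : IsSelfAdjoint B) (hl : IsLocal A) {δ : ℤ × ℤ → ℝ} (hδ : ∀ x, 0 ≤ δ x)
    (hδ' : ∀ x y, δ x ≤ δ y + ‖pt x - pt y‖) (hc : Close A B δ) (N : ℕ) :
    ∃ C > 0, ∀ x : ℤ × ℤ, ‖mulOp (siteF x) * (cfcC f A - cfcC f B)‖ ≤ C / (1 + δ x) ^ N := by
  obtain ⟨C₀, hC₀, ν, hν, hb⟩ := hl.exists_bound
  obtain ⟨C₁, hC₁, ν₁, hν₁, hc⟩ := hc
  set s := min (ν / 2) ν₁ with hsd
  have hs : 0 < s := lt_min (half_pos hν) hν₁
  have hs1 : s ≤ ν / 2 := min_le_left _ _
  have hs2 : s ≤ ν₁ := min_le_right _ _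
  have hS := Ssum_pos hs
  set K := C₀ * Ssum s + C₁ * Ssum s + ‖B‖ with hKd
  have hB0 := norm_nonneg B
  have k0 : 0 < C₀ * Ssum s := by positivity
  have k1 : 0 < C₁ * Ssum s := by positivity
  have hK : 0 < 2 * K := by positivity
  obtain ⟨C, hC, hbd⟩ := exists_cfcC_bound (H := Hilb m) f hK hs N
  refine ⟨C, hC, fun x => ?_⟩
  have := hbd A B (mulOp (siteF x)) 1 (δ x) hA hB (norm_site_le x)
    ContinuousLinearMap.norm_id_le (hδ x) fun t => ?_
  · rwa [mul_one] at this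
  · have h2 := norm_le_exp_of_pow (A := A) (B := B) (a := mulOp (wt x (δ x) s))
      (b := 1) (K := 2 * K) (t * Complex.I) fun n => by
        rw [mul_one]
        refine norm_weight_pow_sub (mulOp_wt_neg_mul x (δ x) s)
          ((norm_wt_conj hC₀ hs (hb _ (by linarith)) x _).trans (by linarith)) (by linarith)
          ((schur_exp hC₁ hs fun z y => ?_).trans (by linarith)) n
        rw [entry_mulOp_mul, norm_smul, norm_wt_apply]
        have h3 : max 0 (δ x - ‖pt x - pt z‖) ≤ δ z := max_le (hδ z) (by linarith [hδ' x z])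
        have h4 := hδ z
        calc _ ≤ Real.exp (s * δ z) *
              (C₁ * Real.exp (-s * δ z) * Real.exp (-s * ‖pt z - pt y‖)) := by
              gcongr
              refine (hc z y).trans ?_
              gcongr
          _ = _ := by
              rw [← mul_assoc, mul_left_comm, ← Real.exp_add]
              simp
    rw [norm_t_mul_I, mul_one] at h2
    rw [mul_one]
    refine (norm_site_mul_le x (hδ x) s _).trans ?_
    rw [sub_eq_add_neg (_ * |t|), Real.exp_add, mul_comm (Real.exp _)]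
    gcongr

lemma Close.qm_eq {A B : Hilb m →L[ℂ] Hilb m} {δ : ℤ × ℤ → ℝ} (hc : Close A B δ)
    {χ : ℤ × ℤ →ᵇ ℂ} (hχ : ∀ M : ℝ, ∀ᶠ x in cofinite, χ x ≠ 0 → M ≤ δ x) :
    qm (mulOp χ * A) = qm (mulOp χ * B) := by
  obtain ⟨C, hC, ν, hν, hc⟩ := hc
  rw [qm_eq_iff, ← mul_sub]
  refine mem_cptIdeal_of_entry hν fun ε hε => ?_
  obtain ⟨M, hM⟩ : ∃ M : ℝ, ‖χ‖ * C * Real.exp (-ν * M) ≤ ε := by
    have : Tendsto (fun R : ℝ => ‖χ‖ * C * Real.exp (-ν * R)) atTop (𝓝 (‖χ‖ * C * 0)) := by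
      refine tendsto_const_nhds.mul (Real.tendsto_exp_atBot.comp ?_)
      exact tendsto_id.const_mul_atTop_of_neg (by linarith)
    rw [mul_zero] at this
    exact (this.eventually (ge_mem_nhds hε)).exists
  filter_upwards [hχ M] with x hx y
  rw [entry_mulOp_mul, norm_smul]
  by_cases h0 : χ x = 0
  · rw [h0, norm_zero, zero_mul]; positivity
  · have h1 := hx h0
    calc _ ≤ ‖χ‖ * (C * Real.exp (-ν * M) * Real.exp (-ν * ‖pt x - pt y‖)) := by
          gcongr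
          · exact χ.norm_coe_le_norm x
          · refine (hc x y).trans ?_
            gcongr _ * Real.exp ?_ * _
            nlinarith
      _ = ‖χ‖ * C * Real.exp (-ν * M) * Real.exp (-ν * ‖pt x - pt y‖) := by ring
      _ ≤ _ := by gcongr

lemma IsInterface.symm {Hp Hm A : Hilb m →L[ℂ] Hilb m} {Ω : Set ℂ} (h : IsInterface Hp Hm Ω A) :
    IsInterface Hm Hp Ωᶜ A := by
  obtain ⟨h1, h2, ν, hν, h3⟩ := h
  refine ⟨h1, h2, ν, hν, fun x y => ?_⟩
  rw [compl_compl, frontier_compl, sub_right_comm]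
  exact h3 x y

lemma IsInterface.close {Hp Hm A : Hilb m →L[ℂ] Hilb m} {Ω : Set ℂ} (h : IsInterface Hp Hm Ω A)
    (hp : IsLocal Hp) (h1 : Ω.Nonempty) (h2 : Ωᶜ.Nonempty) :
    Close A Hp fun x => Metric.infDist (pt x) Ωᶜ := by
  obtain ⟨-, hl, ν₀, hν₀, h3⟩ := h
  obtain ⟨C₁, hC₁, ν₁, hν₁, b1⟩ := hl.exists_bound
  obtain ⟨C₂, hC₂, ν₂, hν₂, b2⟩ := hp.exists_bound
  have hfr : (frontier Ω).Nonempty :=
    nonempty_frontier_iff.2 ⟨h1, Set.nonempty_compl.1 h2⟩
  set ν := min ν₀ (min ν₁ ν₂) with hνd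
  have hν : 0 < ν := lt_min hν₀ (lt_min hν₁ hν₂)
  have n0 : ν ≤ ν₀ := min_le_left _ _
  have n1 : ν ≤ ν₁ := (min_le_right _ _).trans (min_le_left _ _)
  have n2 : ν ≤ ν₂ := (min_le_right _ _).trans (min_le_right _ _)
  have i0 : 0 < ν₀⁻¹ := by positivity
  refine ⟨ν₀⁻¹ + C₁ + C₂, by positivity, ν / 2, half_pos hν, fun x y => ?_⟩
  set C := ν₀⁻¹ + C₁ + C₂ with hC
  set r := ‖pt x - pt y‖ with hr
  set d := Metric.infDist (pt x) Ωᶜ with hd
  have d0 : 0 ≤ d := Metric.infDist_nonneg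
  have r0 : 0 ≤ r := norm_nonneg _
  have e1 : ‖entry (A - Hp) x y‖ ≤ C * Real.exp (-ν * r) := by
    rw [entry_sub]
    refine (norm_sub_le _ _).trans ((add_le_add (b1 ν n1 x y) (b2 ν n2 x y)).trans ?_)
    rw [← add_mul]
    gcongr
    linarith
  have e2 : ‖entry (A - Hp) x y‖ ≤ C * Real.exp (-ν * d) := by
    by_cases hx : pt x ∈ Ω
    · have e : entry (A - Hp) x y = entry (A - Lam Ω * Hp * Lam Ω - Lam Ωᶜ * Hm * Lam Ωᶜ) x y -
          indF Ωᶜ y • entry Hp x y := by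
        rw [entry_sub, entry_sub, entry_sub, Lam_eq, Lam_eq, entry_mul_mulOp, entry_mul_mulOp,
          entry_mulOp_mul, entry_mulOp_mul, indF_of_mem hx,
          indF_of_notMem (S := Ωᶜ) (x := x) (fun h => h hx), indF_compl]
        ext1 v
        simp [sub_smul]
      rw [e]
      have d1 : d ≤ Metric.infDist (pt x) (frontier Ω) := by
        rw [hd, ← Metric.infDist_closure]
        refine Metric.infDist_le_infDist_of_subset ?_ hfr
        rw [← frontier_compl]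
        exact frontier_subset_closure
      have f1 : ‖entry (A - Lam Ω * Hp * Lam Ω - Lam Ωᶜ * Hm * Lam Ωᶜ) x y‖ ≤
          ν₀⁻¹ * Real.exp (-ν * d) := by
        refine (h3 x y).trans ?_
        gcongr _ * Real.exp ?_
        nlinarith
      have f2 : ‖indF Ωᶜ y • entry Hp x y‖ ≤ C₂ * Real.exp (-ν * d) := by
        rw [norm_smul]
        by_cases hy : pt y ∈ Ωᶜ
        · rw [indF_of_mem hy, norm_one, one_mul]
          refine (b2 ν n2 x y).trans ?_
          have : d ≤ r := by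
            rw [hr, ← dist_eq_norm]
            exact Metric.infDist_le_dist_of_mem hy
          gcongr _ * Real.exp ?_
          nlinarith
        · rw [indF_of_notMem hy, norm_zero, zero_mul]; positivity
      refine (norm_sub_le _ _).trans ((add_le_add f1 f2).trans ?_)
      rw [← add_mul]
      gcongr
      linarith
    · have : d = 0 := Metric.infDist_zero_of_mem hx
      refine e1.trans ?_
      rw [this]
      gcongr _ * Real.exp ?_
      nlinarith
  change _ ≤ C * Real.exp (-(ν / 2) * d) * Real.exp (-(ν / 2) * r)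
  rw [mul_assoc, ← Real.exp_add]
  rcases le_total r d with h | h
  · refine e2.trans ?_
    gcongr _ * Real.exp ?_
    nlinarith
  · refine e1.trans ?_
    gcongr _ * Real.exp ?_
    nlinarith

end Pool.Agent.MP_120ee9_mp

end
end

-- part MP_120ee9_mp.Geometry
section

/-! Slowly oscillating functions, rays, cutoffs. -/

noncomputable section

namespace Pool.Agent.MP_120ee9_mp

open Filter Topology Metric
open scoped BoundedContinuousFunction Real ComplexConjugate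

lemma tendsto_norm_pt : Tendsto (fun x => ‖pt x‖) cofinite atTop := by
  rw [Filter.tendsto_atTop]
  intro M
  have h := summable_inv_pow_four.tendsto_cofinite_zero.eventually
    (gt_mem_nhds (show (0 : ℝ) < 1 / (1 + |M|) ^ 4 by positivity))
  filter_upwards [h] with x hx
  by_contra hc
  have h1 : ‖pt x‖ ≤ |M| := (not_le.1 hc).le.trans (le_abs_self M)
  refine absurd hx (not_lt.2 ?_)
  gcongr

lemma eventually_near {P : ℤ × ℤ → Prop} (hP : ∀ᶠ y in cofinite, P y) (R : ℝ) :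
    ∀ᶠ x in cofinite, ∀ y, ‖pt x - pt y‖ ≤ R → P y := by
  obtain ⟨M, hM⟩ := ((eventually_cofinite.1 hP).image fun y => ‖pt y‖).bddAbove
  filter_upwards [tendsto_norm_pt.eventually_gt_atTop (M + R)] with x hx y hy
  by_contra hc
  have h1 : ‖pt y‖ ≤ M := hM ⟨y, hc, rfl⟩
  have h2 := norm_sub_norm_le (pt x) (pt y)
  linarith

lemma SO.of_tendsto_zero {h : ℤ × ℤ → ℂ} (hh : Tendsto h cofinite (𝓝 0)) : SO h := by
  intro R ε hε
  have h1 := hh.norm.eventually (ge_mem_nhds (show ‖(0 : ℂ)‖ < ε / 2 by simpa using hε))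
  filter_upwards [h1, eventually_near h1 R] with x hx hx' y hy
  linarith [norm_sub_le (h x) (h y), hx' y hy]

lemma SO.sub {f g : ℤ × ℤ → ℂ} (hf : SO f) (hg : SO g) : SO fun x => f x - g x := by
  intro R ε hε
  filter_upwards [hf R _ (half_pos hε), hg R _ (half_pos hε)] with x h1 h2 y hy
  have e : f x - g x - (f y - g y) = (f x - f y) - (g x - g y) := by ring
  rw [e]
  linarith [norm_sub_le (f x - f y) (g x - g y), h1 y hy, h2 y hy]

lemma SO.const (c : ℂ) : SO fun _ => c := fun _ _ hε =>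
  Eventually.of_forall fun _ _ _ => by simpa using hε.le

lemma SO.of_le {f g : ℤ × ℤ → ℂ} (hf : SO f) {L : ℝ} (hL : 0 < L)
    (h : ∀ x y, ‖g x - g y‖ ≤ L * ‖f x - f y‖) : SO g := by
  intro R ε hε
  filter_upwards [hf R (ε / L) (by positivity)] with x hx y hy
  refine (h x y).trans ?_
  rw [← le_div_iff₀' hL]
  exact hx y hy

lemma abs_ratio_sub_le {a b a' b' : ℝ} (ha' : 0 ≤ a') (hb' : 0 ≤ b') (h : 0 < a + b)
    (h' : 0 < a' + b') : |a / (b + a) - a' / (b' + a')| ≤ (|a - a'| + |b - b'|) / (b + a) := by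
  have e : a / (b + a) - a' / (b' + a') =
      ((a - a') * (b' / (b' + a')) - (b - b') * (a' / (b' + a'))) / (b + a) := by
    have : b + a ≠ 0 := by linarith
    have : b' + a' ≠ 0 := by linarith
    field_simp
    ring
  have h1 : |b' / (b' + a')| ≤ 1 := by
    rw [abs_of_nonneg (by positivity), div_le_one (by linarith)]; linarith
  have h2 : |a' / (b' + a')| ≤ 1 := by
    rw [abs_of_nonneg (by positivity), div_le_one (by linarith)]; linarith
  rw [e, abs_div, abs_of_pos (by linarith : 0 < b + a)]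
  refine div_le_div_of_nonneg_right ((abs_sub _ _).trans ?_) (by linarith)
  rw [abs_mul, abs_mul]
  exact add_le_add (mul_le_of_le_one_right (abs_nonneg _) h1)
    (mul_le_of_le_one_right (abs_nonneg _) h2)

lemma so_ratio {a b : ℤ × ℤ → ℝ} (ha : ∀ x, 0 ≤ a x) (hb : ∀ x, 0 ≤ b x)
    (la : ∀ x y, |a x - a y| ≤ 2 * ‖pt x - pt y‖) (lb : ∀ x y, |b x - b y| ≤ 2 * ‖pt x - pt y‖)
    (h : Tendsto (fun x => a x + b x) cofinite atTop) :
    SO fun x => ((a x / (b x + a x) : ℝ) : ℂ) := by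
  intro R ε hε
  have h0 := h.eventually_gt_atTop 0
  filter_upwards [h0, eventually_near h0 R, h.eventually_ge_atTop (4 * R / ε)] with x h1 h2 h3 y hy
  rw [← Complex.ofReal_sub, Complex.norm_real, Real.norm_eq_abs]
  refine (abs_ratio_sub_le (ha y) (hb y) h1 (h2 y hy)).trans ?_
  rw [div_le_iff₀ hε] at h3
  rw [div_le_iff₀ (by linarith)]
  nlinarith [la x y, lb x y]

/-- functions on the punctured plane that depend continuously on the angle only -/
def Angular (Φ : ℂ → ℂ) : Prop :=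
  ContinuousOn Φ {0}ᶜ ∧ ∀ r : ℝ, 0 < r → ∀ z, Φ (r * z) = Φ z

lemma Angular.so {Φ : ℂ → ℂ} (h : Angular Φ) : SO fun x => Φ (pt x) := by
  intro R ε hε
  have hK : IsCompact (closedBall (0 : ℂ) 2 \ ball 0 (1 / 2)) :=
    (isCompact_closedBall _ _).diff isOpen_ball
  have hu := hK.uniformContinuousOn_of_continuous (h.1.mono fun z hz h0 => hz.2 (by
    rw [Set.mem_singleton_iff.1 h0]; simp))
  obtain ⟨δ, hδ, hu⟩ := Metric.uniformContinuousOn_iff_le.1 hu ε hε
  filter_upwards [tendsto_norm_pt.eventually_gt_atTop 0,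
    tendsto_norm_pt.eventually_ge_atTop (R / δ), tendsto_norm_pt.eventually_ge_atTop (2 * R)]
    with x h1 h2 h3 y hy
  set r := ‖pt x‖ with hr
  have hn : ∀ z : ℂ, ‖((r⁻¹ : ℝ) : ℂ) * z‖ = ‖z‖ / r := fun z => by
    rw [norm_mul, Complex.norm_real, Real.norm_of_nonneg (by positivity), div_eq_inv_mul]
  have h4 := norm_sub_norm_le (pt x) (pt y)
  have h5 := norm_sub_norm_le (pt y) (pt x)
  rw [norm_sub_rev] at h5
  rw [← h.2 r⁻¹ (by positivity) (pt x), ← h.2 r⁻¹ (by positivity) (pt y), ← dist_eq_norm]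
  refine hu _ ?_ _ ?_ ?_
  · simp only [Set.mem_sdiff, mem_closedBall_zero_iff, mem_ball_zero_iff, hn, ← hr,
      div_self h1.ne']
    norm_num
  · simp only [Set.mem_sdiff, mem_closedBall_zero_iff, mem_ball_zero_iff, hn, not_lt]
    rw [div_le_iff₀ h1, le_div_iff₀ h1]
    constructor <;> linarith
  · rw [dist_eq_norm, ← mul_sub, hn, div_le_iff₀ h1]
    rw [div_le_iff₀ hδ] at h2
    linarith

/-- a Lipschitz function that vanishes exactly on the ray through `a` -/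
def dr (a z : ℂ) : ℝ := ‖z - ‖z‖ * a‖

lemma dr_nonneg (a z : ℂ) : 0 ≤ dr a z := norm_nonneg _

lemma dr_lip {a : ℂ} (ha : ‖a‖ = 1) (z w : ℂ) : |dr a z - dr a w| ≤ 2 * ‖z - w‖ := by
  refine (abs_norm_sub_norm_le _ _).trans ?_
  have e : z - ‖z‖ * a - (w - ‖w‖ * a) = (z - w) - ((‖z‖ - ‖w‖ : ℝ) : ℂ) * a := by
    push_cast; ring
  rw [e]
  refine (norm_sub_le _ _).trans ?_
  rw [norm_mul, ha, mul_one, Complex.norm_real, Real.norm_eq_abs]
  linarith [abs_norm_sub_norm_le z w]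

lemma Angular.tendsto_mul {Φ : ℂ → ℂ} (h : Angular Φ) {a : ℂ} (ha : ‖a‖ = 1) {χ : ℤ × ℤ → ℂ}
    (h1 : ∀ x, ‖χ x‖ ≤ 1) (h2 : ∀ x, χ x ≠ 0 → dr a (pt x) ≤ 2 * √(1 + ‖pt x‖)) :
    Tendsto (fun x => χ x * (Φ (pt x) - Φ a)) cofinite (𝓝 0) := by
  have ha0 : a ≠ 0 := by rintro rfl; simp at ha
  have hc : ContinuousAt Φ a := h.1.continuousAt (isOpen_compl_singleton.mem_nhds ha0)
  rw [Metric.tendsto_nhds]
  intro ε hε
  obtain ⟨δ, hδ, hc⟩ := Metric.continuousAt_iff.1 hc ε hε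
  filter_upwards [tendsto_norm_pt.eventually_ge_atTop 1,
    tendsto_norm_pt.eventually_gt_atTop (8 / δ ^ 2)] with x h3 h4
  rw [dist_zero_right, norm_mul]
  by_cases h0 : χ x = 0
  · rw [h0, norm_zero, zero_mul]; exact hε
  refine (mul_le_of_le_one_left (norm_nonneg _) (h1 x)).trans_lt ?_
  set r := ‖pt x‖ with hr
  have hr0 : 0 < r := by linarith
  rw [← h.2 r⁻¹ (by positivity) (pt x), ← dist_eq_norm]
  refine hc ?_
  have e : ((r⁻¹ : ℝ) : ℂ) * pt x - a = ((r⁻¹ : ℝ) : ℂ) * (pt x - r * a) := by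
    have : (r : ℂ) ≠ 0 := by exact_mod_cast hr0.ne'
    push_cast
    field_simp
  rw [dist_eq_norm, e, norm_mul, Complex.norm_real, Real.norm_of_nonneg (by positivity),
    inv_mul_lt_iff₀ hr0]
  refine (h2 x h0).trans_lt ?_
  have h5 : √(1 + r) < r * δ / 2 := by
    rw [Real.sqrt_lt' (by positivity)]
    rw [div_lt_iff₀ (by positivity)] at h4
    nlinarith
  linarith

/-- the angle in `(0, 2π]` measured from the direction `a` -/
def ang (a z : ℂ) : ℝ := Complex.arg (-(z * conj a)) + π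

lemma ang_mem (a z : ℂ) : ang a z ∈ Set.Ioc 0 (2 * π) :=
  ⟨by rw [ang]; linarith [Complex.neg_pi_lt_arg (-(z * conj a))],
    by rw [ang]; linarith [Complex.arg_le_pi (-(z * conj a))]⟩

lemma ang_polar {a : ℂ} (ha : ‖a‖ = 1) (z : ℂ) :
    ‖z‖ * a * Complex.exp (ang a z * Complex.I) = z := by
  have h1 := Complex.norm_mul_exp_arg_mul_I (-(z * conj a))
  rw [norm_neg, norm_mul, Complex.norm_conj, ha, mul_one] at h1
  have h2 : a * conj a = 1 := by rw [Complex.mul_conj, Complex.normSq_eq_norm_sq, ha]; simp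
  rw [ang, Complex.ofReal_add, add_mul, Complex.exp_add, Complex.exp_pi_mul_I]
  linear_combination (-a) * h1 + z * h2

lemma ang_self {a : ℂ} (ha : ‖a‖ = 1) : ang a a = 2 * π := by
  rw [ang, Complex.mul_conj, Complex.normSq_eq_norm_sq, ha]
  simp only [one_pow, Complex.ofReal_one, Complex.arg_neg_one]
  ring

lemma dr_eq_zero_of_ang_eq {a b z : ℂ} (ha : ‖a‖ = 1) (hb : ‖b‖ = 1) (h : ang a z = ang a b) :
    dr b z = 0 := by
  have h1 := ang_polar ha z
  have h2 := ang_polar ha b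
  rw [hb] at h2
  rw [h] at h1
  rw [dr, norm_eq_zero]
  push_cast at h2
  linear_combination -h1 + ‖z‖ * h2

lemma ang_lt {a b : ℂ} (ha : ‖a‖ = 1) (hb : ‖b‖ = 1) (hab : a ≠ b) : ang a b < 2 * π := by
  refine lt_of_le_of_ne (ang_mem a b).2 fun h => hab ?_
  have := dr_eq_zero_of_ang_eq ha ha (h.trans (ang_self ha).symm)
  rw [dr, norm_eq_zero, hb] at this
  push_cast at this
  linear_combination -this

lemma angular_ang {a : ℂ} (ha : ‖a‖ = 1) {F : ℝ → ℂ} (hF : Continuous F) (h : F 0 = F (2 * π)) :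
    Angular fun z => F (ang a z) := by
  have ha0 : a ≠ 0 := by rintro rfl; simp at ha
  refine ⟨fun z hz => ContinuousAt.continuousWithinAt ?_, fun r hr z => ?_⟩
  · have : Fact (0 < 2 * π) := ⟨by positivity⟩
    let G : AddCircle (2 * π) → ℂ := AddCircle.liftIoc (2 * π) (-π) fun t => F (t + π)
    have hG : Continuous G := AddCircle.liftIoc_continuous
      (by rw [neg_add_cancel, h]; congr 1; ring) (by fun_prop)
    have e : (fun z => F (ang a z)) =
        fun z => G ((Complex.arg (-(z * conj a)) : ℝ) : AddCircle (2 * π)) := by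
      ext w
      exact (AddCircle.liftIoc_coe_apply (p := 2 * π) (a := -π) (f := fun t => F (t + π))
        ⟨Complex.neg_pi_lt_arg _, by linarith [Complex.arg_le_pi (-(w * conj a))]⟩).symm
    rw [e]
    have h0 : -(z * conj a) ≠ 0 := by simpa [ha0] using hz
    have h1 : ContinuousAt (fun z : ℂ => ((Complex.arg (-(z * conj a)) : ℝ) : Real.Angle)) z :=
      ContinuousAt.comp (f := fun z : ℂ => -(z * conj a)) (Complex.continuousAt_arg_coe_angle h0)
        (by fun_prop)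
    exact hG.continuousAt.comp h1
  · simp only [ang]
    rw [mul_assoc, ← mul_neg, Complex.arg_real_mul _ hr]

lemma crossing {a b : ℂ} (ha : ‖a‖ = 1) (hb : ‖b‖ = 1) {x y : ℂ}
    (h : ¬(ang a x < ang a b ↔ ang a y < ang a b)) : min (dr a x) (dr b x) ≤ 2 * ‖x - y‖ := by
  have ha0 : a ≠ 0 := by rintro rfl; simp at ha
  obtain ⟨w, hw, h0⟩ : ∃ w ∈ segment ℝ x y, dr a w = 0 ∨ dr b w = 0 := by
    by_contra hc
    push Not at hc
    have hcont : ContinuousOn (ang a) (segment ℝ x y) := by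
      intro w hw
      have h1 : -(w * conj a) ∈ Complex.slitPlane := by
        rw [Complex.mem_slitPlane_iff_arg]
        refine ⟨fun h2 => (hc w hw).1 (dr_eq_zero_of_ang_eq ha ha ?_), fun h2 => (hc w hw).1 ?_⟩
        · rw [ang_self ha, ang, h2]; ring
        · have : w = 0 := by simpa [ha0] using h2
          simp [dr, this]
      exact ((ContinuousAt.comp (f := fun z : ℂ => -(z * conj a)) (Complex.continuousAt_arg h1)
        (by fun_prop)).add continuousAt_const).continuousWithinAt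
    have hp := (convex_segment x y (𝕜 := ℝ)).isPreconnected
    have hx := left_mem_segment ℝ x y
    have hy := right_mem_segment ℝ x y
    rcases lt_or_ge (ang a x) (ang a b) with h1 | h1
    · have h2 : ang a b ≤ ang a y := by
        by_contra h3
        exact h ⟨fun _ => not_le.1 h3, fun _ => h1⟩
      obtain ⟨w, hw, e⟩ := hp.intermediate_value hx hy hcont ⟨h1.le, h2⟩
      exact (hc w hw).2 (dr_eq_zero_of_ang_eq ha hb e)
    · have h2 : ang a y < ang a b := by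
        by_contra h3
        exact h ⟨fun h4 => absurd h1 (not_le.2 h4), fun h4 => absurd h4 h3⟩
      obtain ⟨w, hw, e⟩ := hp.intermediate_value hy hx hcont ⟨h2.le, h1⟩
      exact (hc w hw).2 (dr_eq_zero_of_ang_eq ha hb e)
  have h1 : ‖x - w‖ ≤ ‖x - y‖ := by
    have := dist_add_dist_of_mem_segment hw
    rw [← dist_eq_norm, ← dist_eq_norm]
    linarith [dist_nonneg (x := w) (y := y)]
  rcases h0 with h0 | h0
  · refine (min_le_left _ _).trans ?_
    linarith [dr_lip ha x w, le_abs_self (dr a x - dr a w)]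
  · refine (min_le_right _ _).trans ?_
    linarith [dr_lip hb x w, le_abs_self (dr b x - dr b w)]

/-- polynomial lower bound on the growth -/
def Growth (f : ℂ → ℝ) : Prop :=
  (∀ z, 0 ≤ f z) ∧ ∃ n : ℕ, ∃ C > 0, ∀ z, 1 + ‖z‖ ≤ C * (1 + f z) ^ n

lemma Growth.min {f g : ℂ → ℝ} (hf : Growth f) (hg : Growth g) :
    Growth fun z => min (f z) (g z) := by
  obtain ⟨f0, n, C, hC, hf⟩ := hf
  obtain ⟨g0, k, D, hD, hg⟩ := hg
  refine ⟨fun z => le_min (f0 z) (g0 z), n + k, C + D, by positivity, fun z => ?_⟩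
  have := f0 z
  have := g0 z
  beta_reduce
  rcases le_total (f z) (g z) with h | h
  · rw [min_eq_left h]
    refine (hf z).trans ?_
    gcongr
    · linarith
    · linarith
    · omega
  · rw [min_eq_right h]
    refine (hg z).trans ?_
    gcongr
    · linarith
    · linarith
    · omega

lemma Growth.mono {f g : ℂ → ℝ} (hf : Growth f) (g0 : ∀ z, 0 ≤ g z) (h : ∀ z, f z ≤ 3 * g z) :
    Growth g := by
  obtain ⟨f0, n, C, hC, hf⟩ := hf
  refine ⟨g0, n, C * 3 ^ n, by positivity, fun z => (hf z).trans ?_⟩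
  rw [mul_assoc, ← mul_pow]
  have := f0 z
  gcongr
  linarith [h z]

lemma Growth.summable {f : ℂ → ℝ} (hf : Growth f) :
    ∃ N : ℕ, Summable fun x => 1 / (1 + f (pt x)) ^ N := by
  obtain ⟨f0, n, C, hC, hf⟩ := hf
  refine ⟨n * 4, Summable.of_nonneg_of_le (fun x => ?_) (fun x => ?_)
    (summable_inv_pow_four.mul_left (C ^ 4))⟩
  · have := f0 (pt x); positivity
  · have := f0 (pt x)
    rw [mul_one_div, div_le_div_iff₀ (by positivity) (by positivity), one_mul, pow_mul, ← mul_pow]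
    gcongr
    exact hf _

lemma Growth.exists_lt {f : ℂ → ℝ} (hf : Growth f) (M : ℝ) : ∃ r, ∀ z, r ≤ ‖z‖ → M < f z := by
  obtain ⟨f0, n, C, hC, hf⟩ := hf
  refine ⟨C * (1 + |M|) ^ n, fun z hz => ?_⟩
  by_contra hc
  have h1 : f z ≤ |M| := (not_lt.1 hc).trans (le_abs_self M)
  have := f0 z
  have h2 : C * (1 + f z) ^ n ≤ C * (1 + |M|) ^ n := by gcongr
  linarith [hf z]

lemma Growth.tendsto {f : ℂ → ℝ} (hf : Growth f) : Tendsto (fun x => f (pt x)) cofinite atTop := by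
  rw [Filter.tendsto_atTop]
  intro M
  obtain ⟨r, hr⟩ := hf.exists_lt M
  filter_upwards [tendsto_norm_pt.eventually_ge_atTop r] with x hx using (hr _ hx).le

lemma infDist_lip (S : Set ℂ) (z w : ℂ) : infDist z S ≤ infDist w S + ‖z - w‖ := by
  rw [← dist_eq_norm]; exact infDist_le_infDist_add_dist

lemma parabolic_nonempty (α : ℝ) (c : ℂ) (θ : ℝ) : (parabolic α c θ).Nonempty :=
  ⟨_, 1, by simp, by simp, rfl⟩

lemma growth_parabolic {α θ : ℝ} {c : ℂ} {Ω : Set ℂ} (hα : 0 < α) (hP : parabolic α c θ ⊆ Ω)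
    (hne : Ωᶜ.Nonempty) :
    Growth fun z => dr (Complex.exp (θ * Complex.I)) z + infDist z Ωᶜ := by
  set a := Complex.exp (θ * Complex.I) with had
  have ha : ‖a‖ = 1 := Complex.norm_exp_ofReal_mul_I θ
  have ha0 : a ≠ 0 := Complex.exp_ne_zero _
  refine ⟨fun z => add_nonneg (dr_nonneg _ _) infDist_nonneg, ⌈α⁻¹⌉₊ + 1,
    2 * (2 + ‖c‖) ^ (⌈α⁻¹⌉₊ + 1), by positivity, fun z => ?_⟩
  obtain ⟨w, hw, hd⟩ := (infDist_lt_iff hne).1 (lt_add_one (infDist z Ωᶜ))
  set n := ⌈α⁻¹⌉₊ with hn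
  set f := dr a z + infDist z Ωᶜ with hf
  have f0 : 0 ≤ f := add_nonneg (dr_nonneg _ _) infDist_nonneg
  set D := f + 1 + ‖c‖ with hD
  have c0 := norm_nonneg c
  have D1 : 1 ≤ D := by linarith
  set y := a⁻¹ * (w - c) with hy
  have hwy : w = c + a * y := by rw [hy]; field_simp; ring
  have h1 : ‖y - ‖z‖‖ ≤ D := by
    have e : y - ‖z‖ = a⁻¹ * ((z - ‖z‖ * a) - (z - w) - c) := by rw [hy]; field_simp; ring
    rw [e, norm_mul, norm_inv, ha, inv_one, one_mul]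
    rw [dist_eq_norm] at hd
    have h2 := norm_sub_le ((z - ‖z‖ * a) - (z - w)) c
    have h3 := norm_sub_le (z - ‖z‖ * a) (z - w)
    have h4 : dr a z = ‖z - ‖z‖ * a‖ := rfl
    linarith
  have h2 : |y.im| ≤ D := by simpa using (Complex.abs_im_le_norm _).trans h1
  have h3 : ‖z‖ - y.re ≤ D := by
    have := (Complex.abs_re_le_norm _).trans h1
    rw [Complex.sub_re, Complex.ofReal_re] at this
    linarith [neg_abs_le (y.re - ‖z‖)]
  have h4 : y.re ≤ D ^ n := by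
    rcases lt_or_ge y.re 0 with h5 | h5
    · exact h5.le.trans (by positivity)
    · have h6 : y.re ^ α ≤ D := by
        by_contra h7
        exact hw (hP ⟨y, h5, h2.trans (not_le.1 h7).le, hwy⟩)
      calc y.re ≤ D ^ α⁻¹ := (Real.le_rpow_inv_iff_of_pos h5 (by linarith) hα).2 h6
        _ ≤ D ^ (n : ℝ) := Real.rpow_le_rpow_of_exponent_le D1 (Nat.le_ceil _)
        _ = D ^ n := Real.rpow_natCast _ _
  have h5 : 1 ≤ D ^ n := one_le_pow₀ D1
  have h6 : 1 + D ≤ (2 + ‖c‖) * (1 + f) * 2 := by nlinarith [mul_nonneg c0 f0]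
  have h7 : D ≤ (2 + ‖c‖) * (1 + f) := by nlinarith [mul_nonneg c0 f0]
  have h8 : D ^ n ≤ ((2 + ‖c‖) * (1 + f)) ^ n := by gcongr
  have h9 : 2 + D ≤ (2 + ‖c‖) * (1 + f) * 2 := by nlinarith [mul_nonneg c0 f0]
  calc 1 + ‖z‖ ≤ 1 + D + D ^ n := by linarith
    _ ≤ D ^ n * (2 + D) := by nlinarith
    _ ≤ ((2 + ‖c‖) * (1 + f)) ^ n * ((2 + ‖c‖) * (1 + f) * 2) := by gcongr
    _ = _ := by rw [mul_pow]; ring

lemma ray_ne {a b : ℂ} (ha : ‖a‖ = 1) {Ω : Set ℂ} (h1 : Growth fun z => dr a z + infDist z Ωᶜ)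
    (h2 : Growth fun z => dr b z + infDist z Ωᶜᶜ) : a ≠ b := by
  rintro rfl
  obtain ⟨r, hr⟩ := (h1.min h2).exists_lt 0
  have e : ‖((|r| : ℝ) : ℂ) * a‖ = |r| := by simp [ha]
  have h3 := hr (((|r| : ℝ) : ℂ) * a) (by rw [e]; exact le_abs_self r)
  have h4 : dr a (((|r| : ℝ) : ℂ) * a) = 0 := by rw [dr, e, sub_self, norm_zero]
  rw [h4, zero_add, zero_add, lt_min_iff] at h3
  by_cases h : ((|r| : ℝ) : ℂ) * a ∈ Ωᶜ
  · exact h3.1.ne' (infDist_zero_of_mem h)
  · exact h3.2.ne' (infDist_zero_of_mem h)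

lemma abs_sqrt_sub_le {r s : ℝ} (hr : 0 ≤ r) (hs : 0 ≤ s) : |√(1 + r) - √(1 + s)| ≤ |r - s| := by
  have h1 : 1 ≤ √(1 + r) := Real.one_le_sqrt.2 (by linarith)
  have h2 := Real.sqrt_nonneg (1 + s)
  have e : r - s = (√(1 + r) - √(1 + s)) * (√(1 + r) + √(1 + s)) := by
    have h3 := Real.mul_self_sqrt (show 0 ≤ 1 + r by linarith)
    have h4 := Real.mul_self_sqrt (show 0 ≤ 1 + s by linarith)
    linear_combination h4 - h3
  rw [e, abs_mul]
  refine le_mul_of_one_le_right (abs_nonneg _) ?_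
  rw [abs_of_nonneg (by linarith)]
  linarith

lemma exists_cutoff {a : ℂ} (ha : ‖a‖ = 1) {S : Set ℂ}
    (hg : Growth fun z => dr a z + infDist z S) :
    ∃ χ : ℤ × ℤ →ᵇ ℂ, SO χ ∧ (∀ x, pt x ∈ S → χ x = 0) ∧
      (∀ M : ℝ, ∀ᶠ x in cofinite, χ x ≠ 0 → M ≤ infDist (pt x) S) ∧ (∀ x, ‖χ x‖ ≤ 1) ∧
      (∀ x, χ x ≠ 0 → dr a (pt x) ≤ 2 * √(1 + ‖pt x‖)) ∧
      ∀ R : ℝ, ∀ᶠ x in cofinite, dr a (pt x) ≤ R → χ x = 1 := by
  let d : ℤ × ℤ → ℝ := fun x => dr a (pt x)
  let e : ℤ × ℤ → ℝ := fun x => min (infDist (pt x) S) √(1 + ‖pt x‖)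
  let s : ℤ × ℤ → ℝ := fun x => e x / (d x + e x)
  let φ : ℝ → ℝ := fun t => max 0 (min 1 (3 * t - 1))
  have d0 : ∀ x, 0 ≤ d x := fun x => dr_nonneg _ _
  have e0 : ∀ x, 0 ≤ e x := fun x => le_min infDist_nonneg (Real.sqrt_nonneg _)
  have e1 : ∀ x, e x ≤ infDist (pt x) S := fun x => min_le_left _ _
  have e2 : ∀ x, e x ≤ √(1 + ‖pt x‖) := fun x => min_le_right _ _
  have hφ : ∀ t, ‖((φ t : ℝ) : ℂ)‖ ≤ 1 := fun t => by
    rw [Complex.norm_real, Real.norm_of_nonneg (le_max_left _ _)]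
    exact max_le zero_le_one (min_le_left _ _)
  have ht : Tendsto (fun x => e x + d x) cofinite atTop := by
    have h1 : Tendsto (fun x => √(1 + ‖pt x‖)) cofinite atTop :=
      Real.tendsto_sqrt_atTop.comp (tendsto_atTop_add_const_left _ _ tendsto_norm_pt)
    rw [Filter.tendsto_atTop]
    intro M
    filter_upwards [h1.eventually_ge_atTop M, hg.tendsto.eventually_ge_atTop M] with x h2 h3
    have := d0 x
    rcases min_choice (infDist (pt x) S) √(1 + ‖pt x‖) with h | h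
    · simp only [e, d, h]; linarith
    · simp only [e, h]; linarith
  have hs : SO fun x => ((s x : ℝ) : ℂ) := by
    refine so_ratio e0 d0 (fun x y => ?_) (fun x y => dr_lip ha _ _) ht
    refine (abs_min_sub_min_le_max _ _ _ _).trans (max_le ?_ ?_)
    · have h1 := infDist_lip S (pt x) (pt y)
      have h2 := infDist_lip S (pt y) (pt x)
      rw [norm_sub_rev] at h2
      have := norm_nonneg (pt x - pt y)
      rw [abs_le]
      constructor <;> linarith
    · refine (abs_sqrt_sub_le (norm_nonneg _) (norm_nonneg _)).trans ?_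
      linarith [abs_norm_sub_norm_le (pt x) (pt y), norm_nonneg (pt x - pt y)]
  have hne : ∀ x, ((φ (s x) : ℝ) : ℂ) ≠ 0 → d x < 2 * e x := by
    intro x hx
    by_contra hc
    refine hx ?_
    have h1 : s x ≤ 1 / 3 := by
      refine div_le_of_le_mul₀ (add_nonneg (d0 x) (e0 x)) (by norm_num) ?_
      linarith [not_lt.1 hc]
    rw [Complex.ofReal_eq_zero]
    exact max_eq_left ((min_le_right _ _).trans (by linarith))
  refine ⟨bcf (fun x => ((φ (s x) : ℝ) : ℂ)) 1 fun x => hφ _, ?_, fun x hx => ?_, fun M => ?_,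
    fun x => hφ _, fun x hx => ?_, fun R => ?_⟩
  · refine hs.of_le (L := 3) (by norm_num) fun x y => ?_
    simp only [bcf_apply]
    rw [← Complex.ofReal_sub, ← Complex.ofReal_sub, Complex.norm_real, Complex.norm_real,
      Real.norm_eq_abs, Real.norm_eq_abs]
    refine (abs_max_sub_max_le_max _ _ _ _).trans (max_le (by simp) ?_)
    refine (abs_min_sub_min_le_max _ _ _ _).trans (max_le (by simp) (le_of_eq ?_))
    rw [show 3 * s x - 1 - (3 * s y - 1) = 3 * (s x - s y) by ring, abs_mul]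
    norm_num
  · by_contra hc
    have h1 := hne x hc
    have h2 := e1 x
    rw [infDist_zero_of_mem hx] at h2
    linarith [d0 x]
  · filter_upwards [ht.eventually_ge_atTop (3 * M)] with x hx h0
    linarith [hne x h0, e1 x]
  · linarith [hne x hx, e2 x]
  · filter_upwards [ht.eventually_ge_atTop (3 * R), ht.eventually_gt_atTop 0] with x h1 h2 h3
    have h4 : 2 / 3 ≤ s x := by
      rw [le_div_iff₀ (by linarith)]
      linarith [show d x ≤ R from h3]
    have h5 : φ (s x) = 1 := by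
      simp only [φ]
      rw [min_eq_left (by linarith), max_eq_right zero_le_one]
    simp [h5]

lemma exists_angF (a : ℂ) {F : ℝ → ℝ} (hF : Continuous F) :
    ∃ h : ℤ × ℤ →ᵇ ℂ, ∀ x, h x = F (ang a (pt x)) := by
  obtain ⟨C, hC⟩ := (isCompact_Icc (a := 0) (b := 2 * π)).exists_bound_of_continuousOn
    hF.continuousOn
  exact ⟨bcf (fun x => F (ang a (pt x))) C fun x => by
    rw [Complex.norm_real]
    exact hC _ (Set.Ioc_subset_Icc_self (ang_mem _ _)), fun _ => rfl⟩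

end Pool.Agent.MP_120ee9_mp

end
end

-- part MP_120ee9_mp.Main
section

/-! Assembly of the proof. -/

noncomputable section

namespace Pool.Agent.MP_120ee9_mp

open Filter Topology Metric NormedSpace
open scoped BoundedContinuousFunction Real ComplexConjugate SchwartzMap ContDiff MeasureTheory

section General

variable {H : Type*} [NormedAddCommGroup H] [InnerProductSpace ℂ H] [CompleteSpace H]

lemma exists_gap {A B : H →L[ℂ] H} {E ε : ℝ} (hA : (E : ℂ) ∉ spectrum ℂ A)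
    (hB : (E : ℂ) ∉ spectrum ℂ B) (hε : 0 < ε) :
    ∃ e, 0 < e ∧ e ≤ ε ∧ ∀ t ∈ Set.Icc (E - e) (E + e),
      (t : ℂ) ∉ spectrum ℂ A ∧ (t : ℂ) ∉ spectrum ℂ B := by
  have h1 : ∀ᶠ t : ℝ in 𝓝 E, (t : ℂ) ∉ spectrum ℂ A :=
    Complex.continuous_ofReal.continuousAt.eventually_mem
      ((spectrum.isClosed A).isOpen_compl.mem_nhds hA)
  have h2 : ∀ᶠ t : ℝ in 𝓝 E, (t : ℂ) ∉ spectrum ℂ B :=
    Complex.continuous_ofReal.continuousAt.eventually_mem
      ((spectrum.isClosed B).isOpen_compl.mem_nhds hB)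
  obtain ⟨δ, hδ, h⟩ := Metric.eventually_nhds_iff.1 (h1.and h2)
  refine ⟨min ε (δ / 2), lt_min hε (half_pos hδ), min_le_left _ _, fun t ht => h ?_⟩
  have := min_le_right ε (δ / 2)
  rw [Real.dist_eq, abs_lt]
  constructor <;> linarith [ht.1, ht.2]

/-- smooth switch function -/
def sw (E e : ℝ) (t : ℝ) : ℝ := Real.smoothTransition ((E + e - t) / (2 * e))

lemma sw_contDiff (E e : ℝ) : ContDiff ℝ ∞ (sw E e) :=
  Real.smoothTransition.contDiff.comp (by fun_prop)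

lemma sw_eq {E e t : ℝ} (he : 0 < e) (ht : t ∉ Set.Icc (E - e) (E + e)) :
    sw E e t = if t < E then 1 else 0 := by
  rw [Set.mem_Icc, not_and_or, not_le, not_le] at ht
  rcases ht with ht | ht
  · rw [if_pos (by linarith)]
    exact Real.smoothTransition.one_of_one_le (by rw [le_div_iff₀ (by positivity)]; linarith)
  · rw [if_neg (by linarith)]
    exact Real.smoothTransition.zero_of_nonpos
      (div_nonpos_of_nonpos_of_nonneg (by linarith) (by positivity))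

lemma exp_sw {E e t : ℝ} (he : 0 < e) (ht : t ∉ Set.Icc (E - e) (E + e)) :
    Complex.exp (2 * π * Complex.I * sw E e t) - 1 = 0 := by
  rw [sw_eq he ht]
  split_ifs <;> simp

lemma exists_schwartz {E e : ℝ} (he : 0 < e) :
    ∃ f : 𝓢(ℝ, ℂ), ∀ t, f t = Complex.exp (2 * π * Complex.I * sw E e t) - 1 := by
  have h1 : HasCompactSupport fun t => Complex.exp (2 * π * Complex.I * sw E e t) - 1 :=
    HasCompactSupport.intro isCompact_Icc fun t ht => exp_sw he ht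
  have h2 : ContDiff ℝ ∞ fun t => Complex.exp (2 * π * Complex.I * sw E e t) - 1 :=
    ((Complex.contDiff_exp (𝕜 := ℝ)).comp
      (contDiff_const.mul (Complex.ofRealCLM.contDiff.comp (sw_contDiff E e)))).sub contDiff_const
  exact ⟨h1.toSchwartzMap h2, fun _ => rfl⟩

lemma cfc_sw {A : H →L[ℂ] H} {E e : ℝ} (he : 0 < e)
    (h : ∀ t ∈ Set.Icc (E - e) (E + e), (t : ℂ) ∉ spectrum ℂ A) : cfc (sw E e) A = fermi A E :=
  cfc_congr fun t ht => sw_eq he fun h1 => h t h1 (spectrum.algebraMap_mem ℂ ht)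

lemma isProj_sw {Θ : H ≃ₗᵢ⋆[ℂ] H} {A : H →L[ℂ] H} (hA : IsSelfAdjoint A) (hΘ : cj Θ A = A)
    {E e : ℝ} (he : 0 < e) (h : ∀ t ∈ Set.Icc (E - e) (E + e), (t : ℂ) ∉ spectrum ℂ A) :
    IsProj Θ (cfc (sw E e) A) := by
  have hc := (sw_contDiff E e).continuous
  refine ⟨?_, (cfc_predicate _ A : IsSelfAdjoint _), by rw [cj_cfc Θ _ A hA hc.continuousOn, hΘ]⟩
  rw [← cfc_mul _ _ A]
  refine cfc_congr fun t ht => ?_
  rw [sw_eq he fun h1 => h t h1 (spectrum.algebraMap_mem ℂ ht)]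
  split_ifs <;> simp

/-- approximate eigenvectors in the absolutely continuous subspace -/
def AcApprox (A : H →L[ℂ] H) (E : ℝ) : Prop :=
  ∀ ε > 0, ∃ φ : H, φ ≠ 0 ∧ (∃ μ, IsSpectralMeasure A φ μ ∧ μ ≪ MeasureTheory.volume) ∧
    ‖A φ - (E : ℂ) • φ‖ ≤ ε * ‖φ‖

theorem ac_of_data {Θ : H ≃ₗᵢ⋆[ℂ] H} (hΘ : ∀ x, Θ (Θ x) = -x)
    {Hp Hm Hh L Q χp χm k η U : H →L[ℂ] H} {E : ℝ}
    (sp : IsSelfAdjoint Hp) (sm : IsSelfAdjoint Hm) (sh : IsSelfAdjoint Hh)
    (tp : cj Θ Hp = Hp) (tm : cj Θ Hm = Hm) (th : cj Θ Hh = Hh)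
    (gp : (E : ℂ) ∉ spectrum ℂ Hp) (gm : (E : ℂ) ∉ spectrum ℂ Hm)
    (hne : ind2 (compress (fermi Hp E) U) ≠ ind2 (compress (fermi Hm E) U))
    (hL : IsProj Θ L) (hQ : IsProj Θ Q)
    (hLQ : Commute L Q) (hLp : Commute L χp) (hLm : Commute L χm) (hLk : Commute L k)
    (hQp : χp * Q = χp) (hQp' : Q * χp = χp) (hQm : χm * Q = 0) (hQm' : Q * χm = 0)
    (hkp : Commute χp k) (hkm : Commute χm k)
    (hk : IsSelfAdjoint k) (hk' : cj Θ k = k) (hη : IsSelfAdjoint η) (hη' : cj Θ η = η)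
    (hU1 : star U * U = 1) (hU2 : U * star U = 1) (hU : cj Θ U = star U) (hUη : Commute U η)
    (cA : ∀ A, A = Hp ∨ A = Hm ∨ A = Hh → Cm χp A ∧ Cm χm A ∧ Cm (L * (1 - χp - χm)) A ∧
      Cm k A ∧ Cm η A ∧ Cm U A)
    (ek1 : qm (χp * k) = qm χp) (ek2 : qm (χm * k) = 0)
    (eu : 1 + L * (ex k - 1) = star U * exp (((1 : ℝ) * Complex.I : ℂ) • η))
    (ep : qm (χp * Hh) = qm (χp * Hp)) (em : qm (χm * Hh) = qm (χm * Hm))
    (hn : ∀ f : 𝓢(ℝ, ℂ), cfcC f Hp = 0 → cfcC f Hm = 0 →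
      Nuclear (L * cfcC f Hh - cfcC f Hh * L)) : AcApprox Hh E := by
  intro ε hε
  obtain ⟨e, he, he', hgap⟩ := exists_gap gp gm hε
  have hc := (sw_contDiff E e).continuous
  have hPp := isProj_sw sp tp he fun t ht => (hgap t ht).1
  have hPm := isProj_sw sm tm he fun t ht => (hgap t ht).2
  obtain ⟨p1, p2, p3, p4, p5, p6⟩ := cA Hp (Or.inl rfl)
  obtain ⟨m1, m2, m3, m4, m5, m6⟩ := cA Hm (Or.inr (Or.inl rfl))
  obtain ⟨h1, h2, h3, -, -, -⟩ := cA Hh (Or.inr (Or.inr rfl))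
  have hG : IsSelfAdjoint (cfc (sw E e) Hh) := cfc_predicate _ Hh
  have hG' : cj Θ (cfc (sw E e) Hh) = cfc (sw E e) Hh := by
    rw [cj_cfc Θ _ Hh sh hc.continuousOn, th]
  have hS : InS Θ L χp χm (cfc (sw E e) Hp) (cfc (sw E e) Hm) (cfc (sw E e) Hh) :=
    ⟨hG, hG', h1.cfc_right sh hc.continuousOn, h2.cfc_right sh hc.continuousOn,
      h3.cfc_right sh hc.continuousOn,
      qm_mul_cfc_congr sh sp p1 ep hc.continuousOn hc.continuousOn,
      qm_mul_cfc_congr sh sm m2 em hc.continuousOn hc.continuousOn⟩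
  have hind := ind2_interface hΘ hL hQ hPp hPm hS hLQ hLp hLm hLk hQp hQp' hQm hQm' hkp hkm hk hk'
    hη hη' hU1 hU2 hU hUη (by
      rintro P (rfl | rfl)
      · exact ⟨p1.cfc_right sp hc.continuousOn, p2.cfc_right sp hc.continuousOn,
          p3.cfc_right sp hc.continuousOn, (p4.cfc_right sp hc.continuousOn).symm,
          (p5.cfc_right sp hc.continuousOn).symm, (p6.cfc_right sp hc.continuousOn).symm⟩
      · exact ⟨m1.cfc_right sm hc.continuousOn, m2.cfc_right sm hc.continuousOn,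
          m3.cfc_right sm hc.continuousOn, (m4.cfc_right sm hc.continuousOn).symm,
          (m5.cfc_right sm hc.continuousOn).symm, (m6.cfc_right sm hc.continuousOn).symm⟩)
    ek1 ek2 eu
  rw [cfc_sw he fun t ht => (hgap t ht).1, cfc_sw he fun t ht => (hgap t ht).2] at hind
  have hz : ∀ a b : ZMod 2, a ≠ b → a + b ≠ 0 := by decide
  have hind' : ind2 (compress L (ex (cfc (sw E e) Hh))) ≠ 0 := hind ▸ hz _ _ hne
  obtain ⟨f, hf⟩ := exists_schwartz (E := E) he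
  have hf0 : ∀ {A : H →L[ℂ] H}, IsSelfAdjoint A →
      (∀ t ∈ Set.Icc (E - e) (E + e), (t : ℂ) ∉ spectrum ℂ A) → cfcC f A = 0 := fun hA h =>
    cfcC_eq_zero hA fun t ht => (hf t).trans (exp_sw he fun h1 => h t h1 ht)
  have hW : ex (cfc (sw E e) Hh) - 1 = cfcC f Hh := by
    rw [ex_cfc_sub_one sh hc]
    congr 1
    exact (funext hf).symm
  have hnuc : Nuclear (L * ex (cfc (sw E e) Hh) - ex (cfc (sw E e) Hh) * L) := by
    have := hn f (hf0 sp fun t ht => (hgap t ht).1) (hf0 sm fun t ht => (hgap t ht).2)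
    rw [← hW] at this
    convert this using 1
    noncomm_ring
  have hu := exp_I_unitary hG (2 * π)
  have hcj := cj_exp_I hG hG' (2 * π)
  rw [← ex_eq] at hu hcj
  obtain ⟨P, hP, hPn, hPt⟩ := exists_index_one hΘ hu.1 hu.2 hcj hL.idem hL.sa hL.inv hnuc hind'
  obtain ⟨φ, a1, a2, a3⟩ := exists_ac_vector (E := E) sh
    ((sw_contDiff E e).differentiable (by simp)) he.le (fun t ht => by
      rw [sw_eq he ht]
      split_ifs
      · exact AddCircle.coe_period 1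
      · rfl) hP rfl hPn hPt
  exact ⟨φ, a1, a2, a3.trans (by gcongr)⟩

end General

variable {m : ℕ}

lemma nuclear_comm {V Ω : Set ℂ} {ρ : ℂ → ℝ} {T : Hilb m →L[ℂ] Hilb m} (ρ0 : ∀ z, 0 ≤ ρ z)
    (hρ : ∀ z w, ¬(z ∈ V ↔ w ∈ V) → ρ z ≤ ‖z - w‖)
    (hg : Growth fun z => max (ρ z) (max (infDist z Ωᶜ) (infDist z Ωᶜᶜ)))
    (h1 : ∀ N : ℕ, ∃ C > 0, ∀ (x : ℤ × ℤ) (h : ℤ × ℤ →ᵇ ℂ) (R : ℝ), ‖h‖ ≤ 1 → 0 ≤ R → h x = 0 →
      (∀ y, h y ≠ 0 → R ≤ ‖pt x - pt y‖) → ‖mulOp (siteF x) * T * mulOp h‖ ≤ C / (1 + R) ^ N)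
    (h2 : ∀ N : ℕ, ∃ C > 0, ∀ x, ‖mulOp (siteF x) * T‖ ≤ C / (1 + infDist (pt x) Ωᶜ) ^ N)
    (h3 : ∀ N : ℕ, ∃ C > 0, ∀ x, ‖mulOp (siteF x) * T‖ ≤ C / (1 + infDist (pt x) Ωᶜᶜ) ^ N) :
    Nuclear (Lam V * T - T * Lam V) := by
  obtain ⟨N, hN⟩ := hg.summable
  obtain ⟨C₁, hC₁, h1⟩ := h1 N
  obtain ⟨C₂, hC₂, h2⟩ := h2 N
  obtain ⟨C₃, hC₃, h3⟩ := h3 N
  refine nuclear_of_summable (Summable.of_nonneg_of_le (fun _ => norm_nonneg _) (fun x => ?_)
    (hN.mul_left (C₁ + C₂ + C₃)))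
  have hn : ∀ S : Set ℂ, ‖indF S‖ ≤ 1 := fun S =>
    (BoundedContinuousFunction.norm_le zero_le_one).2 (norm_indF_le S)
  have key : ∀ S : Set ℂ, pt x ∉ S → (∀ w ∈ S, ρ (pt x) ≤ ‖pt x - w‖) →
      ‖mulOp (siteF x) * T * mulOp (indF S)‖ ≤ (C₁ + C₂ + C₃) *
        (1 / (1 + max (ρ (pt x)) (max (infDist (pt x) Ωᶜ) (infDist (pt x) Ωᶜᶜ))) ^ N) := by
    intro S hx hS
    have b0 : ‖mulOp (siteF x) * T * mulOp (indF S)‖ ≤ ‖mulOp (siteF x) * T‖ :=
      (norm_mul_le _ _).trans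
        (mul_le_of_le_one_right (norm_nonneg _) ((norm_mulOp_le _).trans (hn S)))
    have b1 := h1 x (indF S) (ρ (pt x)) (hn S) (ρ0 _) (indF_of_notMem hx) fun y hy =>
      hS _ (by by_contra hc; exact hy (indF_of_notMem hc))
    have := ρ0 (pt x)
    have : 0 ≤ infDist (pt x) Ωᶜ := infDist_nonneg
    have : 0 ≤ infDist (pt x) Ωᶜᶜ := infDist_nonneg
    rw [mul_one_div]
    rcases max_choice (ρ (pt x)) (max (infDist (pt x) Ωᶜ) (infDist (pt x) Ωᶜᶜ)) with h | h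
    · rw [h]
      exact b1.trans (by gcongr; linarith)
    · rcases max_choice (infDist (pt x) Ωᶜ) (infDist (pt x) Ωᶜᶜ) with h' | h'
      · rw [h, h']
        exact b0.trans ((h2 x).trans (by gcongr; linarith))
      · rw [h, h']
        exact b0.trans ((h3 x).trans (by gcongr; linarith))
  by_cases hx : pt x ∈ V
  · have e1 : (mulOp (siteF x) * Lam V : Hilb m →L[ℂ] Hilb m) = mulOp (siteF x) := by
      rw [Lam_eq, ← mulOp_mul]
      congr 1
      ext y
      rcases eq_or_ne y x with rfl | hne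
      · simp [indF_of_mem hx]
      · simp [siteF, hne]
    have e : mulOp (siteF x) * (Lam V * T - T * Lam V) = mulOp (siteF x) * T * mulOp (indF Vᶜ) := by
      rw [indF_compl, mulOp_sub, mulOp_one, mul_sub, mul_sub, ← mul_assoc, e1, mul_one, mul_assoc,
        Lam_eq]
    rw [e]
    exact key Vᶜ (fun h => h hx) fun w hw => hρ _ _ fun h => hw (h.1 hx)
  · have e1 : (mulOp (siteF x) * Lam V : Hilb m →L[ℂ] Hilb m) = 0 := by
      rw [Lam_eq, ← mulOp_mul, ← mulOp_zero]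
      congr 1
      ext y
      rcases eq_or_ne y x with rfl | hne
      · simp [indF_of_notMem hx]
      · simp [siteF, hne]
    have e : mulOp (siteF x) * (Lam V * T - T * Lam V) =
        -(mulOp (siteF x) * T * mulOp (indF V)) := by
      rw [mul_sub, ← mul_assoc, e1, zero_mul, zero_sub, mul_assoc, Lam_eq]
    rw [e, norm_neg]
    exact key V hx fun w hw => hρ _ _ fun h => hx (h.2 hw)

/-- the phase function of the flux insertion -/
def fluxF : ℤ × ℤ →ᵇ ℂ :=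
  bcf (fun x => Complex.exp (Complex.arg (pt x) * Complex.I)) 1 fun _ =>
    (Complex.norm_exp_ofReal_mul_I _).le

lemma flux_eq : (flux : Hilb m →L[ℂ] Hilb m) = mulOp fluxF := rfl

lemma exp_arg_eq {a z : ℂ} (ha : ‖a‖ = 1) (hz : z ≠ 0) :
    Complex.exp (Complex.arg z * Complex.I) = a * Complex.exp (ang a z * Complex.I) := by
  have h1 := ang_polar ha z
  have h2 := Complex.norm_mul_exp_arg_mul_I z
  have h3 : (‖z‖ : ℂ) ≠ 0 := by simpa using hz
  refine mul_left_cancel₀ h3 ?_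
  rw [h2, ← mul_assoc, h1]

lemma so_fluxF : SO fluxF := by
  refine Angular.so (Φ := fun z => Complex.exp (Complex.arg z * Complex.I))
    ⟨ContinuousOn.congr (f := fun z => 1 * Complex.exp (ang 1 z * Complex.I)) ?_
      fun z hz => exp_arg_eq norm_one hz, fun r hr z => by simp only [Complex.arg_real_mul _ hr]⟩
  exact (angular_ang norm_one (F := fun t => 1 * Complex.exp (t * Complex.I)) (by fun_prop)
    (by simp)).1

lemma isProj_Lam {Θ : Hilb m ≃ₗᵢ⋆[ℂ] Hilb m} (hΘ : IsTimeReversal Θ) (S : Set ℂ) :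
    IsProj Θ (Lam S) := by
  have h1 : star (Lam S : Hilb m →L[ℂ] Hilb m) = Lam S := by
    rw [Lam_eq, star_mulOp]
    congr 1
    ext x
    by_cases h : pt x ∈ S
    · simp [indF_of_mem h]
    · simp [indF_of_notMem h]
  refine ⟨?_, h1, (hΘ.cj_mulOp _).trans h1⟩
  rw [Lam_eq, ← mulOp_mul]
  congr 1
  ext x
  by_cases h : pt x ∈ S
  · simp [indF_of_mem h]
  · simp [indF_of_notMem h]

lemma star_mulOp_real {h : ℤ × ℤ →ᵇ ℂ} (hh : ∀ x, ∃ t : ℝ, h x = t) :
    star (mulOp h : Hilb m →L[ℂ] Hilb m) = mulOp h := by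
  rw [star_mulOp]
  congr 1
  ext x
  obtain ⟨t, ht⟩ := hh x
  simp [ht]

lemma qm_mulOp_eq {f g : ℤ × ℤ →ᵇ ℂ} (h : Tendsto (fun x => f x - g x) cofinite (𝓝 0)) :
    qm (mulOp f : Hilb m →L[ℂ] Hilb m) = qm (mulOp g) := by
  rw [qm_eq_iff, ← mulOp_sub]
  exact mulOp_mem_cptIdeal h

theorem main {Θ : Hilb m ≃ₗᵢ⋆[ℂ] Hilb m} (hΘ : IsTimeReversal Θ)
    {Hp Hm Hh : Hilb m →L[ℂ] Hilb m} (sp : IsSelfAdjoint Hp) (lp' : IsLocal Hp) (tp : IsTRS Θ Hp)
    (sm : IsSelfAdjoint Hm) (lm : IsLocal Hm) (tm : IsTRS Θ Hm) {E : ℝ}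
    (gp : (E : ℂ) ∉ spectrum ℂ Hp) (gm : (E : ℂ) ∉ spectrum ℂ Hm) (hne : fkm Hp E ≠ fkm Hm E)
    {Ω : Set ℂ} (h1 : ContainsParabolic Ω) (h2 : ContainsParabolic Ωᶜ)
    (hI : IsInterface Hp Hm Ω Hh) (th : IsTRS Θ Hh) : AcApprox Hh E := by
  obtain ⟨α, hα, c, θ, h1⟩ := h1
  obtain ⟨α', hα', c', θ', h2⟩ := h2
  have n1 : Ω.Nonempty := (parabolic_nonempty _ _ _).mono h1
  have n2 : Ωᶜ.Nonempty := (parabolic_nonempty _ _ _).mono h2
  have n3 : Ωᶜᶜ.Nonempty := by rwa [compl_compl]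
  have ga := growth_parabolic hα h1 n2
  have gb := growth_parabolic hα' h2 n3
  set a := Complex.exp (θ * Complex.I) with had
  set b := Complex.exp (θ' * Complex.I) with hbd
  have ha : ‖a‖ = 1 := Complex.norm_exp_ofReal_mul_I θ
  have hb : ‖b‖ = 1 := Complex.norm_exp_ofReal_mul_I θ'
  have hab : a ≠ b := ray_ne ha ga gb
  set γ := ang a b with hγ
  have γ0 : 0 < γ := (ang_mem a b).1
  have γ1 : γ < 2 * π := ang_lt ha hb hab
  let V : Set ℂ := {z | ang a z < γ}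
  obtain ⟨χp, p1, p2, p3, p4, p5, p6⟩ := exists_cutoff ha ga
  obtain ⟨χm, m1, m2, m3, m4, m5, m6⟩ := exists_cutoff hb gb
  let K : ℝ → ℝ := fun t => max (1 - t / γ) ((t - γ) / (2 * π - γ))
  let J : ℝ → ℝ := fun t => θ + t + 2 * π * max 0 (1 - t / γ)
  have hK : Continuous K := by fun_prop
  have hJ : Continuous J := by fun_prop
  have g2 : 0 < 2 * π - γ := by linarith
  have K2 : K (2 * π) = 1 := by
    simp only [K, div_self g2.ne']
    exact max_eq_right (by linarith [show 0 ≤ 2 * π / γ by positivity])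
  have K0 : K 0 = K (2 * π) := by
    rw [K2]
    simp only [K, zero_div, sub_zero]
    exact max_eq_left ((div_nonpos_of_nonpos_of_nonneg (by linarith) g2.le).trans zero_le_one)
  have Kγ : K γ = 0 := by simp [K, γ0.ne']
  have J0 : J 0 = J (2 * π) := by
    simp only [J, zero_div, sub_zero]
    rw [max_eq_right zero_le_one, max_eq_left (by rw [sub_nonpos, one_le_div γ0]; exact γ1.le)]
    ring
  obtain ⟨k, hk⟩ := exists_angF a hK
  obtain ⟨j, hj⟩ := exists_angF a hJ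
  have aK : Angular fun z => ((K (ang a z) : ℝ) : ℂ) :=
    angular_ang ha (F := fun t => ((K t : ℝ) : ℂ)) (by fun_prop) (by rw [K0])
  have aJ : Angular fun z => ((J (ang a z) : ℝ) : ℂ) :=
    angular_ang ha (F := fun t => ((J t : ℝ) : ℂ)) (by fun_prop) (by rw [J0])
  let η : ℤ × ℤ →ᵇ ℂ := j - ((θ + π : ℝ) : ℂ) • indF {0}
  have hη : ∀ x, η x = j x - ((θ + π : ℝ) : ℂ) * indF {0} x := fun _ => rfl
  have sk : SO k := by rw [show (k : ℤ × ℤ → ℂ) = _ from funext hk]; exact aK.so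
  have sη : SO η := by
    rw [show (η : ℤ × ℤ → ℂ) = _ from funext hη, show (j : ℤ × ℤ → ℂ) = _ from funext hj]
    refine aJ.so.sub (SO.of_tendsto_zero (tendsto_const_nhds.congr' ?_))
    filter_upwards [tendsto_norm_pt.eventually_gt_atTop 0] with x hx
    rw [indF_of_notMem (by simpa using hx), mul_zero]
  have kr : star (mulOp k : Hilb m →L[ℂ] Hilb m) = mulOp k := star_mulOp_real fun x => ⟨_, hk x⟩
  have ηr : star (mulOp η : Hilb m →L[ℂ] Hilb m) = mulOp η := star_mulOp_real fun x => by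
    rw [hη, hj]
    by_cases h : pt x ∈ ({0} : Set ℂ)
    · exact ⟨_, by rw [indF_of_mem h, mul_one, ← Complex.ofReal_sub]⟩
    · exact ⟨_, by rw [indF_of_notMem h, mul_zero, sub_zero]⟩
  have cr : ∀ z w, ¬(z ∈ V ↔ w ∈ V) → min (dr a z) (dr b z) ≤ 2 * ‖z - w‖ := fun z w h =>
    crossing ha hb h
  have sd : SO (indF V * (1 - χp - χm) : ℤ × ℤ →ᵇ ℂ) := by
    have su : SO fun x => 1 - χp x - χm x := ((SO.const 1).sub p1).sub m1
    intro R ε hε
    have hz : ∀ᶠ x in cofinite, min (dr a (pt x)) (dr b (pt x)) ≤ 2 * R → 1 - χp x - χm x = 0 := by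
      filter_upwards [p6 (2 * R), m6 (2 * R)] with x a1 a2 a3
      rcases min_le_iff.1 a3 with h | h
      · have b1 := a1 h
        rw [b1, m2 x fun hx => by simp [p2 x hx] at b1]
        simp
      · have b1 := a2 h
        have b2 : pt x ∈ Ωᶜ := by
          by_contra hx
          simp [m2 x hx] at b1
        rw [b1, p2 x b2]
        simp
    filter_upwards [su R ε hε, hz, eventually_near hz R] with x a1 a2 a3 y hy
    change ‖indF V x * (1 - χp x - χm x) - indF V y * (1 - χp y - χm y)‖ ≤ ε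
    by_cases h : pt x ∈ V ↔ pt y ∈ V
    · by_cases hx : pt x ∈ V
      · rw [indF_of_mem hx, indF_of_mem (h.1 hx), one_mul, one_mul]
        exact a1 y hy
      · rw [indF_of_notMem hx, indF_of_notMem fun hy => hx (h.2 hy)]
        simpa using hε.le
    · rw [a2 ((cr _ _ h).trans (by linarith)),
        a3 y hy ((cr _ _ fun h' => h h'.symm).trans (by rw [norm_sub_rev]; linarith))]
      simpa using hε.le
  have cp := hI.close lp' n1 n2
  have cm := hI.symm.close lm n2 n3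
  have qp : (mulOp χp * Lam Ω : Hilb m →L[ℂ] Hilb m) = mulOp χp := by
    rw [Lam_eq, ← mulOp_mul]
    congr 1
    ext x
    by_cases h : pt x ∈ Ω
    · simp [indF_of_mem h]
    · simp [p2 x h]
  have qm' : (mulOp χm * Lam Ω : Hilb m →L[ℂ] Hilb m) = 0 := by
    rw [Lam_eq, ← mulOp_mul, ← mulOp_zero]
    congr 1
    ext x
    by_cases h : pt x ∈ Ω
    · simp [m2 x fun h' => h' h]
    · simp [indF_of_notMem h]
  have u1 : star fluxF * fluxF = 1 := by
    ext x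
    simp only [fluxF, BoundedContinuousFunction.mul_apply, BoundedContinuousFunction.star_apply,
      bcf_apply, RCLike.star_def, Complex.conj_mul', Complex.norm_exp_ofReal_mul_I]
    simp
  refine ac_of_data (L := Lam V) (Q := Lam Ω) (χp := mulOp χp) (χm := mulOp χm) (k := mulOp k)
    (η := mulOp η) (U := flux) hΘ.1 sp sm hI.1 ((cj_eq_iff _ _ _).2 tp)
    ((cj_eq_iff _ _ _).2 tm) ((cj_eq_iff _ _ _).2 th) gp gm hne
    (isProj_Lam hΘ V) (isProj_Lam hΘ Ω) (mulOp_commute _ _) (mulOp_commute _ _) (mulOp_commute _ _)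
    (mulOp_commute _ _) qp ((mulOp_commute _ _).eq.trans qp) qm' ((mulOp_commute _ _).eq.trans qm')
    (mulOp_commute _ _) (mulOp_commute _ _) kr ((hΘ.cj_mulOp _).trans kr) ηr
    ((hΘ.cj_mulOp _).trans ηr) ?_ ?_ (hΘ.cj_mulOp _) (mulOp_commute _ _) ?_ ?_ ?_ ?_
    (cp.qm_eq p3) (cm.qm_eq m3) fun f f1 f2 => ?_
  · rw [flux_eq, star_mulOp, ← mulOp_mul, u1, mulOp_one]
  · rw [flux_eq, star_mulOp, ← mulOp_mul, mul_comm, u1, mulOp_one]
  · have : ∀ A : Hilb m →L[ℂ] Hilb m, IsLocal A → Cm (mulOp χp) A ∧ Cm (mulOp χm) A ∧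
        Cm (Lam V * (1 - mulOp χp - mulOp χm)) A ∧ Cm (mulOp k) A ∧ Cm (mulOp η) A ∧
        Cm flux A := fun A hA =>
      ⟨hA.cm p1, hA.cm m1, by
        have := hA.cm sd
        rwa [mulOp_mul, mulOp_sub, mulOp_sub, mulOp_one] at this,
        hA.cm sk, hA.cm sη, hA.cm so_fluxF⟩
    rintro A (rfl | rfl | rfl)
    exacts [this _ lp', this _ lm, this _ hI.2.1]
  · rw [← mulOp_mul]
    refine qm_mulOp_eq ((aK.tendsto_mul ha p4 p5).congr fun x => ?_)
    rw [ang_self ha, K2, BoundedContinuousFunction.mul_apply, hk]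
    push_cast
    ring
  · rw [← mulOp_mul, ← map_zero qm, ← mulOp_zero]
    refine qm_mulOp_eq ((aK.tendsto_mul hb m4 m5).congr fun x => ?_)
    rw [← hγ, Kγ, BoundedContinuousFunction.mul_apply, hk]
    simp
  · rw [ex, ← mulOp_smul, ← mulOp_smul, exp_mulOp, exp_mulOp, flux_eq, star_mulOp, Lam_eq,
      ← mulOp_one, ← mulOp_sub, ← mulOp_mul, ← mulOp_mul, ← mulOp_add]
    congr 1
    ext x
    have e1 : (1 + indF V * (exp ((2 * π * Complex.I : ℂ) • k) - 1) : ℤ × ℤ →ᵇ ℂ) x =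
        Complex.exp ((2 * π * max 0 (1 - ang a (pt x) / γ) : ℝ) * Complex.I) := by
      change 1 + indF V x * (exp ((2 * π * Complex.I : ℂ) • k) x - 1) = _
      rw [exp_bcf_apply]
      by_cases h : pt x ∈ V
      · have h' : ang a (pt x) < γ := h
        have h3 : 0 ≤ 1 - ang a (pt x) / γ := by rw [sub_nonneg, div_le_one γ0]; exact h'.le
        have h4 : K (ang a (pt x)) = 1 - ang a (pt x) / γ :=
          max_eq_left ((div_nonpos_of_nonpos_of_nonneg (by linarith) g2.le).trans h3)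
        rw [indF_of_mem h, one_mul, add_sub_cancel, BoundedContinuousFunction.smul_apply, hk, h4,
          max_eq_right h3]
        congr 1
        rw [smul_eq_mul]
        push_cast
        ring
      · have h' : γ ≤ ang a (pt x) := not_lt.1 h
        rw [indF_of_notMem h, max_eq_left (by rw [sub_nonpos, one_le_div γ0]; exact h')]
        simp
    rw [e1]
    change _ = star (Complex.exp (Complex.arg (pt x) * Complex.I)) *
      exp ((((1 : ℝ) : ℂ) * Complex.I) • η) x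
    rw [exp_bcf_apply, BoundedContinuousFunction.smul_apply, hη, hj]
    by_cases h : pt x = 0
    · rw [indF_of_mem (show pt x ∈ ({0} : Set ℂ) from h), h]
      simp only [J, ang]
      simp
      congr 1
      ring
    · rw [indF_of_notMem (show pt x ∉ ({0} : Set ℂ) from h), exp_arg_eq ha h, had,
        ← Complex.exp_add, RCLike.star_def, ← Complex.exp_conj, ← Complex.exp_add]
      congr 1
      simp only [J]
      simp
      ring
  · refine nuclear_comm (Ω := Ω) (ρ := fun z => min (dr a z) (dr b z) / 2)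
      (fun z => div_nonneg (le_min (dr_nonneg _ _) (dr_nonneg _ _)) zero_le_two)
      (fun z w h => by linarith [cr z w h]) ((ga.min gb).mono (fun z => ?_) fun z => ?_)
      (decay_one f hI.1 hI.2.1) (fun N => ?_) fun N => ?_
    · exact le_max_of_le_right (le_max_of_le_right infDist_nonneg)
    · have a1 := le_max_left (min (dr a z) (dr b z) / 2) (max (infDist z Ωᶜ) (infDist z Ωᶜᶜ))
      have a2 := le_max_right (min (dr a z) (dr b z) / 2) (max (infDist z Ωᶜ) (infDist z Ωᶜᶜ))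
      have a3 := le_max_left (infDist z Ωᶜ) (infDist z Ωᶜᶜ)
      have a4 := le_max_right (infDist z Ωᶜ) (infDist z Ωᶜᶜ)
      rcases min_choice (dr a z) (dr b z) with h | h
      · exact (min_le_left _ _).trans (by linarith)
      · exact (min_le_right _ _).trans (by linarith)
    · have := decay_two f hI.1 sp hI.2.1 (fun x => infDist_nonneg)
        (fun x y => infDist_lip _ _ _) cp N
      rwa [f1, sub_zero] at this
    · have := decay_two f hI.1 sm hI.2.1 (fun x => infDist_nonneg)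
        (fun x y => infDist_lip _ _ _) cm N
      rwa [f2, sub_zero] at this

end Pool.Agent.MP_120ee9_mp

end
end

-- part MP_120ee9_mp.Transfer
section

/-! Transfer from a Hilbert space with an orthonormal basis to the concrete model. -/

noncomputable section

namespace Pool.Agent.MP_120ee9_mp

open Filter Topology InnerProductSpace
open scoped BoundedContinuousFunction Real ComplexConjugate MeasureTheory

section General

variable {H : Type*} [NormedAddCommGroup H] [InnerProductSpace ℂ H] [CompleteSpace H]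
variable {K : Type*} [NormedAddCommGroup K] [InnerProductSpace ℂ K] [CompleteSpace K]

lemma norm_conj_le (e : H ≃ₗᵢ[ℂ] K) (A : H →L[ℂ] H) : ‖e.conjStarAlgEquiv A‖ ≤ ‖A‖ := by
  refine ContinuousLinearMap.opNorm_le_bound _ (norm_nonneg _) fun y => ?_
  rw [LinearIsometryEquiv.conjStarAlgEquiv_apply_apply, e.norm_map]
  simpa using A.le_opNorm (e.symm y)

lemma conj_sa (e : H ≃ₗᵢ[ℂ] K) {A : H →L[ℂ] H} (hA : IsSelfAdjoint A) :
    IsSelfAdjoint (e.conjStarAlgEquiv A) := by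
  rw [IsSelfAdjoint, ← map_star, hA.star_eq]

lemma conj_cfc (e : H ≃ₗᵢ[ℂ] K) {A : H →L[ℂ] H} (hA : IsSelfAdjoint A) {f : ℝ → ℝ}
    (hf : Continuous f) : e.conjStarAlgEquiv (cfc f A) = cfc f (e.conjStarAlgEquiv A) := by
  have hc : Continuous (e.conjStarAlgEquiv : (H →L[ℂ] H) → K →L[ℂ] K) := by
    have : LipschitzWith 1 (e.conjStarAlgEquiv : (H →L[ℂ] H) → K →L[ℂ] K) :=
      LipschitzWith.of_dist_le_mul fun A B => by
        rw [dist_eq_norm, dist_eq_norm, ← map_sub]; simpa using norm_conj_le e (A - B)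
    exact this.continuous
  exact StarAlgHom.map_cfc (R := ℝ) (S := ℂ)
    (e.conjStarAlgEquiv : (H →L[ℂ] H) →⋆ₐ[ℂ] K →L[ℂ] K) f A hf.continuousOn hc hA (conj_sa e hA)

lemma conj_spectrum (e : H ≃ₗᵢ[ℂ] K) (A : H →L[ℂ] H) :
    spectrum ℂ (e.conjStarAlgEquiv A) = spectrum ℂ A :=
  AlgEquiv.spectrum_eq e.conjStarAlgEquiv A

lemma conj_fermi (e : H ≃ₗᵢ[ℂ] K) {A : H →L[ℂ] H} (hA : IsSelfAdjoint A) {E : ℝ}
    (hE : (E : ℂ) ∉ spectrum ℂ A) : e.conjStarAlgEquiv (fermi A E) = fermi (e.conjStarAlgEquiv A) E := by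
  obtain ⟨δ, hδ, -, h⟩ := exists_gap hE hE one_pos
  rw [← cfc_sw hδ fun t ht => (h t ht).1, ← cfc_sw hδ fun t ht => by
    rw [conj_spectrum]; exact (h t ht).1, conj_cfc e hA (sw_contDiff E δ).continuous]

lemma conj_ind2 (e : H ≃ₗᵢ[ℂ] K) (F : H →L[ℂ] H) : ind2 (e.conjStarAlgEquiv F) = ind2 F := by
  have h : LinearMap.ker ((e.conjStarAlgEquiv F : K →L[ℂ] K) : K →ₗ[ℂ] K) =
      (LinearMap.ker (F : H →ₗ[ℂ] H)).map (e.toLinearEquiv : H →ₗ[ℂ] K) := by
    ext y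
    rw [Submodule.mem_map_equiv]
    simp
  rw [ind2, ind2, h, LinearEquiv.finrank_map_eq]

lemma conj_compress (e : H ≃ₗᵢ[ℂ] K) (Q W : H →L[ℂ] H) :
    e.conjStarAlgEquiv (compress Q W) = compress (e.conjStarAlgEquiv Q) (e.conjStarAlgEquiv W) := by
  simp only [compress, map_add, map_mul, map_sub, map_one]

lemma AcApprox.of_conj (e : H ≃ₗᵢ[ℂ] K) {A : H →L[ℂ] H} (hA : IsSelfAdjoint A) {E : ℝ}
    (h : AcApprox (e.conjStarAlgEquiv A) E) : AcApprox A E := by
  intro ε hε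
  obtain ⟨φ, h0, ⟨μ, ⟨h1, h2⟩, h3⟩, h4⟩ := h ε hε
  refine ⟨e.symm φ, by simpa using h0, ⟨μ, ⟨h1, fun f => ?_⟩, h3⟩, ?_⟩
  · rw [← h2 f, ← conj_cfc e hA f.continuous, LinearIsometryEquiv.conjStarAlgEquiv_apply_apply,
      ← e.inner_map_map, e.apply_symm_apply]
  · rw [← e.norm_map, map_sub, map_smul, e.apply_symm_apply, e.symm.norm_map]
    exact h4

lemma conj_rankOne (e : H ≃ₗᵢ[ℂ] K) (a b : H) :
    e.conjStarAlgEquiv (rankOne ℂ a b) = rankOne ℂ (e a) (e b) := by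
  ext y
  rw [LinearIsometryEquiv.conjStarAlgEquiv_apply_apply, rankOne_apply, rankOne_apply, map_smul,
    ← e.inner_map_map, e.apply_symm_apply]

/-- the antiunitary transported along a unitary -/
def conjAnti (e : H ≃ₗᵢ[ℂ] K) (Θ : H ≃ₗᵢ⋆[ℂ] H) : K ≃ₗᵢ⋆[ℂ] K := (e.symm.trans Θ).trans e

omit [CompleteSpace H] [CompleteSpace K] in
lemma conjAnti_apply (e : H ≃ₗᵢ[ℂ] K) (Θ : H ≃ₗᵢ⋆[ℂ] H) (y : K) :
    conjAnti e Θ y = e (Θ (e.symm y)) := rfl

lemma IsTRS.conj (e : H ≃ₗᵢ[ℂ] K) {Θ : H ≃ₗᵢ⋆[ℂ] H} {A : H →L[ℂ] H} (h : IsTRS Θ A) :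
    IsTRS (conjAnti e Θ) (e.conjStarAlgEquiv A) := fun ψ => by
  simp only [conjAnti_apply, LinearIsometryEquiv.conjStarAlgEquiv_apply_apply, e.symm_apply_apply]
  rw [h]

end General

variable {m : ℕ}

/-- the standard basis vectors -/
def sv (p : (ℤ × ℤ) × Fin m) : Hilb m := lp.single 2 p.1 (EuclideanSpace.basisFun (Fin m) ℂ p.2)

lemma inner_sv (p : (ℤ × ℤ) × Fin m) (ψ : Hilb m) : inner ℂ (sv p) ψ = ψ p.1 p.2 := by
  rw [sv, lp.inner_single_left]
  simp [EuclideanSpace.inner_single_left]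

lemma exists_basis (m : ℕ) : ∃ c : HilbertBasis ((ℤ × ℤ) × Fin m) ℂ (Hilb m), ⇑c = sv := by
  have ho : Orthonormal ℂ (sv : (ℤ × ℤ) × Fin m → Hilb m) := by
    rw [orthonormal_iff_ite]
    rintro ⟨x, i⟩ ⟨y, j⟩
    rw [inner_sv]
    rcases eq_or_ne x y with rfl | h
    · simp [sv]
    · simp [sv, h]
  refine ⟨HilbertBasis.mkOfOrthogonalEqBot ho ?_, HilbertBasis.coe_mkOfOrthogonalEqBot _ _⟩
  rw [Submodule.eq_bot_iff]
  intro ψ hψ
  refine lp.ext (funext fun x => ?_)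
  ext i
  have := hψ (sv (x, i)) (Submodule.subset_span ⟨_, rfl⟩)
  rw [inner_sv] at this
  simpa using this

lemma norm_entry_le (T : Hilb m →L[ℂ] Hilb m) (x y : ℤ × ℤ) :
    ‖entry T x y‖ ≤ ‖mulOp (siteF x) * T * mulOp (siteF y)‖ := by
  refine ContinuousLinearMap.opNorm_le_bound _ (norm_nonneg _) fun v => ?_
  have h := (mulOp (siteF x) * T * mulOp (siteF y)).le_opNorm (lp.single 2 y v)
  rw [mul_apply_eq_comp, mul_apply_eq_comp, site_apply, site_apply, lp.single_apply_self,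
    lp.norm_single (by simp), lp.norm_single (by simp)] at h
  exact h

variable {H : Type*} [NormedAddCommGroup H] [InnerProductSpace ℂ H] [CompleteSpace H]
variable {b : HilbertBasis ((ℤ × ℤ) × Fin m) ℂ H} {e : H ≃ₗᵢ[ℂ] Hilb m}

omit [CompleteSpace H] in
lemma exists_unitary (b : HilbertBasis ((ℤ × ℤ) × Fin m) ℂ H) :
    ∃ e : H ≃ₗᵢ[ℂ] Hilb m, ∀ p, e (b p) = sv p := by
  obtain ⟨c, hc⟩ := exists_basis m
  refine ⟨b.repr.trans c.repr.symm, fun p => ?_⟩
  rw [LinearIsometryEquiv.trans_apply, b.repr_self, c.repr_symm_single, hc]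

lemma conj_site (he : ∀ p, e (b p) = sv p) (x : ℤ × ℤ) :
    e.conjStarAlgEquiv (site b x) = mulOp (siteF x) := by
  rw [site, map_sum, site_eq_sum]
  refine Finset.sum_congr rfl fun i _ => ?_
  rw [conj_rankOne, he]
  rfl

lemma norm_entry_conj_le (he : ∀ p, e (b p) = sv p) (A : H →L[ℂ] H) (x y : ℤ × ℤ) :
    ‖entry (e.conjStarAlgEquiv A) x y‖ ≤ blockNorm b A x y := by
  refine (norm_entry_le _ x y).trans ?_
  rw [← conj_site he, ← conj_site he, ← map_mul, ← map_mul]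
  exact norm_conj_le e _

lemma IsMul.conj (he : ∀ p, e (b p) = sv p) {h : ℂ → ℂ} {T : H →L[ℂ] H} (hT : IsMul b h T)
    {g : ℤ × ℤ →ᵇ ℂ} (hg : ∀ x, g x = h (pt x)) : e.conjStarAlgEquiv T = mulOp g := by
  obtain ⟨c, hc⟩ := exists_basis m
  have hd : Dense (Submodule.span ℂ (Set.range (sv : (ℤ × ℤ) × Fin m → Hilb m)) : Set (Hilb m)) := by
    rw [← hc]
    exact Submodule.dense_iff_topologicalClosure_eq_top.2 c.dense_span
  refine ContinuousLinearMap.ext_on hd ?_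
  rintro _ ⟨⟨x, i⟩, rfl⟩
  rw [LinearIsometryEquiv.conjStarAlgEquiv_apply_apply, ← he, e.symm_apply_apply, hT.apply_basis,
    map_smul, he, sv, mulOp_single, hg]

lemma Local.conj (he : ∀ p, e (b p) = sv p) {A : H →L[ℂ] H} (hA : Local b A) :
    IsLocal (e.conjStarAlgEquiv A) := by
  obtain ⟨ν, hν, h⟩ := hA.decay
  exact ⟨ν, hν, fun x y => (norm_entry_conj_le he A x y).trans (h x y)⟩

omit [CompleteSpace H] in
lemma TimeReversal.conj (he : ∀ p, e (b p) = sv p) {Θ : H ≃ₗᵢ⋆[ℂ] H} (h : TimeReversal b Θ) :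
    IsTimeReversal (conjAnti e Θ) := by
  have key : ∀ (ψ : Hilb m) x i, inner ℂ (b (x, i)) (e.symm ψ) = ψ x i := fun ψ x i => by
    rw [← e.inner_map_map, e.apply_symm_apply, he, inner_sv]
  have key2 : ∀ c : ℤ × ℤ → ℂ,
      (∀ ψ φ : H, (∀ x i, inner ℂ (b (x, i)) φ = c x * inner ℂ (b (x, i)) ψ) →
        ∀ x i, inner ℂ (b (x, i)) (Θ φ) = c x * inner ℂ (b (x, i)) (Θ ψ)) →
      ∀ ψ φ : Hilb m, (∀ x, φ x = c x • ψ x) →
        ∀ x, conjAnti e Θ φ x = c x • conjAnti e Θ ψ x := by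
    intro c hc ψ φ h1 x
    ext i
    have := hc (e.symm ψ) (e.symm φ) (fun x i => by rw [key, key, h1]; rfl) x i
    rw [← e.symm_apply_apply (Θ (e.symm φ)), ← e.symm_apply_apply (Θ (e.symm ψ)), key, key] at this
    exact this
  refine ⟨fun ψ => ?_, key2 _ h.comm₁, key2 _ h.comm₂⟩
  rw [conjAnti_apply, conjAnti_apply, e.symm_apply_apply, h.sq, map_neg, e.apply_symm_apply]

lemma Interface.conj (he : ∀ p, e (b p) = sv p) {Hp Hm A : H →L[ℂ] H} {Ω : Set ℂ}
    (h : Interface b Hp Hm Ω A) : IsInterface (e.conjStarAlgEquiv Hp) (e.conjStarAlgEquiv Hm) Ω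
      (e.conjStarAlgEquiv A) := by
  obtain ⟨Λ, Λ', h1, h2, ν, hν, h3⟩ := h.bound
  refine ⟨conj_sa e h.isLocal.selfAdjoint, h.isLocal.conj he, ν, hν, fun x y => ?_⟩
  refine le_trans ?_ ((norm_entry_conj_le he _ x y).trans (h3 x y))
  rw [map_sub, map_sub, map_mul, map_mul, map_mul, map_mul,
    h1.conj he (g := indF Ω) fun _ => rfl, h2.conj he (g := indF Ωᶜ) fun _ => rfl]
  rfl

theorem main' {Θ : H ≃ₗᵢ⋆[ℂ] H} (hΘ : TimeReversal b Θ) {U : H →L[ℂ] H}
    (hU : IsMul b (fun z => Complex.exp (Complex.arg z * Complex.I)) U) {Hp Hm Hh : H →L[ℂ] H}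
    (lp' : Local b Hp) (tp : IsTRS Θ Hp) (lm : Local b Hm) (tm : IsTRS Θ Hm) {E : ℝ}
    (gp : (E : ℂ) ∉ spectrum ℂ Hp) (gm : (E : ℂ) ∉ spectrum ℂ Hm)
    (hne : ind2 (compress (fermi Hp E) U) ≠ ind2 (compress (fermi Hm E) U))
    {Ω : Set ℂ} (h1 : ContainsParabolic Ω) (h2 : ContainsParabolic Ωᶜ)
    (hI : Interface b Hp Hm Ω Hh) (th : IsTRS Θ Hh) : E ∈ acSpectrum Hh := by
  obtain ⟨e, he⟩ := exists_unitary b
  have hf : e.conjStarAlgEquiv U = flux := hU.conj he (g := fluxF) fun _ => rfl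
  refine mem_acSpectrum_of_approx (AcApprox.of_conj e hI.isLocal.selfAdjoint ?_)
  refine main (hΘ.conj he) (conj_sa e lp'.selfAdjoint) (lp'.conj he) (tp.conj e)
    (conj_sa e lm.selfAdjoint) (lm.conj he) (tm.conj e) (by rwa [conj_spectrum])
    (by rwa [conj_spectrum]) ?_ h1 h2 (hI.conj he) (th.conj e)
  rwa [fkm, fkm, ← conj_fermi e lp'.selfAdjoint gp, ← conj_fermi e lm.selfAdjoint gm, ← hf,
    ← conj_compress, ← conj_compress, conj_ind2, conj_ind2]

end Pool.Agent.MP_120ee9_mp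

end
end
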